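import Pool.Agent.NPC.Defs

/-!
# NP and BPP: definitions
-/

set_option autoImplicit false

namespace Pool.Agent.Helper6K1.BN

open Pool.Agent.NPC

/-- The probability that a uniformly random string of `n` bits has the property `P`. -/
noncomputable def prob (n : ℕ) (P : List Bool → Prop) : ℝ :=
  ({r : List Bool | r.length = n ∧ P r}.ncard : ℝ) / 2 ^ n

/-- The class `BPP`: a polynomial-time machine with `ρ |x|` random bits is right with probability at
least `2 / 3` for every input `x`. -/
def InBPP (L : Set (List Bool)) : Prop :=
  ∃ (V : List Bool → List Bool) (ρ : Polynomial ℕ), PolyTime V ∧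
    ∀ x, 2 / 3 ≤ prob (ρ.eval x.length) fun r => V (pairBits x r) = [true] ↔ x ∈ L

/-- The class `RP`: a polynomial-time machine with `ρ |x|` random bits accepts each `x ∈ L` with
probability at least `1 / 2` and never accepts an `x ∉ L`. -/
def InRP (L : Set (List Bool)) : Prop :=
  ∃ (V : List Bool → List Bool) (ρ : Polynomial ℕ), PolyTime V ∧
    ∀ x, (x ∈ L → 1 / 2 ≤ prob (ρ.eval x.length) fun r => V (pairBits x r) = [true]) ∧
      (x ∉ L → ∀ r : List Bool, r.length = ρ.eval x.length → V (pairBits x r) ≠ [true])

open Classical in
/-- The truth values of the statements `x ∈ L` for the strings `x` of a list. -/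
noncomputable def answers (L : Set (List Bool)) (xs : List (List Bool)) : List Bool :=
  xs.map fun x => decide (x ∈ L)

/-- A randomised polynomial-time test `V` **distinguishes** the true answers from random bits: on
`c * log n` instances of length `n` it accepts the vector of the true answers with a probability that
exceeds the probability that it accepts a uniformly random vector by at least an inverse
polynomial. (`n.size` is the number of binary digits of `n`.) -/
def Distinguishable (L : Set (List Bool)) : Prop :=
  ∃ (c : ℕ) (V : List Bool → List Bool) (ρ q : Polynomial ℕ), PolyTime V ∧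
    ∀ n : ℕ, 1 ≤ n → ∀ xs : List (List Bool), xs.length = c * n.size → (∀ x ∈ xs, x.length = n) →
      prob (xs.length + ρ.eval n) (fun z =>
          V (pairBits (bits (xs, z.take xs.length)) (z.drop xs.length)) = [true]) +
        1 / (((q.eval n : ℕ) : ℝ) + 1) ≤
      prob (ρ.eval n) (fun r => V (pairBits (bits (xs, answers L xs)) r) = [true])

/-- A set of strings is sparse if it has at most polynomially many elements of each length. -/
def Sparse (S : Set (List Bool)) : Prop :=
  ∃ p : Polynomial ℕ, ∀ n : ℕ, {y | y ∈ S ∧ y.length = n}.ncard ≤ p.eval n

/-- A randomised truth-table reduction with `k` queries and a gap: from the input `x` and random bits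
`r`, the reduction `f` produces `k` queries to `S` and a list of accepting vectors of answers, and the
probability of acceptance is at least `θ |x| + 1 / (q |x| + 1)` for `x ∈ L` and at most `θ |x|` for
`x ∉ L`. -/
def GapRed (k : ℕ) (L S : Set (List Bool)) : Prop :=
  ∃ (f : List Bool → List (List Bool) × List (List Bool)) (ρ q : Polynomial ℕ) (θ : ℕ → ℝ),
    PolyTime (fun y => bits (f y)) ∧ (∀ y, (f y).1.length = k) ∧
    ∀ x : List Bool,
      (x ∈ L → θ x.length + 1 / (((q.eval x.length : ℕ) : ℝ) + 1) ≤
        prob (ρ.eval x.length) fun r => answers S (f (pairBits x r)).1 ∈ (f (pairBits x r)).2) ∧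
      (x ∉ L → prob (ρ.eval x.length)
        (fun r => answers S (f (pairBits x r)).1 ∈ (f (pairBits x r)).2) ≤ θ x.length)

end Pool.Agent.Helper6K1.BN
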