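import Pool.Agent.Helper6K1.BN.T1a
import Pool.Agent.H579R2.Spt.VV3

/-!
# From a test that recognises the true vector of answers to a predictor
-/

set_option autoImplicit false

namespace Pool.Agent.Helper6K1.BN

open Finset BigOperators Pool.Agent.NPC
open Pool.Agent.H579R2.Spt (BL mem_BL ip rowsL rowsL_succ cd ip_poly rowsL_poly take_poly'
  drop_poly' two_pow_size_poly bits_poly ver ver_poly ver_iff ip_cons)

theorem poly_pairBits {α : Type} [TEnc α] {x w : α → List Bool} (hx : Poly x) (hw : Poly w) :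
    Poly (fun a => pairBits (x a) (w a)) :=
  NPC.Poly.append (NPC.Poly.flatMap (F := fun _ b => [true, b]) hx
    (NPC.Poly.cons (NPC.Poly.const true) (NPC.Poly.cons (NPC.Poly.snd NPC.Poly.id)
      (NPC.Poly.const [])))) (NPC.Poly.cons (NPC.Poly.const false) hw)

theorem size_upoly {α : Type} [TEnc α] {n : α → ℕ} (hn : UPoly n) :
    UPoly (fun a => (n a).size) := by
  have h1 : Poly (fun a => (n a).bits) := NPC.Poly.natBits hn.toPoly
  have h2 := UPoly.length h1
  have h3 : (fun a => (n a).size) = fun a => (n a).bits.length := by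
    funext a
    exact (Nat.size_eq_bits_len _).symm
  rw [h3]
  exact h2

theorem prob_eq' (n : ℕ) (P : List Bool → Prop) [DecidablePred P] :
    prob n P = 𝔼 r ∈ BL n, (if P r then (1 : ℝ) else 0) := by
  classical
  rw [prob_eq]
  refine expect_congr rfl fun r _ => ?_
  by_cases h : P r
  · rw [if_pos h, if_pos h]
  · rw [if_neg h, if_neg h]

theorem prob_congr {n : ℕ} {P R : List Bool → Prop} (h : ∀ r, r.length = n → (P r ↔ R r)) :
    prob n P = prob n R :=
  le_antisymm (prob_mono fun r hr => (h r hr).1) (prob_mono fun r hr => (h r hr).2)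

/-! ### The predictor -/

/-- the test accepts the vector `v` for the instances given by `rr` -/
def acc (V : List Bool → List Bool) (x : List Bool) (rows rr : List (List Bool))
    (v coins : List Bool) : Bool :=
  decide (V (pairBits (bits (rr.map fun a => instS x rows a true, v)) coins) = [true])

/-- the prediction -/
def B1aux (V : List Bool → List Bool) (x : List Bool) (rows : List (List Bool)) (u : List Bool)
    (rr : List (List Bool)) (cv v e coins : List Bool) : Bool :=
  bif cv.any id && acc V x rows (emb cv rr (xv (comb u.length cv rr) u)) v coins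
    then ip cv v else e.headI

/-- the prediction, from the coins `d` -/
noncomputable def B1s (ρ : Polynomial ℕ) (V : List Bool → List Bool) (x : List Bool)
    (rows : List (List Bool)) (u : List Bool) (n k : ℕ) (d : List Bool) : Bool :=
  B1aux V x rows u (rowsL u.length k d) ((d.drop (k * u.length)).take k)
    (((d.drop (k * u.length)).drop k).take k)
    ((((d.drop (k * u.length)).drop k).drop k).take 1)
    (((((d.drop (k * u.length)).drop k).drop k).drop 1).take (ρ.eval n))

/-- the predictor -/
noncomputable def B1 (c : ℕ) (ρ : Polynomial ℕ) (V : List Bool → List Bool) : Pred := fun q =>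
  B1s ρ V q.1 q.2.1 q.2.2.2.1 (instS q.1 q.2.1 q.2.2.2.1 true).length
    (c * (instS q.1 q.2.1 q.2.2.2.1 true).length.size) q.2.2.2.2

theorem acc_poly {α : Type} [TEnc α] {V : List Bool → List Bool} (hV : Poly V)
    {x v coins : α → List Bool} {rows rr : α → List (List Bool)} (hx : Poly x) (hrows : Poly rows)
    (hrr : Poly rr) (hv : Poly v) (hc : Poly coins) :
    Poly (fun a => acc V (x a) (rows a) (rr a) (v a) (coins a)) := by
  unfold acc
  refine NPC.Poly.decide_eq (hV.comp (poly_pairBits (bits_poly.comp (NPC.Poly.pair ?_ hv)) hc))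
    (NPC.Poly.const [true])
  refine NPC.Poly.map (F := fun a (u : List Bool) => instS (x a) (rows a) u true) hrr ?_
  have e1 : Poly (fun q : α × List Bool => q.1) := NPC.Poly.fst NPC.Poly.id
  exact instS_poly (hx.comp e1) (hrows.comp e1) (NPC.Poly.snd NPC.Poly.id) (NPC.Poly.const true)

theorem B1_poly {c : ℕ} {ρ : Polynomial ℕ} {V : List Bool → List Bool} (hV : Poly V) :
    Poly (B1 c ρ V) := by
  have e0 : Poly (fun q : List Bool × List (List Bool) × List Bool × List Bool × List Bool => q) :=
    NPC.Poly.id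
  have ex := NPC.Poly.fst e0
  have e1 := NPC.Poly.snd e0
  have erows := NPC.Poly.fst e1
  have e2 := NPC.Poly.snd (NPC.Poly.snd e1)
  have eu := NPC.Poly.fst e2
  have ed := NPC.Poly.snd e2
  have um := UPoly.length eu
  have un := UPoly.length (instS_poly ex erows eu (NPC.Poly.const true))
  have uk := (UPoly.const c).mul (size_upoly un)
  have err := rowsL_poly um.toPoly uk ed
  have ed1 := drop_poly' ed (uk.mul um).toPoly
  have ecv := take_poly' ed1 uk.toPoly
  have ed2 := drop_poly' ed1 uk.toPoly
  have ev := take_poly' ed2 uk.toPoly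
  have ed3 := drop_poly' ed2 uk.toPoly
  have ee := take_poly' ed3 (UPoly.const 1).toPoly
  have ed4 := drop_poly' ed3 (UPoly.const 1).toPoly
  have ec := take_poly' ed4 (un.eval ρ).toPoly
  unfold B1 B1s B1aux
  refine NPC.Poly.cond (NPC.Poly.and ?_ (acc_poly hV ex erows (emb_poly ecv err
    (xv_poly (comb_poly um ecv err) eu)) ev ec)) (ip_poly ecv ev) (headI_poly ee)
  exact NPC.Poly.any (p := fun _ (b : Bool) => b) ecv (NPC.Poly.snd NPC.Poly.id)

/-! ### Analysis -/

/-- the probability that the test accepts -/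
noncomputable def accP (V : List Bool → List Bool) (x : List Bool) (rows : List (List Bool))
    (R : ℕ) (rr : List (List Bool)) (v : List Bool) : ℝ :=
  𝔼 coins ∈ BL R, (if acc V x rows rr v coins = true then (1 : ℝ) else 0)

theorem expect_B1s {ρ : Polynomial ℕ} {V : List Bool → List Bool} {x : List Bool}
    {rows : List (List Bool)} {u w : List Bool} {n k m a s : ℕ} (hu : u.length = m)
    (ha : a = k * m + (k + (k + (1 + (ρ.eval n + s))))) :
    𝔼 d ∈ BL a, sg (B1s ρ V x rows u n k d ^^ ip u w) =
      𝔼 rr ∈ BLL m k, 𝔼 cv ∈ BL k, 𝔼 v ∈ BL k, 𝔼 e ∈ BL 1, 𝔼 coins ∈ BL (ρ.eval n),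
        sg (B1aux V x rows u rr cv v e coins ^^ ip u w) := by
  rw [ha]
  unfold B1s
  rw [hu]
  refine (expect_rows m k _ (fun rr d1 => sg (B1aux V x rows u rr (d1.take k)
    ((d1.drop k).take k) (((d1.drop k).drop k).take 1)
    ((((d1.drop k).drop k).drop 1).take (ρ.eval n)) ^^ ip u w))).trans ?_
  refine expect_congr rfl fun rr _ => ?_
  refine (expect_BL_split k _ (fun cv d2 => sg (B1aux V x rows u rr cv
    (d2.take k) ((d2.drop k).take 1) (((d2.drop k).drop 1).take (ρ.eval n)) ^^ ip u w))).trans ?_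
  refine expect_congr rfl fun cv _ => ?_
  refine (expect_BL_split k _ (fun v d3 => sg (B1aux V x rows u rr cv
    v (d3.take 1) ((d3.drop 1).take (ρ.eval n)) ^^ ip u w))).trans ?_
  refine expect_congr rfl fun v _ => ?_
  refine (expect_BL_split 1 _ (fun e d4 => sg (B1aux V x rows u rr cv
    v e (d4.take (ρ.eval n)) ^^ ip u w))).trans ?_
  refine expect_congr rfl fun e _ => ?_
  exact expect_BL_take _ s (fun coins => sg (B1aux V x rows u rr cv v e coins ^^ ip u w))

theorem expect_B1aux {V : List Bool → List Bool} {x : List Bool}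
    {rows : List (List Bool)} {w : List Bool} {k m R : ℕ} :
    𝔼 u ∈ BL m, 𝔼 rr ∈ BLL m k, 𝔼 cv ∈ BL k, 𝔼 v ∈ BL k, 𝔼 e ∈ BL 1, 𝔼 coins ∈ BL R,
        sg (B1aux V x rows u rr cv v e coins ^^ ip u w) =
      ((𝔼 rr ∈ BLL m k, accP V x rows R rr (rr.map fun r => ip r w)) / 2 ^ k -
        (𝔼 rr ∈ BLL m k, 𝔼 v ∈ BL k, accP V x rows R rr v) / 2 ^ k) := by
  -- the random bit `e` contributes nothing
  have h1 : ∀ u ∈ BL m, 𝔼 rr ∈ BLL m k, 𝔼 cv ∈ BL k, 𝔼 v ∈ BL k, 𝔼 e ∈ BL 1, 𝔼 coins ∈ BL R,
        sg (B1aux V x rows u rr cv v e coins ^^ ip u w) =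
      𝔼 rr ∈ BLL m k, 𝔼 cv ∈ BL k, 𝔼 v ∈ BL k, 𝔼 coins ∈ BL R,
        (if cv.any id = true then (1 : ℝ) else 0) *
        ((if acc V x rows (emb cv rr (xv (comb m cv rr) u)) v coins = true
          then (1 : ℝ) else 0) * (sg (ip cv v) * sg (ip u w))) := by
    intro u hu
    refine expect_congr rfl fun rr _ => expect_congr rfl fun cv _ => expect_congr rfl fun v _ => ?_
    rw [expect_comm]
    refine expect_congr rfl fun coins _ => ?_
    rw [expect_BL_one]
    unfold B1aux
    rw [mem_BL.1 hu]
    simp only [sg_xor]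
    cases cv.any id
    · cases ip u w <;> simp [sg]
    · cases acc V x rows (emb cv rr (xv (comb m cv rr) u)) v coins
      · cases ip u w <;> simp [sg]
      · simp
  rw [expect_congr rfl h1]
  -- exchange the averages
  have h2 : 𝔼 u ∈ BL m, 𝔼 rr ∈ BLL m k, 𝔼 cv ∈ BL k, 𝔼 v ∈ BL k, 𝔼 coins ∈ BL R,
        (if cv.any id = true then (1 : ℝ) else 0) *
        ((if acc V x rows (emb cv rr (xv (comb m cv rr) u)) v coins = true
          then (1 : ℝ) else 0) * (sg (ip cv v) * sg (ip u w))) =
      𝔼 cv ∈ BL k, 𝔼 v ∈ BL k, 𝔼 coins ∈ BL R, 𝔼 u ∈ BL m, 𝔼 rr ∈ BLL m k,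
        (if cv.any id = true then (1 : ℝ) else 0) *
        ((if acc V x rows (emb cv rr (xv (comb m cv rr) u)) v coins = true
          then (1 : ℝ) else 0) * (sg (ip cv v) * sg (ip u w))) := by
    have g1 : ∀ u ∈ BL m, 𝔼 rr ∈ BLL m k, 𝔼 cv ∈ BL k, 𝔼 v ∈ BL k, 𝔼 coins ∈ BL R,
        (if cv.any id = true then (1 : ℝ) else 0) *
        ((if acc V x rows (emb cv rr (xv (comb m cv rr) u)) v coins = true
          then (1 : ℝ) else 0) * (sg (ip cv v) * sg (ip u w))) =
        𝔼 cv ∈ BL k, 𝔼 v ∈ BL k, 𝔼 coins ∈ BL R, 𝔼 rr ∈ BLL m k,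
        (if cv.any id = true then (1 : ℝ) else 0) *
        ((if acc V x rows (emb cv rr (xv (comb m cv rr) u)) v coins = true
          then (1 : ℝ) else 0) * (sg (ip cv v) * sg (ip u w))) := by
      intro u _
      rw [expect_comm]
      refine expect_congr rfl fun cv _ => ?_
      rw [expect_comm]
      refine expect_congr rfl fun v _ => ?_
      rw [expect_comm]
    rw [expect_congr rfl g1, expect_comm]
    refine expect_congr rfl fun cv _ => ?_
    rw [expect_comm]
    refine expect_congr rfl fun v _ => ?_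
    rw [expect_comm]
  rw [h2]
  -- embed
  have h3 : ∀ cv ∈ BL k, 𝔼 v ∈ BL k, 𝔼 coins ∈ BL R, 𝔼 u ∈ BL m, 𝔼 rr ∈ BLL m k,
        (if cv.any id = true then (1 : ℝ) else 0) *
        ((if acc V x rows (emb cv rr (xv (comb m cv rr) u)) v coins = true
          then (1 : ℝ) else 0) * (sg (ip cv v) * sg (ip u w))) =
      (if cv.any id = true then (1 : ℝ) else 0) * 𝔼 v ∈ BL k, 𝔼 rr ∈ BLL m k,
        accP V x rows R rr v * (sg (ip cv v) * sg (ip cv (rr.map fun r => ip r w))) := by
    intro cv hcv
    rw [mul_expect]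
    refine expect_congr rfl fun v _ => ?_
    by_cases hany : cv.any id = true
    · rw [if_pos hany, one_mul]
      have g2 : ∀ coins ∈ BL R, 𝔼 u ∈ BL m, 𝔼 rr ∈ BLL m k,
          (1 : ℝ) * ((if acc V x rows (emb cv rr (xv (comb m cv rr) u)) v coins = true
          then (1 : ℝ) else 0) * (sg (ip cv v) * sg (ip u w))) =
          𝔼 rr ∈ BLL m k, (if acc V x rows rr v coins = true
          then (1 : ℝ) else 0) * (sg (ip cv v) * sg (ip cv (rr.map fun r => ip r w))) := by
        intro coins _
        have g3 := expect_embed (m := m) (mem_BL.1 hcv) hany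
          (fun rr u => (if acc V x rows rr v coins = true
            then (1 : ℝ) else 0) * (sg (ip cv v) * sg (ip u w)))
        simp only [one_mul]
        rw [g3]
        refine expect_congr rfl fun rr hrr => ?_
        rw [ip_comb w (mem_BLL.1 hrr).2]
      rw [expect_congr rfl g2, expect_comm]
      refine expect_congr rfl fun rr _ => ?_
      rw [accP, expect_mul]
    · rw [if_neg hany, zero_mul]
      simp [expect_const (BL_nonempty m), expect_const (BL_nonempty R)]
  rw [expect_congr rfl h3]
  -- the zero combination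
  have h4 : ∀ cv ∈ BL k, (if cv.any id = true then (1 : ℝ) else 0) * 𝔼 v ∈ BL k,
        𝔼 rr ∈ BLL m k, accP V x rows R rr v * (sg (ip cv v) * sg (ip cv (rr.map fun r => ip r w))) =
      (𝔼 v ∈ BL k, 𝔼 rr ∈ BLL m k,
        accP V x rows R rr v * (sg (ip cv v) * sg (ip cv (rr.map fun r => ip r w)))) -
      (𝔼 v ∈ BL k, 𝔼 rr ∈ BLL m k,
        accP V x rows R rr v * (sg (ip cv v) * sg (ip cv (rr.map fun r => ip r w)))) *
        (if cv = List.replicate k false then (1 : ℝ) else 0) := by
    intro cv hcv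
    by_cases hany : cv.any id = true
    · rw [if_pos hany, if_neg ((any_iff (mem_BL.1 hcv)).1 hany)]; ring
    · rw [if_neg hany, if_pos (by
        by_contra hne
        exact hany ((any_iff (mem_BL.1 hcv)).2 hne))]
      ring
  rw [expect_congr rfl h4, expect_sub_distrib, expect_single (by simp)]
  congr 1
  · -- orthogonality of the characters
    rw [expect_comm]
    have h5 : ∀ v ∈ BL k, 𝔼 cv ∈ BL k, 𝔼 rr ∈ BLL m k, accP V x rows R rr v *
        (sg (ip cv v) * sg (ip cv (rr.map fun r => ip r w))) =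
        𝔼 rr ∈ BLL m k, accP V x rows R rr v *
          (if v = (rr.map fun r => ip r w) then (1 : ℝ) else 0) := by
      intro v hv
      rw [expect_comm]
      refine expect_congr rfl fun rr hrr => ?_
      rw [← mul_expect, expect_char (mem_BL.1 hv) (by rw [List.length_map, (mem_BLL.1 hrr).1])]
    rw [expect_congr rfl h5, expect_comm, expect_div]
    refine expect_congr rfl fun rr hrr => ?_
    exact expect_single (by rw [List.length_map, (mem_BLL.1 hrr).1])
      (fun v => accP V x rows R rr v)
  · congr 1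
    rw [expect_comm]
    refine expect_congr rfl fun rr _ => expect_congr rfl fun v _ => ?_
    rw [ip_replicate, ip_replicate]
    simp [sg]

end Pool.Agent.Helper6K1.BN
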