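import Pool.Agent.Helper6K1.BN.T2a

/-!
# From a randomised truth-table reduction to a sparse set to a predictor
-/

set_option autoImplicit false

namespace Pool.Agent.Helper6K1.BN

open Finset BigOperators Pool.Agent.NPC
open Pool.Agent.H579R2.Spt (BL mem_BL ip rowsL rowsL_succ cd ip_poly rowsL_poly take_poly'
  drop_poly' two_pow_size_poly bits_poly ver ver_poly ver_iff ip_cons)

/-- the queries and the accepting vectors for the instance given by `u` and `b` -/
def red (f : List Bool → List (List Bool) × List (List Bool)) (x : List Bool)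
    (rows : List (List Bool)) (u : List Bool) (b : Bool) (cs : List Bool) :
    List (List Bool) × List (List Bool) :=
  f (pairBits (instS x rows u b) cs)

/-- the prediction -/
def B2aux (f : List Bool → List (List Bool) × List (List Bool)) (x : List Bool)
    (rows : List (List Bool)) (T : List Bool) (z0 : List (List Bool)) (u P : List Bool)
    (b e : Bool) (cs : List Bool) : Bool :=
  bif (decide (P ∈ (red f x rows u b cs).2) && leB P T) &&
      decide (mask T (red f x rows u b cs).1 = z0)
    then b ^^ ip T (P.map not) else e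

/-- the prediction, from the hint and the coins -/
def B2s (f : List Bool → List (List Bool) × List (List Bool)) (x : List Bool)
    (rows : List (List Bool)) (h u d : List Bool) (k R : ℕ) : Bool :=
  B2aux f x rows (h.take k) (mask (h.take k) (red f x rows
      ((((h.drop k).drop 1).take u.length)) ((h.drop k).take 1).headI
      ((((h.drop k).drop 1).drop u.length).take R)).1) u (d.take k) ((d.drop k).take 1).headI
    (((d.drop k).drop 1).take 1).headI ((((d.drop k).drop 1).drop 1).take R)

/-- the predictor -/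
noncomputable def B2 (f : List Bool → List (List Bool) × List (List Bool)) (k : ℕ)
    (ρ : Polynomial ℕ) : Pred := fun q =>
  B2s f q.1 q.2.1 q.2.2.1 q.2.2.2.1 q.2.2.2.2 k
    (ρ.eval (instS q.1 q.2.1 q.2.2.2.1 true).length)

theorem red_poly {α : Type} [TEnc α] {f : List Bool → List (List Bool) × List (List Bool)}
    (hf : Poly f) {x u cs : α → List Bool} {rows : α → List (List Bool)} {b : α → Bool}
    (hx : Poly x) (hrows : Poly rows) (hu : Poly u) (hb : Poly b) (hc : Poly cs) :
    Poly (fun a => red f (x a) (rows a) (u a) (b a) (cs a)) :=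
  hf.comp (poly_pairBits (instS_poly hx hrows hu hb) hc)

theorem B2_poly {f : List Bool → List (List Bool) × List (List Bool)} (hf : Poly f) {k : ℕ}
    {ρ : Polynomial ℕ} : Poly (B2 f k ρ) := by
  have e0 : Poly (fun q : List Bool × List (List Bool) × List Bool × List Bool × List Bool => q) :=
    NPC.Poly.id
  have ex := NPC.Poly.fst e0
  have e1 := NPC.Poly.snd e0
  have erows := NPC.Poly.fst e1
  have e2 := NPC.Poly.snd e1
  have eh := NPC.Poly.fst e2
  have e3 := NPC.Poly.snd e2
  have eu := NPC.Poly.fst e3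
  have ed := NPC.Poly.snd e3
  have um := UPoly.length eu
  have un := UPoly.length (instS_poly ex erows eu (NPC.Poly.const true))
  have uk : UPoly (fun _ : List Bool × List (List Bool) × List Bool × List Bool × List Bool => k) :=
    UPoly.const k
  have u1 : UPoly (fun _ : List Bool × List (List Bool) × List Bool × List Bool × List Bool => 1) :=
    UPoly.const 1
  have uR := un.eval ρ
  have eT := take_poly' eh uk.toPoly
  have eh1 := drop_poly' eh uk.toPoly
  have eb0 := headI_poly (take_poly' eh1 u1.toPoly)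
  have eh2 := drop_poly' eh1 u1.toPoly
  have eu0 := take_poly' eh2 um.toPoly
  have ec0 := take_poly' (drop_poly' eh2 um.toPoly) uR.toPoly
  have eP := take_poly' ed uk.toPoly
  have ed1 := drop_poly' ed uk.toPoly
  have eb := headI_poly (take_poly' ed1 u1.toPoly)
  have ed2 := drop_poly' ed1 u1.toPoly
  have ee := headI_poly (take_poly' ed2 u1.toPoly)
  have ec := take_poly' (drop_poly' ed2 u1.toPoly) uR.toPoly
  have er := red_poly hf ex erows eu eb ec
  have er0 := red_poly hf ex erows eu0 eb0 ec0
  have em := mask_poly eT (NPC.Poly.fst er)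
  have em0 := mask_poly eT (NPC.Poly.fst er0)
  have en : Poly (fun q : List Bool × List (List Bool) × List Bool × List Bool × List Bool =>
      (q.2.2.2.2.take k).map not) :=
    NPC.Poly.map (F := fun _ (b : Bool) => !b) eP (NPC.Poly.not (NPC.Poly.snd NPC.Poly.id))
  unfold B2 B2s B2aux
  exact NPC.Poly.cond (NPC.Poly.and (NPC.Poly.and
    ((NPC.Poly.decide_mem eP (NPC.Poly.snd er)).congr fun _ => by congr)
    (leB_poly eP eT)) (NPC.Poly.decide_eq em em0)) (NPC.Poly.xor eb (ip_poly eT en)) ee

/-! ### Analysis -/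

section

variable (f : List Bool → List (List Bool) × List (List Bool)) (x : List Bool)
  (rows : List (List Bool)) (w : List Bool) (k m R : ℕ)

/-- the advantage of the prediction for a given monomial and given values of its queries -/
noncomputable def Adv (T : List Bool) (z0 : List (List Bool)) : ℝ :=
  𝔼 u ∈ BL m, 𝔼 b ∈ BL 1, 𝔼 cs ∈ BL R,
    (𝔼 P ∈ BL k, (if P ∈ (red f x rows u b.headI cs).2 then (1 : ℝ) else 0) * mob P T) *
      (if mask T (red f x rows u b.headI cs).1 = z0 then (1 : ℝ) else 0) *
      sg (b.headI ^^ ip u w)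

/-- the probability of given values of the queries -/
noncomputable def Hit (T : List Bool) (z0 : List (List Bool)) : ℝ :=
  𝔼 u ∈ BL m, 𝔼 b ∈ BL 1, 𝔼 cs ∈ BL R,
    (if mask T (red f x rows u b.headI cs).1 = z0 then (1 : ℝ) else 0)

variable {f x rows w k m R}

theorem expect_B2aux (T : List Bool) (z0 : List (List Bool)) (u : List Bool) {a s : ℕ}
    (ha : a = k + (1 + (1 + (R + s)))) :
    𝔼 d ∈ BL a, sg (B2aux f x rows T z0 u (d.take k) ((d.drop k).take 1).headI
        (((d.drop k).drop 1).take 1).headI ((((d.drop k).drop 1).drop 1).take R) ^^ ip u w) =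
      𝔼 b ∈ BL 1, 𝔼 cs ∈ BL R,
    (𝔼 P ∈ BL k, (if P ∈ (red f x rows u b.headI cs).2 then (1 : ℝ) else 0) * mob P T) *
      (if mask T (red f x rows u b.headI cs).1 = z0 then (1 : ℝ) else 0) *
      sg (b.headI ^^ ip u w) := by
  rw [ha]
  refine (expect_BL_split k _ (fun P d1 => sg (B2aux f x rows T z0 u P (d1.take 1).headI
    ((d1.drop 1).take 1).headI (((d1.drop 1).drop 1).take R) ^^ ip u w))).trans ?_
  have h1 : ∀ P ∈ BL k, 𝔼 d1 ∈ BL (1 + (1 + (R + s))), sg (B2aux f x rows T z0 u P
      (d1.take 1).headI ((d1.drop 1).take 1).headI (((d1.drop 1).drop 1).take R) ^^ ip u w) =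
      𝔼 b ∈ BL 1, 𝔼 cs ∈ BL R,
        ((if P ∈ (red f x rows u b.headI cs).2 then (1 : ℝ) else 0) * mob P T) *
      (if mask T (red f x rows u b.headI cs).1 = z0 then (1 : ℝ) else 0) *
      sg (b.headI ^^ ip u w) := by
    intro P _
    refine (expect_BL_split 1 _ (fun b d2 => sg (B2aux f x rows T z0 u P b.headI
      (d2.take 1).headI ((d2.drop 1).take R) ^^ ip u w))).trans ?_
    refine expect_congr rfl fun b _ => ?_
    refine (expect_BL_split 1 _ (fun e d3 => sg (B2aux f x rows T z0 u P b.headI
      e.headI (d3.take R) ^^ ip u w))).trans ?_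
    have h2 : ∀ e ∈ BL 1, 𝔼 d3 ∈ BL (R + s), sg (B2aux f x rows T z0 u P b.headI
      e.headI (d3.take R) ^^ ip u w) = 𝔼 cs ∈ BL R, sg (B2aux f x rows T z0 u P b.headI
      e.headI cs ^^ ip u w) := fun e _ =>
      expect_BL_take R s (fun cs => sg (B2aux f x rows T z0 u P b.headI e.headI cs ^^ ip u w))
    rw [expect_congr rfl h2, expect_comm]
    refine expect_congr rfl fun cs _ => ?_
    rw [expect_BL_one]
    unfold B2aux mob
    simp only [sg_xor, List.headI_cons]
    by_cases h3 : P ∈ (red f x rows u b.headI cs).2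
    · by_cases h4 : leB P T = true
      · by_cases h5 : mask T (red f x rows u b.headI cs).1 = z0
        · simp only [h3, h4, h5, decide_true, Bool.and_self, cond_true, if_true, sg_xor]
          ring
        · simp only [h3, h4, h5, decide_true, decide_false, Bool.and_false, cond_false, if_false,
            sg_true, sg_false]
          ring
      · have h4' : leB P T = false := by simpa using h4
        simp only [h4', Bool.and_false, Bool.false_and, cond_false, sg_true, sg_false]
        simp
    · simp only [h3, decide_false, Bool.false_and, cond_false, sg_true, sg_false, if_false]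
      simp
  rw [expect_congr rfl h1, expect_comm]
  refine expect_congr rfl fun b _ => ?_
  rw [expect_comm]
  refine expect_congr rfl fun cs _ => ?_
  rw [expect_mul, expect_mul]

theorem Adv_le_Hit (T : List Bool) (z0 : List (List Bool)) :
    Adv f x rows w k m R T z0 ≤ Hit f x rows m R T z0 := by
  unfold Adv Hit
  refine expect_le_expect fun u _ => expect_le_expect fun b _ => expect_le_expect fun cs _ => ?_
  have h1 : |𝔼 P ∈ BL k, (if P ∈ (red f x rows u b.headI cs).2 then (1 : ℝ) else 0) *
      mob P T| ≤ 1 := by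
    refine (abs_expect_le _ _).trans ?_
    refine expect_le (BL_nonempty k) fun P _ => ?_
    rw [abs_mul]
    have := abs_mob_le P T
    split_ifs
    · simpa using this
    · simp
  rw [mul_right_comm]
  split_ifs with h2
  · rw [mul_one]
    refine (le_abs_self _).trans ?_
    rw [abs_mul, abs_sg, mul_one]
    exact h1
  · rw [mul_zero]

/-- The sum of the advantages. -/
theorem sum_Adv {S : Set (List Bool)} {W : Finset (List Bool)} (h0 : [] ∈ W)
    (hk : ∀ y, (f y).1.length = k)
    (hW : ∀ u ∈ BL m, ∀ b : Bool, ∀ cs ∈ BL R, ∀ q ∈ (red f x rows u b cs).1, q ∈ S → q ∈ W) :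
    𝔼 T ∈ BL k, ∑ σ ∈ LL W k, allq S T σ * Adv f x rows w k m R T σ =
      (𝔼 u ∈ BL m, 𝔼 b ∈ BL 1, 𝔼 cs ∈ BL R,
        (if answers S (red f x rows u b.headI cs).1 ∈ (red f x rows u b.headI cs).2
          then (1 : ℝ) else 0) * sg (b.headI ^^ ip u w)) / 2 ^ k / 2 ^ k := by
  have h1 : ∀ T ∈ BL k, ∑ σ ∈ LL W k, allq S T σ * Adv f x rows w k m R T σ =
      𝔼 u ∈ BL m, 𝔼 b ∈ BL 1, 𝔼 cs ∈ BL R,
        (allq S T (red f x rows u b.headI cs).1 *
          𝔼 P ∈ BL k, (if P ∈ (red f x rows u b.headI cs).2 then (1 : ℝ) else 0) * mob P T) *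
        sg (b.headI ^^ ip u w) := by
    intro T hT
    have h2 : ∑ σ ∈ LL W k, allq S T σ * Adv f x rows w k m R T σ =
        𝔼 u ∈ BL m, 𝔼 b ∈ BL 1, 𝔼 cs ∈ BL R, ∑ σ ∈ LL W k, allq S T σ *
        ((𝔼 P ∈ BL k, (if P ∈ (red f x rows u b.headI cs).2 then (1 : ℝ) else 0) * mob P T) *
      (if mask T (red f x rows u b.headI cs).1 = σ then (1 : ℝ) else 0) *
      sg (b.headI ^^ ip u w)) := by
      have h4 : ∀ σ ∈ LL W k, allq S T σ * Adv f x rows w k m R T σ =
          𝔼 u ∈ BL m, 𝔼 b ∈ BL 1, 𝔼 cs ∈ BL R, allq S T σ *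
          ((𝔼 P ∈ BL k, (if P ∈ (red f x rows u b.headI cs).2 then (1 : ℝ) else 0) * mob P T) *
          (if mask T (red f x rows u b.headI cs).1 = σ then (1 : ℝ) else 0) *
          sg (b.headI ^^ ip u w)) := by
        intro σ _
        unfold Adv
        rw [mul_expect]
        refine expect_congr rfl fun u _ => ?_
        rw [mul_expect]
        refine expect_congr rfl fun b _ => ?_
        rw [mul_expect]
      rw [sum_congr rfl h4, ← expect_sum_comm]
      refine expect_congr rfl fun u _ => ?_
      rw [← expect_sum_comm]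
      refine expect_congr rfl fun b _ => ?_
      rw [← expect_sum_comm]
    rw [h2]
    refine expect_congr rfl fun u hu => expect_congr rfl fun b hb => expect_congr rfl
      fun cs hcs => ?_
    have h3 := sum_mask (qs := (red f x rows u b.headI cs).1) h0 (mem_BL.1 hT) (hk _)
      (hW u hu b.headI cs hcs)
    rw [← h3, sum_mul, sum_mul]
    refine sum_congr rfl fun σ _ => ?_
    ring
  rw [expect_congr rfl h1, expect_comm, expect_div, expect_div]
  refine expect_congr rfl fun u _ => ?_
  rw [expect_comm, expect_div, expect_div]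
  refine expect_congr rfl fun b _ => ?_
  rw [expect_comm, expect_div, expect_div]
  refine expect_congr rfl fun cs _ => ?_
  rw [← expect_mul, expect_tt (qs := (red f x rows u b.headI cs).1) (hk _)]
  ring

theorem LL_card_pos {W : Finset (List Bool)} (h0 : [] ∈ W) (k : ℕ) : 0 < (LL W k).card := by
  refine Finset.card_pos.2 ⟨List.replicate k [], ?_⟩
  rw [mem_LL]
  refine ⟨by simp, fun u hu => ?_⟩
  rw [List.eq_of_mem_replicate hu]
  exact h0

/-- the probability that the reduction accepts the instance given by `u` and `b` -/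
noncomputable def accR (f : List Bool → List (List Bool) × List (List Bool)) (x : List Bool)
    (rows : List (List Bool)) (R : ℕ) (S : Set (List Bool)) (u : List Bool) (b : Bool) : ℝ :=
  𝔼 cs ∈ BL R, (if answers S (red f x rows u b cs).1 ∈ (red f x rows u b cs).2
    then (1 : ℝ) else 0)

/-- The gap of the reduction is the gain of the best monomial. -/
theorem exists_Adv {S : Set (List Bool)} {W : Finset (List Bool)} (h0 : [] ∈ W)
    (hk : ∀ y, (f y).1.length = k)
    (hW : ∀ u ∈ BL m, ∀ b : Bool, ∀ cs ∈ BL R, ∀ q ∈ (red f x rows u b cs).1, q ∈ S → q ∈ W)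
    {ε : ℝ} (hε : 0 < ε)
    (hgap : ∀ u ∈ BL m, accR f x rows R S u (!(ip u w)) + ε ≤ accR f x rows R S u (ip u w)) :
    ∃ T ∈ BL k, ∃ σ : List (List Bool), ε / 2 / 2 ^ k / 2 ^ k / (LL W k).card ≤
      Adv f x rows w k m R T σ := by
  have hN : (0 : ℝ) < (LL W k).card := by exact_mod_cast LL_card_pos h0 k
  have h1 : ε / 2 ≤ 𝔼 u ∈ BL m, 𝔼 b ∈ BL 1, 𝔼 cs ∈ BL R,
        (if answers S (red f x rows u b.headI cs).1 ∈ (red f x rows u b.headI cs).2
          then (1 : ℝ) else 0) * sg (b.headI ^^ ip u w) := by
    refine le_expect (BL_nonempty m) fun u hu => ?_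
    have h2 := hgap u hu
    have h3 : ∀ b ∈ BL 1, 𝔼 cs ∈ BL R,
        (if answers S (red f x rows u b.headI cs).1 ∈ (red f x rows u b.headI cs).2
          then (1 : ℝ) else 0) * sg (b.headI ^^ ip u w) =
        accR f x rows R S u b.headI * sg (b.headI ^^ ip u w) := fun b _ => by
      rw [accR, expect_mul]
    rw [expect_congr rfl h3, expect_BL_one]
    simp only [List.headI_cons]
    cases h3 : ip u w
    · rw [h3] at h2
      simp only [Bool.not_false] at h2
      simp only [Bool.true_xor, Bool.not_false, Bool.false_xor, sg_true, sg_false]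
      linarith
    · rw [h3] at h2
      simp only [Bool.not_true] at h2
      simp only [Bool.true_xor, Bool.not_true, Bool.false_xor, sg_true, sg_false]
      linarith
  have h2 := sum_Adv (f := f) (x := x) (rows := rows) (w := w) (m := m) (R := R) h0 hk hW
  have h3 : ε / 2 / 2 ^ k / 2 ^ k ≤
      𝔼 T ∈ BL k, ∑ σ ∈ LL W k, allq S T σ * Adv f x rows w k m R T σ := by
    rw [h2]
    have : (0 : ℝ) < 2 ^ k := by positivity
    exact div_le_div_of_nonneg_right (div_le_div_of_nonneg_right h1 this.le) this.le
  obtain ⟨T, hT, h4⟩ : ∃ T ∈ BL k, ε / 2 / 2 ^ k / 2 ^ k ≤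
      ∑ σ ∈ LL W k, allq S T σ * Adv f x rows w k m R T σ := by
    by_contra hcon
    push Not at hcon
    have h5 : ∑ T ∈ BL k, ∑ σ ∈ LL W k, allq S T σ * Adv f x rows w k m R T σ <
        ∑ T ∈ BL k, ε / 2 / 2 ^ k / 2 ^ k := Finset.sum_lt_sum_of_nonempty (BL_nonempty k) hcon
    rw [expect_eq_sum_div_card, le_div_iff₀ (by
      have := Finset.card_pos.2 (BL_nonempty k)
      exact_mod_cast this)] at h3
    rw [Finset.sum_const, nsmul_eq_mul] at h5
    linarith
  refine ⟨T, hT, ?_⟩
  by_contra hcon
  push Not at hcon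
  have h6 : ∀ σ ∈ LL W k, allq S T σ * Adv f x rows w k m R T σ <
      ε / 2 / 2 ^ k / 2 ^ k / (LL W k).card := by
    intro σ _
    rcases allq_zero_or_one S T σ with h7 | h7
    · rw [h7, zero_mul]; positivity
    · rw [h7, one_mul]; exact hcon σ
  have h8 := Finset.sum_lt_sum_of_nonempty (Finset.card_pos.1 (LL_card_pos h0 k)) h6
  rw [Finset.sum_const, nsmul_eq_mul, mul_div_cancel₀ _ hN.ne'] at h8
  linarith

/-- The hints that lead to given queries. -/
theorem expect_hint {T : List Bool} (hT : T ∈ BL k) {σ : List (List Bool)} {a s : ℕ}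
    (ha : a = k + (1 + (m + (R + s)))) :
    𝔼 h ∈ BL a, (if h.take k = T ∧ mask (h.take k) (red f x rows
        (((h.drop k).drop 1).take m) ((h.drop k).take 1).headI
        ((((h.drop k).drop 1).drop m).take R)).1 = σ then (1 : ℝ) else 0) =
      Hit f x rows m R T σ / 2 ^ k := by
  classical
  rw [ha]
  refine (expect_BL_split k _ (fun T' h1 => if T' = T ∧ mask T' (red f x rows
    ((h1.drop 1).take m) (h1.take 1).headI (((h1.drop 1).drop m).take R)).1 = σ
    then (1 : ℝ) else 0)).trans ?_
  have h1 : ∀ T' ∈ BL k, 𝔼 h1 ∈ BL (1 + (m + (R + s))), (if T' = T ∧ mask T' (red f x rows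
      ((h1.drop 1).take m) (h1.take 1).headI (((h1.drop 1).drop m).take R)).1 = σ
      then (1 : ℝ) else 0) = Hit f x rows m R T' σ * (if T' = T then (1 : ℝ) else 0) := by
    intro T' _
    by_cases hTT : T' = T
    · rw [if_pos hTT, mul_one]
      refine (expect_BL_split 1 _ (fun b h2 => if T' = T ∧ mask T' (red f x rows
        (h2.take m) b.headI ((h2.drop m).take R)).1 = σ then (1 : ℝ) else 0)).trans ?_
      unfold Hit
      conv_rhs => rw [expect_comm]
      refine expect_congr rfl fun b _ => ?_
      refine (expect_BL_split m _ (fun u h3 => if T' = T ∧ mask T' (red f x rows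
        u b.headI (h3.take R)).1 = σ then (1 : ℝ) else 0)).trans ?_
      refine expect_congr rfl fun u _ => ?_
      refine (expect_BL_take R s (fun cs => if T' = T ∧ mask T' (red f x rows
        u b.headI cs).1 = σ then (1 : ℝ) else 0)).trans ?_
      refine expect_congr rfl fun cs _ => ?_
      by_cases h4 : mask T' (red f x rows u b.headI cs).1 = σ
      · rw [if_pos h4, if_pos ⟨hTT, h4⟩]
      · rw [if_neg h4, if_neg fun h => h4 h.2]
    · rw [if_neg hTT, mul_zero]
      rw [← expect_const (BL_nonempty (1 + (m + (R + s)))) (0 : ℝ)]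
      refine expect_congr rfl fun h1 _ => ?_
      rw [if_neg fun h => hTT h.1, expect_const (BL_nonempty _)]
  rw [expect_congr rfl h1, expect_single (mem_BL.1 hT)]

end

end Pool.Agent.Helper6K1.BN
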