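import Pool.Agent.Helper6K1.BN.T1b

/-!
# Distinguishing the true answers from random bits
-/

set_option autoImplicit false

namespace Pool.Agent.Helper6K1.BN

open Finset BigOperators Pool.Agent.NPC
open Pool.Agent.H579R2.Spt (BL mem_BL ip rowsL rowsL_succ cd ip_poly rowsL_poly take_poly'
  drop_poly' two_pow_size_poly bits_poly ver ver_poly ver_iff ip_cons)

/-- the number of coins of the predictor -/
noncomputable def A1 (c : ℕ) (ρ p : Polynomial ℕ) : Polynomial ℕ :=
  Polynomial.C c * NP1 p * (p + 1) + (Polynomial.C c * NP1 p + (Polynomial.C c * NP1 p +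
    (1 + ρ.comp (NP1 p))))

/-- the inverse of the advantage of the predictor -/
noncomputable def Q1 (c : ℕ) (q p : Polynomial ℕ) : Polynomial ℕ :=
  (2 * NP1 p + 1) ^ c * (q.comp (NP1 p) + 1)

theorem dist_gap {L : Set (List Bool)} {c : ℕ} {V : List Bool → List Bool} {ρ q : Polynomial ℕ}
    (h : ∀ n : ℕ, 1 ≤ n → ∀ xs : List (List Bool), xs.length = c * n.size →
      (∀ x ∈ xs, x.length = n) →
      prob (xs.length + ρ.eval n) (fun z =>
          V (pairBits (bits (xs, z.take xs.length)) (z.drop xs.length)) = [true]) +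
        1 / (((q.eval n : ℕ) : ℝ) + 1) ≤
      prob (ρ.eval n) (fun r => V (pairBits (bits (xs, answers L xs)) r) = [true]))
    {n : ℕ} (hn : 1 ≤ n) {xs : List (List Bool)} (h1 : xs.length = c * n.size)
    (h2 : ∀ x ∈ xs, x.length = n) :
    (𝔼 v ∈ BL (c * n.size), 𝔼 r ∈ BL (ρ.eval n),
      (if V (pairBits (bits (xs, v)) r) = [true] then (1 : ℝ) else 0)) +
        1 / (((q.eval n : ℕ) : ℝ) + 1) ≤
      𝔼 r ∈ BL (ρ.eval n),
        (if V (pairBits (bits (xs, answers L xs)) r) = [true] then (1 : ℝ) else 0) := by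
  have h3 := h n hn xs h1 h2
  rw [prob_eq', prob_eq', h1] at h3
  rw [← expect_BL_split (c * n.size) (ρ.eval n) fun v r =>
    (if V (pairBits (bits (xs, v)) r) = [true] then (1 : ℝ) else 0)]
  exact h3

theorem dist_good {V0 : List Bool → List Bool} {p : Polynomial ℕ}
    {c : ℕ} {V : List Bool → List Bool} {ρ q : Polynomial ℕ}
    (h : ∀ n : ℕ, 1 ≤ n → ∀ xs : List (List Bool), xs.length = c * n.size →
      (∀ x ∈ xs, x.length = n) →
      prob (xs.length + ρ.eval n) (fun z =>
          V (pairBits (bits (xs, z.take xs.length)) (z.drop xs.length)) = [true]) +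
        1 / (((q.eval n : ℕ) : ℝ) + 1) ≤
      prob (ρ.eval n) (fun r => V (pairBits (bits (xs, answers (lang (Ax V0 p)) xs)) r) =
        [true])) :
    Good V0 p (B1 c ρ V) (A1 c ρ p) (Q1 c q p) := by
  intro x rows w h1 h2 h3
  set m := mm p x with hm
  set n := nI x rows m with hn
  set k := c * n.size with hk
  have hnle : n ≤ (NP1 p).eval x.length := nI_le h1 h2
  have hnpos : 1 ≤ n := nI_pos x rows m
  have hsz : n.size ≤ n := Nat.size_le.2 Nat.lt_two_pow_self
  have hkle : k ≤ c * (NP1 p).eval x.length := Nat.mul_le_mul_left c (hsz.trans hnle)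
  have h2k : 2 ^ k ≤ (2 * (NP1 p).eval x.length + 1) ^ c := by
    rw [hk, mul_comm, pow_mul]
    exact Nat.pow_le_pow_left ((two_pow_size_le n).trans (by omega)) c
  have hqle : q.eval n + 1 ≤ q.eval ((NP1 p).eval x.length) + 1 := by
    have := eval_mono q hnle
    omega
  have hρle : ρ.eval n ≤ ρ.eval ((NP1 p).eval x.length) := eval_mono ρ hnle
  have hAe : (A1 c ρ p).eval x.length = c * (NP1 p).eval x.length * m +
      (c * (NP1 p).eval x.length + (c * (NP1 p).eval x.length +
        (1 + ρ.eval ((NP1 p).eval x.length)))) := by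
    simp [A1, hm, mm]
  have hQe : (Q1 c q p).eval x.length =
      (2 * (NP1 p).eval x.length + 1) ^ c * (q.eval ((NP1 p).eval x.length) + 1) := by
    simp [Q1]
  have hkm : k * m ≤ c * (NP1 p).eval x.length * m := Nat.mul_le_mul_right m hkle
  obtain ⟨s, hs⟩ : ∃ s, (A1 c ρ p).eval x.length =
      k * m + (k + (k + (1 + (ρ.eval n + s)))) :=
    ⟨(A1 c ρ p).eval x.length - (k * m + (k + (k + (1 + ρ.eval n)))), by
      rw [hAe]; omega⟩
  -- the advantage
  have key : 1 / (((Q1 c q p).eval x.length : ℕ) : ℝ) ≤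
      (𝔼 rr ∈ BLL m k, accP V x rows (ρ.eval n) rr (rr.map fun r => ip r (cd w))) / 2 ^ k -
        (𝔼 rr ∈ BLL m k, 𝔼 v ∈ BL k, accP V x rows (ρ.eval n) rr v) / 2 ^ k := by
    have g1 : (𝔼 rr ∈ BLL m k, 𝔼 v ∈ BL k, accP V x rows (ρ.eval n) rr v) +
        1 / (((q.eval n : ℕ) : ℝ) + 1) ≤
        𝔼 rr ∈ BLL m k, accP V x rows (ρ.eval n) rr (rr.map fun r => ip r (cd w)) := by
      rw [← expect_const (BLL_nonempty m k) (1 / (((q.eval n : ℕ) : ℝ) + 1)),
        ← expect_add_distrib]
      refine expect_le_expect fun rr hrr => ?_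
      have hrr' := mem_BLL.1 hrr
      have g2 : ∀ y ∈ rr.map (fun a => instS x rows a true), y.length = n := by
        intro y hy
        obtain ⟨a, ha, rfl⟩ := List.mem_map.1 hy
        exact instS_length (hrr'.2 a ha)
      have g3 := dist_gap h hnpos (xs := rr.map (fun a => instS x rows a true))
        (by rw [List.length_map, hrr'.1]) g2
      have g4 : answers (lang (Ax V0 p)) (rr.map (fun a => instS x rows a true)) =
          rr.map fun r => ip r (cd w) := by
        rw [answers, List.map_map]
        refine List.map_congr_left fun r _ => ?_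
        simp only [Function.comp]
        have g5 := instS_mem h3 r true
        cases hr : ip r (cd w)
        · rw [hr] at g5
          simpa using g5
        · rw [hr] at g5
          simpa using g5
      rw [g4] at g3
      unfold accP acc
      simpa using g3
    have g6 : (0 : ℝ) < 2 ^ k := by positivity
    have g7 : 1 / (((Q1 c q p).eval x.length : ℕ) : ℝ) ≤
        1 / (((q.eval n : ℕ) : ℝ) + 1) / 2 ^ k := by
      rw [div_div]
      refine one_div_le_one_div_of_le (by positivity) ?_
      rw [hQe]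
      have g8 : (q.eval n + 1) * 2 ^ k ≤
          (2 * (NP1 p).eval x.length + 1) ^ c * (q.eval ((NP1 p).eval x.length) + 1) := by
        rw [mul_comm]
        exact Nat.mul_le_mul h2k hqle
      exact_mod_cast g8
    refine g7.trans ?_
    rw [← sub_div]
    exact div_le_div_of_nonneg_right (by linarith) g6.le
  have hin : ∀ hh : List Bool, 1 / (((Q1 c q p).eval x.length : ℕ) : ℝ) ≤
      𝔼 u ∈ BL m, 𝔼 d ∈ BL ((A1 c ρ p).eval x.length),
        sg (B1 c ρ V (x, rows, hh, u, d) ^^ ip u (cd w)) := by
    intro hh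
    have g9 : ∀ u ∈ BL m, 𝔼 d ∈ BL ((A1 c ρ p).eval x.length),
        sg (B1 c ρ V (x, rows, hh, u, d) ^^ ip u (cd w)) =
        𝔼 rr ∈ BLL m k, 𝔼 cv ∈ BL k, 𝔼 v ∈ BL k, 𝔼 e ∈ BL 1, 𝔼 coins ∈ BL (ρ.eval n),
          sg (B1aux V x rows u rr cv v e coins ^^ ip u (cd w)) := by
      intro u hu
      have hu' := mem_BL.1 hu
      unfold B1
      simp only [instS_length hu', ← hn, ← hk]
      exact expect_B1s hu' hs
    rw [expect_congr rfl g9, expect_B1aux]
    exact key
  have hQ1 : (1 : ℝ) ≤ (((Q1 c q p).eval x.length : ℕ) : ℝ) := by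
    rw [hQe]
    have : 1 ≤ (2 * (NP1 p).eval x.length + 1) ^ c * (q.eval ((NP1 p).eval x.length) + 1) :=
      Nat.one_le_iff_ne_zero.2 (by positivity)
    exact_mod_cast this
  refine le_trans (b := 1) ?_ ?_
  · rw [div_le_one (by linarith)]; exact hQ1
  · refine le_expect (BL_nonempty _) fun hh _ => ?_
    rw [if_pos (hin hh)]

theorem Q1_pos (c : ℕ) (q p : Polynomial ℕ) (n : ℕ) : 1 ≤ (Q1 c q p).eval n := by
  have : (Q1 c q p).eval n = (2 * (NP1 p).eval n + 1) ^ c * (q.eval ((NP1 p).eval n) + 1) := by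
    simp [Q1]
  rw [this]
  exact Nat.one_le_iff_ne_zero.2 (by positivity)

theorem dist_BPP (h : ∀ L : Set (List Bool), InNP L → Distinguishable L) {L : Set (List Bool)}
    (hL : InNP L) : InBPP L ∧ InRP L := by
  obtain ⟨V0, p, hV0, hL'⟩ := hL
  obtain ⟨c, V, ρ, q, hV, hd⟩ := h _ (Ax_inNP hV0 p)
  have hgood := dist_good hd
  have hB : Poly (B1 c ρ V) := B1_poly (PIso.poly_iff.2 hV)
  have hLv : ∀ x, x ∈ L ↔ ∃ w, ver V0 p x w = true := fun x => by
    rw [hL' x]
    exact exists_congr fun w => ver_iff.symm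
  exact ⟨engine_BPP hV0 hB hgood (Q1_pos c q p) hLv, engine_RP hV0 hB hgood (Q1_pos c q p) hLv⟩

/-! ### The converse -/

/-- the test: compare the first bit with the decision of a machine for the first instance -/
def T0 (V0 : List Bool → List Bool) (y : List Bool) : Bool :=
  match unbits (List (List Bool) × List Bool) (unpair y).1 with
  | none => false
  | some z => decide (V0 (pairBits z.1.headI (unpair y).2) = [true]) == z.2.headI

theorem T0_poly {V0 : List Bool → List Bool} (hV0 : PolyTime V0) : Poly (T0 V0) := by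
  have hV : Poly V0 := PIso.poly_iff.2 hV0
  have e1 : Poly (fun y : List Bool => unbits (List (List Bool) × List Bool) (unpair y).1) :=
    poly_unbits.comp (NPC.Poly.fst poly_unpair)
  have e2 : Poly (fun q : List Bool × (List (List Bool) × List Bool) =>
      decide (V0 (pairBits q.2.1.headI (unpair q.1).2) = [true])) :=
    NPC.Poly.decide_eq (hV.comp (poly_pairBits
      (headI_poly2 (NPC.Poly.fst (NPC.Poly.snd NPC.Poly.id)))
      (NPC.Poly.comp (g := fun y : List Bool => (unpair y).2) (NPC.Poly.snd poly_unpair)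
        (NPC.Poly.fst NPC.Poly.id)))) (NPC.Poly.const [true])
  have e3 : Poly (fun q : List Bool × (List (List Bool) × List Bool) =>
      decide (V0 (pairBits q.2.1.headI (unpair q.1).2) = [true]) == q.2.2.headI) :=
    (NPC.Poly.decide_eq e2 (headI_poly (NPC.Poly.snd (NPC.Poly.snd NPC.Poly.id)))).congr
      fun q => by
        cases decide (V0 (pairBits q.2.1.headI (unpair q.1).2) = [true]) <;>
          cases q.2.2.headI <;> rfl
  exact (NPC.Poly.optCases (g := fun _ => false) (h := fun y z =>
    decide (V0 (pairBits z.1.headI (unpair y).2) = [true]) == z.2.headI) e1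
    (NPC.Poly.const false) e3).congr fun y => by
      unfold T0
      cases unbits (List (List Bool) × List Bool) (unpair y).1 <;> rfl

theorem T0_eq (V0 : List Bool → List Bool) (xs : List (List Bool)) (v r : List Bool) :
    T0 V0 (pairBits (bits (xs, v)) r) =
      (decide (V0 (pairBits xs.headI r) = [true]) == v.headI) := by
  unfold T0
  rw [unpair_pairBits]
  simp only [unbits_bits]

theorem BPP_dist {L : Set (List Bool)} (h : InBPP L) : Distinguishable L := by
  classical
  obtain ⟨V0, ρ, hV0, hL⟩ := h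
  refine ⟨1, fun y => [T0 V0 y], ρ, 6, polyTime_of_poly (T0_poly hV0), fun n hn xs h1 h2 => ?_⟩
  rw [one_mul] at h1
  have hsz : 0 < n.size := Nat.size_pos.2 hn
  obtain ⟨x, xs', rfl⟩ : ∃ x xs', xs = x :: xs' := by
    cases xs with
    | nil => simp at h1; omega
    | cons x xs' => exact ⟨x, xs', rfl⟩
  have hx : x.length = n := h2 x (by simp)
  set dec : List Bool → Bool := fun r => decide (V0 (pairBits x r) = [true]) with hdec
  have hT : ∀ v r : List Bool, ([T0 V0 (pairBits (bits (x :: xs', v)) r)] = [true]) ↔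
      (dec r == v.headI) = true := fun v r => by
    rw [T0_eq V0 (x :: xs') v r, List.cons.injEq]
    exact ⟨fun h => h.1, fun h => ⟨h, rfl⟩⟩
  have e1 : prob ((x :: xs').length + ρ.eval n) (fun z =>
      [T0 V0 (pairBits (bits (x :: xs', z.take (x :: xs').length)) (z.drop (x :: xs').length))] =
        [true]) = 1 / 2 := by
    rw [prob_congr (fun z _ => hT (z.take (x :: xs').length) (z.drop (x :: xs').length)), prob_eq',
      expect_BL_split (x :: xs').length (ρ.eval n) fun v r =>
      (if (dec r == v.headI) = true then (1 : ℝ) else 0),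
      List.length_cons, expect_BL_succ, ← expect_add_distrib]
    have : ∀ v ∈ BL xs'.length, ((𝔼 r ∈ BL (ρ.eval n),
        (if (dec r == (true :: v).headI) = true then (1 : ℝ) else 0)) +
        𝔼 r ∈ BL (ρ.eval n), (if (dec r == (false :: v).headI) = true then (1 : ℝ) else 0)) = 1 := by
      intro v _
      rw [← expect_add_distrib, ← expect_const (BL_nonempty (ρ.eval n)) (1 : ℝ)]
      refine expect_congr rfl fun r _ => ?_
      rw [expect_const (BL_nonempty (ρ.eval n)), List.headI_cons, List.headI_cons]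
      cases dec r <;> simp
    rw [expect_congr rfl this, expect_const (BL_nonempty _)]
  rw [e1]
  have e2 : (2 : ℝ) / 3 ≤ prob (ρ.eval n) (fun r =>
      [T0 V0 (pairBits (bits (x :: xs', answers L (x :: xs'))) r)] = [true]) := by
    have := hL x
    rw [hx] at this
    refine this.trans (prob_mono fun r _ hr => ?_)
    rw [hT]
    by_cases hxL : x ∈ L
    · simp [answers, hxL, hdec, hr.2 hxL]
    · have : V0 (pairBits x r) ≠ [true] := fun h' => hxL (hr.1 h')
      simp [answers, hxL, hdec, this]
  have e3 : (((6 : Polynomial ℕ).eval n : ℕ) : ℝ) = 6 := by simp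
  rw [e3]
  linarith

end Pool.Agent.Helper6K1.BN
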