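import Pool.Agent.Helper6K1.BN.Engine

/-!
# The randomised algorithm
-/

set_option autoImplicit false

namespace Pool.Agent.Helper6K1.BN

open Finset BigOperators Pool.Agent.NPC
open Pool.Agent.H579R2.Spt (BL mem_BL ip rowsL rowsL_succ cd ip_poly rowsL_poly take_poly'
  drop_poly' two_pow_size_poly bits_poly ver ver_poly ver_iff)

theorem two_pow_size_le (n : ℕ) : 2 ^ n.size ≤ 2 * n + 1 := by
  rcases Nat.eq_zero_or_pos n with h0 | h0
  · rw [h0]; simp
  · have h1 : 0 < n.size := Nat.size_pos.2 h0
    have h2 : 2 ^ (n.size - 1) ≤ n := by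
      by_contra hcon
      have := Nat.size_le.2 (not_le.1 hcon)
      omega
    have h3 : 2 ^ n.size = 2 * 2 ^ (n.size - 1) := by
      rw [← pow_succ']
      congr 1
      omega
    omega

section

variable {V0 : List Bool → List Bool} {p : Polynomial ℕ} {B : Pred} {A Q : Polynomial ℕ}

/-- a polynomial bound -/
noncomputable def XP (p Q : Polynomial ℕ) : Polynomial ℕ := 2 * (p + 1) * (Q * Q)

/-- the length of a block -/
noncomputable def LP (p A Q : Polynomial ℕ) : Polynomial ℕ :=
  (p + 1 + 1) * (p + 1) + ((XP p Q + 1) * (p + 1 + 1) + (A + (2 * XP p Q + 1) * A))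

/-- the number of trials -/
noncomputable def TP (p Q : Polynomial ℕ) : Polynomial ℕ := 2 * (32 * Q * (2 * XP p Q + 1))

/-- the algorithm -/
noncomputable def GG (V0 : List Bool → List Bool) (p : Polynomial ℕ) (B : Pred) (A Q : Polynomial ℕ)
    (y : List Bool) : Bool :=
  (rowsL ((LP p A Q).eval (unpair y).1.length) ((TP p Q).eval (unpair y).1.length)
    (unpair y).2).any fun r => trialA V0 p B A Q (unpair y).1 r

theorem GG_poly (hV0 : PolyTime V0) (hB : Poly B) : Poly (GG V0 p B A Q) := by
  have e1 : Poly (fun y : List Bool => (unpair y).1) := NPC.Poly.fst poly_unpair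
  have e2 : Poly (fun y : List Bool => (unpair y).2) := NPC.Poly.snd poly_unpair
  have e3 : UPoly (fun y : List Bool => (LP p A Q).eval (unpair y).1.length) :=
    (UPoly.length e1).eval (LP p A Q)
  have e4 : UPoly (fun y : List Bool => (TP p Q).eval (unpair y).1.length) :=
    (UPoly.length e1).eval (TP p Q)
  have e5 : Poly (fun y : List Bool => rowsL ((LP p A Q).eval (unpair y).1.length)
      ((TP p Q).eval (unpair y).1.length) (unpair y).2) := rowsL_poly e3.toPoly e4 e2
  have e6 : Poly (fun q : List Bool × List Bool => ((unpair q.1).1, q.2)) :=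
    NPC.Poly.pair (NPC.Poly.comp (g := fun y : List Bool => (unpair y).1) e1
      (NPC.Poly.fst NPC.Poly.id)) (NPC.Poly.snd NPC.Poly.id)
  have e7 : Poly (fun q : List Bool × List Bool => trialA V0 p B A Q (unpair q.1).1 q.2) :=
    NPC.Poly.comp (g := fun q : List Bool × List Bool => trialA V0 p B A Q q.1 q.2)
      (f := fun q : List Bool × List Bool => ((unpair q.1).1, q.2)) (trialA_poly hV0 hB) e6
  exact NPC.Poly.any (l := fun y => rowsL ((LP p A Q).eval (unpair y).1.length)
      ((TP p Q).eval (unpair y).1.length) (unpair y).2)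
      (p := fun y r => trialA V0 p B A Q (unpair y).1 r) e5 e7

theorem GG_eq (x r : List Bool) : GG V0 p B A Q (pairBits x r) =
    (rowsL ((LP p A Q).eval x.length) ((TP p Q).eval x.length) r).any
      (fun r => trialA V0 p B A Q x r) := by
  unfold GG
  rw [unpair_pairBits]

theorem XP_eval (x : List Bool) : (XP p Q).eval x.length =
    2 * mm p x * (Q.eval x.length * Q.eval x.length) := by
  simp [XP, mm]

theorem LP_eval (x : List Bool) : (LP p A Q).eval x.length =
    (mm p x + 1) * mm p x + (((XP p Q).eval x.length + 1) * (mm p x + 1) +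
      (A.eval x.length + (2 * (XP p Q).eval x.length + 1) * A.eval x.length)) := by
  simp [LP, mm]

theorem TP_eval (x : List Bool) : (TP p Q).eval x.length =
    2 * (32 * Q.eval x.length * (2 * (XP p Q).eval x.length + 1)) := by
  simp [TP]

open Classical in
theorem GG_prob (hgood : Good V0 p B A Q) (hQ : ∀ n, 1 ≤ Q.eval n) {x w : List Bool}
    (hw : ver V0 p x w = true) :
    2 / 3 ≤ prob ((TP p Q * LP p A Q).eval x.length)
      fun r => [GG V0 p B A Q (pairBits x r)] = [true] := by
  set q : ℝ := ((Q.eval x.length : ℕ) : ℝ) with hq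
  have hq1 : (1 : ℝ) ≤ q := by rw [hq]; exact_mod_cast hQ x.length
  set t := tt p Q x with ht
  have h2t : 2 ^ t ≤ 2 * (XP p Q).eval x.length + 1 := by
    rw [ht, tt, XP_eval]
    exact two_pow_size_le _
  have htX : t ≤ (XP p Q).eval x.length := by
    rw [ht, tt, XP_eval]
    exact Nat.size_le.2 Nat.lt_two_pow_self
  have hlen : (mm p x + 1) * mm p x + ((tt p Q x + 1) * (mm p x + 1) +
    (A.eval x.length + 2 ^ tt p Q x * A.eval x.length)) ≤ (LP p A Q).eval x.length := by
    rw [LP_eval, ← ht]
    have h2 : (t + 1) * (mm p x + 1) ≤ ((XP p Q).eval x.length + 1) * (mm p x + 1) :=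
      Nat.mul_le_mul_right _ (by omega)
    have h3 : 2 ^ t * A.eval x.length ≤ (2 * (XP p Q).eval x.length + 1) * A.eval x.length :=
      Nat.mul_le_mul_right _ h2t
    omega
  have htr := trial_prob hgood hQ hw hlen
  rw [← ht, ← hq] at htr
  set P : ℝ := 32 * q * 2 ^ t with hP
  have hPpos : 0 < P := by positivity
  set z : ℝ := 𝔼 u ∈ BL ((LP p A Q).eval x.length), (if trialA V0 p B A Q x u then (0 : ℝ) else 1)
    with hz
  have hz0 : 0 ≤ z := expect_nonneg fun u _ => by split_ifs <;> norm_num
  have hz1 : z ≤ 1 - 1 / P := by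
    have h4 : z + 𝔼 r ∈ BL ((LP p A Q).eval x.length),
        (if trialA V0 p B A Q x r = true then (1 : ℝ) else 0) = 1 := by
      rw [hz, ← expect_add_distrib, ← expect_const (BL_nonempty ((LP p A Q).eval x.length)) (1 : ℝ)]
      refine expect_congr rfl fun r _ => ?_
      cases trialA V0 p B A Q x r <;> simp [expect_const (BL_nonempty ((LP p A Q).eval x.length))]
    linarith
  have h5 : prob ((TP p Q * LP p A Q).eval x.length) (fun r => [GG V0 p B A Q (pairBits x r)] = [true]) =
      1 - z ^ ((TP p Q).eval x.length) := by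
    rw [prob_eq, Polynomial.eval_mul, hz, ← expect_any, ← Nat.add_zero ((TP p Q).eval x.length * _)]
    have h6 := expect_rows ((LP p A Q).eval x.length) ((TP p Q).eval x.length) 0
      (fun l _ => if (l.any fun r => trialA V0 p B A Q x r) then (0 : ℝ) else 1)
    have h7 : ∀ l ∈ BLL ((LP p A Q).eval x.length) ((TP p Q).eval x.length), 𝔼 v ∈ BL 0,
        (if (l.any fun r => trialA V0 p B A Q x r) then (0 : ℝ) else 1) =
        if (l.any fun r => trialA V0 p B A Q x r) then (0 : ℝ) else 1 := fun l _ => by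
      rw [expect_BL_zero]
    rw [expect_congr rfl h7] at h6
    rw [← h6, eq_sub_iff_add_eq, ← expect_add_distrib,
      ← expect_const (BL_nonempty ((TP p Q).eval x.length * (LP p A Q).eval x.length + 0)) (1 : ℝ)]
    refine expect_congr rfl fun r _ => ?_
    simp only [GG_eq, List.cons.injEq, and_true]
    rw [expect_const (BL_nonempty _)]
    by_cases h8 : ((rowsL ((LP p A Q).eval x.length) ((TP p Q).eval x.length) r).any
        fun r => trialA V0 p B A Q x r) = true
    · rw [if_pos h8, if_pos h8]; norm_num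
    · rw [if_neg h8, if_neg h8]; norm_num
  rw [h5]
  have h8 : 2 * P ≤ ((TP p Q).eval x.length : ℕ) := by
    rw [TP_eval, hP, hq]
    have h10 : 2 * (32 * Q.eval x.length * 2 ^ t) ≤
        2 * (32 * Q.eval x.length * (2 * (XP p Q).eval x.length + 1)) :=
      Nat.mul_le_mul_left _ (Nat.mul_le_mul_left _ h2t)
    exact_mod_cast h10
  have h11 : z ≤ Real.exp (-(1 / P)) := hz1.trans (Real.one_sub_le_exp_neg _)
  have h12 : z ^ ((TP p Q).eval x.length) ≤ Real.exp (-2) := by
    calc z ^ ((TP p Q).eval x.length) ≤ (Real.exp (-(1 / P))) ^ ((TP p Q).eval x.length) :=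
          pow_le_pow_left₀ hz0 h11 _
      _ = Real.exp (((TP p Q).eval x.length : ℕ) * (-(1 / P))) := (Real.exp_nat_mul _ _).symm
      _ ≤ Real.exp (-2) := by
          apply Real.exp_le_exp.2
          have h13 : 2 ≤ (((TP p Q).eval x.length : ℕ) : ℝ) / P := by
            rw [le_div_iff₀ hPpos]; exact h8
          have h14 : (((TP p Q).eval x.length : ℕ) : ℝ) * (-(1 / P)) =
              -((((TP p Q).eval x.length : ℕ) : ℝ) / P) := by ring
          rw [h14]
          linarith
  have h15 : Real.exp (-2) ≤ 1 / 3 := by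
    rw [Real.exp_neg, inv_eq_one_div]
    have h16 : (3 : ℝ) ≤ Real.exp 2 := by
      have := Real.add_one_le_exp (2 : ℝ)
      linarith
    exact one_div_le_one_div_of_le (by norm_num) h16
  linarith

open Classical in
/-- **The engine**: if the inner products of the unique certificates can be predicted with an
advantage, then the certificates can be found by a randomised algorithm. -/
theorem engine (hV0 : PolyTime V0) (hB : Poly B) (hgood : Good V0 p B A Q)
    (hQ : ∀ n, 1 ≤ Q.eval n) :
    ∃ (V : List Bool → List Bool) (ρ : Polynomial ℕ), PolyTime V ∧ ∀ x,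
      ((∃ w, ver V0 p x w = true) →
        2 / 3 ≤ prob (ρ.eval x.length) fun r => V (pairBits x r) = [true]) ∧
      ∀ r, V (pairBits x r) = [true] → ∃ w, ver V0 p x w = true := by
  refine ⟨fun y => [GG V0 p B A Q y], TP p Q * LP p A Q, polyTime_of_poly (GG_poly hV0 hB),
    fun x => ⟨fun ⟨w, hw⟩ => GG_prob hgood hQ hw, fun r hr => ?_⟩⟩
  simp only [List.cons.injEq, and_true] at hr
  rw [GG_eq, List.any_eq_true] at hr
  obtain ⟨r', _, hr'⟩ := hr
  unfold trialA at hr'
  rw [List.any_eq_true] at hr'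
  obtain ⟨k, _, hk⟩ := hr'
  exact ⟨_, hk⟩

theorem engine_BPP (hV0 : PolyTime V0) (hB : Poly B) (hgood : Good V0 p B A Q)
    (hQ : ∀ n, 1 ≤ Q.eval n) {L : Set (List Bool)}
    (hL : ∀ x, x ∈ L ↔ ∃ w, ver V0 p x w = true) : InBPP L := by
  obtain ⟨V, ρ, hV, h⟩ := engine hV0 hB hgood hQ
  refine ⟨V, ρ, hV, fun x => ?_⟩
  by_cases hx : x ∈ L
  · refine ((h x).1 ((hL x).1 hx)).trans (prob_mono fun r _ hr => ?_)
    exact ⟨fun _ => hx, fun _ => hr⟩
  · have h1 : (1 : ℝ) ≤ prob (ρ.eval x.length) fun r => V (pairBits x r) = [true] ↔ x ∈ L := by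
      classical
      rw [prob_eq]
      refine le_expect (BL_nonempty _) fun r _ => ?_
      rw [if_pos]
      exact ⟨fun hr => absurd ((hL x).2 ((h x).2 r hr)) hx, fun h' => absurd h' hx⟩
    linarith

theorem engine_RP (hV0 : PolyTime V0) (hB : Poly B) (hgood : Good V0 p B A Q)
    (hQ : ∀ n, 1 ≤ Q.eval n) {L : Set (List Bool)}
    (hL : ∀ x, x ∈ L ↔ ∃ w, ver V0 p x w = true) : InRP L := by
  obtain ⟨V, ρ, hV, h⟩ := engine hV0 hB hgood hQ
  refine ⟨V, ρ, hV, fun x => ⟨fun hx => ?_, fun hx r _ hr => hx ((hL x).2 ((h x).2 r hr))⟩⟩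
  have := (h x).1 ((hL x).1 hx)
  linarith

end

end Pool.Agent.Helper6K1.BN
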