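import Pool.Agent.Helper6K1.BN.Final

/-!
# The auxiliary NP problem: an inner product with the certificate
-/

set_option autoImplicit false

namespace Pool.Agent.Helper6K1.BN

open Finset BigOperators Pool.Agent.NPC
open Pool.Agent.H579R2.Spt (BL mem_BL ip rowsL rowsL_succ cd ip_poly rowsL_poly take_poly'
  drop_poly' two_pow_size_poly bits_poly ver ver_poly ver_iff)

/-- the instances -/
abbrev Inst : Type := List Bool × List (List Bool) × (List Bool × List Bool) × (Bool × Bool)

/-- some certificate that is orthogonal to the rows has the inner product `b` with `u` -/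
def Ax (V0 : List Bool → List Bool) (p : Polynomial ℕ) (I : Inst) : Prop :=
  ∃ w, ver V0 p I.1 w = true ∧ I.2.1.all (fun a => !ip a (cd w)) = true ∧
    ip I.2.2.1.1 (cd w) = I.2.2.2.1

theorem Ax_inNP {V0 : List Bool → List Bool} (hV0 : PolyTime V0) (p : Polynomial ℕ) :
    InNP (lang (Ax V0 p)) := by
  have hR : Poly (fun q : Inst × List Bool => (ver V0 p q.1.1 q.2 &&
      q.1.2.1.all (fun a => !ip a (cd q.2))) &&
      decide (ip q.1.2.2.1.1 (cd q.2) = q.1.2.2.2.1)) := by
    have e0 : Poly (fun q : Inst × List Bool => q.1) := NPC.Poly.fst NPC.Poly.id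
    have ew : Poly (fun q : Inst × List Bool => q.2) := NPC.Poly.snd NPC.Poly.id
    have ecd : Poly (fun q : Inst × List Bool => cd q.2) := by
      unfold cd
      exact NPC.Poly.append ew (NPC.Poly.const _)
    have e1 : Poly (fun q : Inst × List Bool => q.1.2) := NPC.Poly.snd e0
    have e2 : Poly (fun q : Inst × List Bool => q.1.2.2) := NPC.Poly.snd e1
    refine NPC.Poly.and (NPC.Poly.and ((ver_poly hV0 p).comp (NPC.Poly.pair (NPC.Poly.fst e0) ew))
      (NPC.Poly.all (l := fun q : Inst × List Bool => q.1.2.1)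
        (p := fun q a => !ip a (cd q.2)) (NPC.Poly.fst e1) ?_)) ?_
    · exact NPC.Poly.not (ip_poly (NPC.Poly.snd NPC.Poly.id) (ecd.comp (NPC.Poly.fst NPC.Poly.id)))
    · exact NPC.Poly.dec_eq (ip_poly (NPC.Poly.fst (NPC.Poly.fst e2)) ecd)
        (NPC.Poly.fst (NPC.Poly.snd e2))
  refine inNPP_of (α := Inst) (β := List Bool)
    (R := fun q : Inst × List Bool => (ver V0 p q.1.1 q.2 &&
      q.1.2.1.all (fun a => !ip a (cd q.2))) &&
      decide (ip q.1.2.2.1.1 (cd q.2) = q.1.2.2.2.1)) hR (4 * p + 1) ?_
  intro I
  constructor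
  · rintro ⟨w, h1, h2, h3⟩
    refine ⟨w, ?_, ?_⟩
    · have h4 : w.length ≤ p.eval I.1.length := (ver_iff.1 h1).1
      have h5 := sz_listBool_le w
      have h6 : p.eval I.1.length ≤ p.eval (sz I) := by
        refine eval_mono p ?_
        have := length_lt_sz I.1
        have h7 : sz I = sz I.1 + sz I.2 + 1 := sz_pair I.1 I.2
        omega
      simp only [Polynomial.eval_add, Polynomial.eval_mul, Polynomial.eval_ofNat,
        Polynomial.eval_one]
      omega
    · rw [h1, h2]
      simpa using h3
  · rintro ⟨w, _, hw⟩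
    simp only [Bool.and_eq_true, decide_eq_true_eq] at hw
    exact ⟨w, hw.1.1, hw.1.2, hw.2⟩

/-- the string of an instance; its length does not depend on `u` (of given length) and `b` -/
def instS (x : List Bool) (rows : List (List Bool)) (u : List Bool) (b : Bool) : List Bool :=
  bits ((x, rows, (u, u.map not), (b, !b)) : Inst)

theorem instS_poly {α : Type} [TEnc α] {x u : α → List Bool} {rows : α → List (List Bool)}
    {b : α → Bool} (hx : Poly x) (hrows : Poly rows) (hu : Poly u) (hb : Poly b) :
    Poly (fun a => instS (x a) (rows a) (u a) (b a)) := by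
  unfold instS
  refine bits_poly.comp (NPC.Poly.pair hx (NPC.Poly.pair hrows (NPC.Poly.pair
    (NPC.Poly.pair hu (NPC.Poly.map (F := fun _ (e : Bool) => !e) hu
      (NPC.Poly.not (NPC.Poly.snd NPC.Poly.id)))) (NPC.Poly.pair hb (NPC.Poly.not hb)))))

theorem sz_compl (u : List Bool) : sz u + sz (u.map not) = 6 * u.length + 2 := by
  induction u with
  | nil => simp
  | cons b u ih =>
    rw [List.map_cons, sz_list_cons, sz_list_cons, List.length_cons]
    cases b
    · simp only [Bool.not_false, sz_true, sz_false]; omega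
    · simp only [Bool.not_true, sz_true, sz_false]; omega

/-- the length of the instances -/
def nI (x : List Bool) (rows : List (List Bool)) (m : ℕ) : ℕ := sz x + sz rows + 6 * m + 11

theorem instS_length {x : List Bool} {rows : List (List Bool)} {u : List Bool} {b : Bool} {m : ℕ}
    (hu : u.length = m) : (instS x rows u b).length = nI x rows m := by
  have h1 := sz_compl u
  have h2 : sz b + sz (!b) = 4 := by cases b <;> simp
  unfold instS nI
  rw [bits_length, sz_pair, sz_pair, sz_pair, sz_pair, sz_pair]
  rw [hu] at h1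
  omega

theorem instS_mem {V0 : List Bool → List Bool} {p : Polynomial ℕ} {x : List Bool}
    {rows : List (List Bool)} {w : List Bool} (h : Unq V0 p x rows w) (u : List Bool) (b : Bool) :
    instS x rows u b ∈ lang (Ax V0 p) ↔ ip u (cd w) = b := by
  unfold instS
  rw [bits_mem_lang]
  constructor
  · rintro ⟨w', h1, h2, h3⟩
    have := h.2.2 w' h1 h2
    subst this
    exact h3
  · intro h3
    exact ⟨w, h.1, h.2.1, h3⟩

theorem nI_pos (x : List Bool) (rows : List (List Bool)) (m : ℕ) : 1 ≤ nI x rows m := by
  unfold nI; omega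

/-- a polynomial bound for the lengths of the instances -/
noncomputable def NP1 (p : Polynomial ℕ) : Polynomial ℕ :=
  4 * Polynomial.X + 1 + ((p + 1 + 1) * (4 * (p + 1) + 2) + 1) + 6 * (p + 1) + 11

theorem nI_le {p : Polynomial ℕ} {x : List Bool} {rows : List (List Bool)}
    (h1 : rows.length ≤ mm p x + 1) (h2 : ∀ u ∈ rows, u.length = mm p x) :
    nI x rows (mm p x) ≤ (NP1 p).eval x.length := by
  have h3 := sz_listBool_le x
  have h4 := sz_le_length_mul rows (4 * mm p x + 1) (fun u hu => by
    have := sz_listBool_le u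
    rw [h2 u hu] at this
    exact this)
  have h5 : rows.length * (4 * mm p x + 1 + 1) ≤ (mm p x + 1) * (4 * mm p x + 2) :=
    Nat.mul_le_mul h1 (by omega)
  have h6 : (NP1 p).eval x.length = 4 * x.length + 1 +
      ((mm p x + 1) * (4 * mm p x + 2) + 1) + 6 * mm p x + 11 := by
    simp [NP1, mm]
  rw [h6, nI]
  omega

end Pool.Agent.Helper6K1.BN
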