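import Pool.Agent.Helper6K1.BN.GL

/-!
# Decoding a vector from noisy values of its inner products
-/

set_option autoImplicit false

namespace Pool.Agent.Helper6K1.BN

open Finset BigOperators Pool.Agent.NPC
open Pool.Agent.H579R2.Spt (BL mem_BL ip rowsL ip_cons ip_nil_right ip_nil_left cd cd_length)

/-- the `i`-th unit vector of length `m` -/
def unitv (m i : ℕ) : List Bool := (List.range m).map fun j => decide (j = i)

theorem unitv_length (m i : ℕ) : (unitv m i).length = m := by simp [unitv]

theorem unitv_eq {m i : ℕ} (h : i < m) :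
    unitv m i = List.replicate i false ++ true :: List.replicate (m - 1 - i) false := by
  unfold unitv
  apply List.ext_getElem
  · simp; omega
  · intro j h1 h2
    have hj : j < m := by simpa using h1
    rw [List.getElem_map, List.getElem_range]
    rcases lt_trichotomy j i with hji | hji | hji
    · rw [List.getElem_append_left (by simpa using hji), List.getElem_replicate]
      simp; omega
    · subst hji
      rw [List.getElem_append_right (by simp)]
      simp
    · rw [List.getElem_append_right (by simp; omega)]
      simp only [List.length_replicate]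
      obtain ⟨e, he⟩ : ∃ e, j - i = e + 1 := ⟨j - i - 1, by omega⟩
      simp only [he, List.getElem_cons_succ, List.getElem_replicate]
      simp; omega

theorem ip_replicate (k : ℕ) (c : List Bool) : ip (List.replicate k false) c = false := by
  induction k generalizing c with
  | zero => simp
  | succ k ih =>
    cases c with
    | nil => simp
    | cons b c => rw [List.replicate_succ, ip_cons, ih]; simp

theorem ip_unit (i k : ℕ) (c : List Bool) :
    ip (List.replicate i false ++ true :: List.replicate k false) c = c.getD i false := by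
  induction i generalizing c with
  | zero =>
    cases c with
    | nil => simp
    | cons b c => simp [ip_cons, ip_replicate]
  | succ i ih =>
    cases c with
    | nil => simp
    | cons b c =>
      rw [List.replicate_succ, List.cons_append, ip_cons, ih]
      simp

theorem ip_unitv {m i : ℕ} (h : i < m) (c : List Bool) : ip (unitv m i) c = c.getD i false := by
  rw [unitv_eq h, ip_unit]

/-! ### Points with guesses -/

/-- doubling of the list of points -/
def dblStep (acc : List (List Bool × Bool)) (q : List Bool × Bool) : List (List Bool × Bool) :=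
  acc.flatMap fun p => [p, (xv p.1 q.1, p.2 ^^ q.2)]

/-- the points with the guesses for their inner products -/
def ptsF (b : List Bool × Bool) (ss : List (List Bool × Bool)) : List (List Bool × Bool) :=
  ss.foldl dblStep [b]

/-- the same, recursively -/
def ptsR : List (List Bool × Bool) → List Bool × Bool → List (List Bool × Bool)
  | [], p => [p]
  | q :: ss, p => ptsR ss p ++ ptsR ss (xv p.1 q.1, p.2 ^^ q.2)

theorem foldl_dbl (ss : List (List Bool × Bool)) (acc : List (List Bool × Bool)) :
    ss.foldl dblStep acc = acc.flatMap (ptsR ss) := by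
  induction ss generalizing acc with
  | nil => simp [ptsR]
  | cons q ss ih =>
    rw [List.foldl_cons, ih, dblStep, List.flatMap_assoc]
    refine congrArg (fun f => List.flatMap f acc) ?_
    funext p
    simp [ptsR]

theorem ptsF_eq (b : List Bool × Bool) (ss : List (List Bool × Bool)) :
    ptsF b ss = ptsR ss b := by
  rw [ptsF, foldl_dbl]; simp

theorem ptsR_eq {m : ℕ} {c : List Bool} {ss : List (List Bool × Bool)}
    (h : ∀ q ∈ ss, q.1.length = m ∧ q.2 = ip q.1 c) :
    ∀ {u : List Bool}, u.length = m → ptsR ss (u, ip u c) =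
      (pts (ss.map Prod.fst) u).map fun v => (v, ip v c) := by
  induction ss with
  | nil => intro u _; simp [ptsR, pts]
  | cons q ss ih =>
    intro u hu
    have hq := h q (by simp)
    have hh : ∀ q' ∈ ss, q'.1.length = m ∧ q'.2 = ip q'.1 c := fun q' hq' => h q' (by simp [hq'])
    have h1 : (xv u q.1, ip u c ^^ q.2) = (xv u q.1, ip (xv u q.1) c) := by
      rw [ip_xv (by rw [hu, hq.1]), hq.2]
    simp only [ptsR, List.map_cons, pts, List.map_append]
    rw [ih hh hu, h1, ih hh (xv_length hu hq.1)]

/-! ### The decoder -/

/-- the number of the points at which the prediction for the `i`-th bit is `true` -/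
def score (Bf : List Bool → List Bool → Bool) (m i : ℕ) (ps : List (List Bool × Bool))
    (C : List (List Bool)) : ℕ :=
  ((ps.zip C).filter fun q => Bf (xv q.1.1 (unitv m i)) q.2 ^^ q.1.2).length

/-- the decoded vector -/
def decv (Bf : List Bool → List Bool → Bool) (m : ℕ) (ps : List (List Bool × Bool))
    (C : List (List Bool)) : List Bool :=
  (List.range m).map fun i => decide (ps.length < 2 * score Bf m i ps C)

/-- the random variables for the `i`-th bit -/
noncomputable def XX (Bf : List Bool → List Bool → Bool) (m i : ℕ) (c : List Bool)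
    (u d : List Bool) : ℝ :=
  sg (Bf (xv u (unitv m i)) d ^^ ip (xv u (unitv m i)) c)

theorem XX_sq (Bf : List Bool → List Bool → Bool) (m i : ℕ) (c u d : List Bool) :
    XX Bf m i c u d * XX Bf m i c u d ≤ 1 := (sg_sq _).le

theorem pts_mem_length {m : ℕ} : ∀ {ss : List (List Bool)}, (∀ s ∈ ss, s.length = m) →
    ∀ {u : List Bool}, u.length = m → ∀ v ∈ pts ss u, v.length = m := by
  intro ss
  induction ss with
  | nil =>
    intro _ u hu v hv
    rw [pts, List.mem_singleton] at hv
    rw [hv, hu]
  | cons s ss ih =>
    intro h u hu v hv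
    have h' : ∀ s' ∈ ss, s'.length = m := fun s' hs' => h s' (by simp [hs'])
    rw [pts, List.mem_append] at hv
    rcases hv with hv | hv
    · exact ih h' hu v hv
    · exact ih h' (xv_length hu (h s (by simp))) v hv

theorem sum_sg (l : List (List Bool × List Bool)) (P : List Bool × List Bool → Bool) :
    (l.map fun q => sg (P q)).sum = (l.length : ℝ) - 2 * ((l.filter P).length : ℝ) := by
  induction l with
  | nil => simp
  | cons q l ih =>
    rw [List.map_cons, List.sum_cons, ih, List.length_cons, List.filter_cons]
    cases hP : P q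
    · simp; ring
    · simp; ring

/-- The connection of the score with the random variables. -/
theorem score_eq {Bf : List Bool → List Bool → Bool} {m i : ℕ} (hi : i < m) {c : List Bool}
    {ss : List (List Bool)} (hss : ∀ s ∈ ss, s.length = m) {u : List Bool} (hu : u.length = m)
    {C : List (List Bool)} (hC : C.length = 2 ^ ss.length) :
    (2 : ℝ) ^ ss.length -
      2 * (score Bf m i ((pts ss u).map fun v => (v, ip v c)) C : ℝ) =
      sg (c.getD i false) * Z (XX Bf m i c) ss u C := by
  have hl : ((pts ss u).zip C).length = 2 ^ ss.length := by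
    rw [List.length_zip, pts_length, hC, min_self]
  have h1 : score Bf m i ((pts ss u).map fun v => (v, ip v c)) C =
      (((pts ss u).zip C).filter
        fun q => Bf (xv q.1 (unitv m i)) q.2 ^^ ip q.1 c).length := by
    unfold score
    rw [List.zip_map_left, List.filter_map, List.length_map]
    rfl
  have h2 := sum_sg ((pts ss u).zip C) fun q => Bf (xv q.1 (unitv m i)) q.2 ^^ ip q.1 c
  rw [hl] at h2
  rw [h1]
  push_cast at h2
  rw [← h2, Z, ← List.sum_map_mul_left]
  refine congrArg List.sum (List.map_congr_left fun q hq => ?_)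
  have hq1 : q.1 ∈ pts ss u := (List.of_mem_zip hq).1
  have hql : q.1.length = m := pts_mem_length hss hu _ hq1
  unfold XX
  rw [ip_xv (by rw [hql, unitv_length]), ip_unitv hi, sg_xor, sg_xor, sg_xor]
  have := sg_sq (c.getD i false)
  calc sg (Bf (xv q.1 (unitv m i)) q.2) * sg (ip q.1 c) =
      sg (Bf (xv q.1 (unitv m i)) q.2) * sg (ip q.1 c) *
        (sg (c.getD i false) * sg (c.getD i false)) := by rw [this, mul_one]
    _ = _ := by ring

/-- If all the sums are positive and all guesses are right, the vector is decoded. -/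
theorem decv_eq {Bf : List Bool → List Bool → Bool} {m : ℕ} {c : List Bool}
    {ss : List (List Bool)} (hss : ∀ s ∈ ss, s.length = m) {u : List Bool} (hu : u.length = m)
    {C : List (List Bool)} (hC : C.length = 2 ^ ss.length)
    (hZ : ∀ i < m, 0 < Z (XX Bf m i c) ss u C) :
    decv Bf m ((pts ss u).map fun v => (v, ip v c)) C =
      (List.range m).map fun i => c.getD i false := by
  unfold decv
  refine List.map_congr_left fun i hi => ?_
  have hi' : i < m := List.mem_range.1 hi
  have h1 := score_eq (Bf := Bf) hi' (c := c) hss hu hC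
  have h2 := hZ i hi'
  rw [List.length_map, pts_length]
  cases hc : c.getD i false
  · rw [hc, sg_false, one_mul] at h1
    rw [decide_eq_false_iff_not, not_lt]
    have h3 : (2 * (score Bf m i ((pts ss u).map fun v => (v, ip v c)) C : ℝ)) ≤
        2 ^ ss.length := by linarith
    exact_mod_cast h3
  · rw [hc, sg_true] at h1
    rw [decide_eq_true_eq]
    have h3 : (2 : ℝ) ^ ss.length <
        2 * (score Bf m i ((pts ss u).map fun v => (v, ip v c)) C : ℝ) := by linarith
    exact_mod_cast h3

/-! ### From the padded code to the certificate -/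

/-- one step of the decoding of a certificate -/
def ustp (b : Bool) (s : Option (List Bool)) : Option (List Bool) :=
  s.elim (bif b then some [] else none) fun l => some (b :: l)

/-- the certificate with a given padded code -/
def uncd (v : List Bool) : List Bool := (v.foldr ustp none).getD []

theorem foldr_false (j : ℕ) : (List.replicate j false).foldr ustp none = none := by
  induction j with
  | zero => rfl
  | succ j ih => rw [List.replicate_succ, List.foldr_cons, ih]; rfl

theorem foldr_cd (w : List Bool) (j : ℕ) :
    (w ++ true :: List.replicate j false).foldr ustp none = some w := by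
  induction w with
  | nil => rw [List.nil_append, List.foldr_cons, foldr_false]; rfl
  | cons b w ih => rw [List.cons_append, List.foldr_cons, ih]; rfl

theorem pad_eq (w : List Bool) (m : ℕ) (h : w.length + 1 ≤ m) :
    (List.range m).map (fun i => (cd w).getD i false) =
      w ++ true :: List.replicate (m - (w.length + 1)) false := by
  apply List.ext_getElem
  · simp; omega
  · intro i h1 h2
    have hi : i < m := by simpa using h1
    rw [List.getElem_map, List.getElem_range]
    have e : w ++ true :: List.replicate (m - (w.length + 1)) false =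
        cd w ++ List.replicate (m - (w.length + 1)) false := by simp [cd]
    by_cases hc : i < (cd w).length
    · have h3 : i < (cd w ++ List.replicate (m - (w.length + 1)) false).length := by
        rw [List.length_append]; omega
      have h4 : (w ++ true :: List.replicate (m - (w.length + 1)) false)[i] =
          (cd w ++ List.replicate (m - (w.length + 1)) false)[i] := by simp only [e]
      rw [h4, List.getElem_append_left hc, List.getD_eq_getElem _ _ hc]
    · have h3 : i < (cd w ++ List.replicate (m - (w.length + 1)) false).length := by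
        rw [List.length_append, List.length_replicate, cd_length]; omega
      have h4 : (w ++ true :: List.replicate (m - (w.length + 1)) false)[i] =
          (cd w ++ List.replicate (m - (w.length + 1)) false)[i] := by simp only [e]
      rw [h4, List.getElem_append_right (by omega), List.getD_eq_default _ _ (by omega),
        List.getElem_replicate]

theorem uncd_pad (w : List Bool) (m : ℕ) (h : w.length + 1 ≤ m) :
    uncd ((List.range m).map fun i => (cd w).getD i false) = w := by
  rw [uncd, pad_eq w m h, foldr_cd]; rfl

/-! ### The probability of success -/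

section

variable {m a : ℕ}

/-- Random guesses are right with probability `2 ^ (-n)`. -/
theorem expect_guess (c : List Bool) (n : ℕ) (G : List (List Bool) → ℝ) :
    𝔼 S ∈ BLL (m + 1) n, (if ∀ ch ∈ S, ch.headI = ip ch.tail c then G (S.map List.tail) else 0) =
      (1 / 2) ^ n * 𝔼 ss ∈ BLL m n, G ss := by
  induction n generalizing G with
  | zero => rw [expect_BLL_zero, expect_BLL_zero]; simp
  | succ n ih =>
    rw [expect_BLL_succ, expect_BLL_succ]
    have h1 : ∀ ch ∈ BL (m + 1), 𝔼 S ∈ BLL (m + 1) n,
        (if ∀ ch' ∈ ch :: S, ch'.headI = ip ch'.tail c then G ((ch :: S).map List.tail) else 0) =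
        if ch.headI = ip ch.tail c then (1 / 2) ^ n * 𝔼 ss ∈ BLL m n, G (ch.tail :: ss) else 0 := by
      intro ch _
      by_cases hch : ch.headI = ip ch.tail c
      · rw [if_pos hch, ← ih fun ss => G (ch.tail :: ss)]
        refine expect_congr rfl fun S _ => ?_
        simp only [List.forall_mem_cons, hch, true_and, List.map_cons]
      · rw [if_neg hch]
        refine expect_eq_zero fun S _ => ?_
        simp only [List.forall_mem_cons, hch, false_and, if_false]
    rw [expect_congr rfl h1]
    refine (expect_BL_succ m fun ch => if ch.headI = ip ch.tail c then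
      (1 / 2) ^ n * 𝔼 ss ∈ BLL m n, G (ch.tail :: ss) else 0).trans ?_
    change (𝔼 u ∈ BL m, (if true = ip u c then (1 / 2) ^ n * 𝔼 ss ∈ BLL m n, G (u :: ss) else 0) +
      𝔼 u ∈ BL m, (if false = ip u c then (1 / 2) ^ n * 𝔼 ss ∈ BLL m n, G (u :: ss) else 0)) / 2 = _
    rw [← expect_add_distrib]
    have h2 : ∀ u ∈ BL m, ((if true = ip u c then (1 / 2) ^ n * 𝔼 ss ∈ BLL m n, G (u :: ss) else 0) +
        if false = ip u c then (1 / 2) ^ n * 𝔼 ss ∈ BLL m n, G (u :: ss) else 0) =
        (1 / 2) ^ n * 𝔼 ss ∈ BLL m n, G (u :: ss) := by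
      intro u _
      cases ip u c <;> simp
    rw [expect_congr rfl h2, ← mul_expect, pow_succ]
    ring

/-- the decoder applied to the random seeds with guesses -/
def decS (Bf : List Bool → List Bool → Bool) (m : ℕ) (S C : List (List Bool)) : List Bool :=
  decv Bf m (ptsF (S.headI.tail, S.headI.headI) (S.tail.map fun ch => (ch.tail, ch.headI))) C

/-- **Goldreich and Levin**: the probability that the vector is decoded. -/
theorem expect_decS (Bf : List Bool → List Bool → Bool) (c : List Bool) (t : ℕ) {μ : ℝ}
    (hμ : μ ≤ 𝔼 u ∈ BL m, 𝔼 d ∈ BL a, sg (Bf u d ^^ ip u c)) (hμ0 : 0 < μ)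
    (ht : 2 * (m : ℝ) ≤ 2 ^ t * μ ^ 2) :
    (1 / 2) ^ (t + 2) ≤ 𝔼 S ∈ BLL (m + 1) (t + 1), 𝔼 C ∈ BLL a (2 ^ t),
      (if decS Bf m S C = (List.range m).map (fun i => c.getD i false) then (1 : ℝ) else 0) := by
  set G : List (List Bool) → ℝ := fun ss => 𝔼 C ∈ BLL a (2 ^ t),
    (if ∀ i < m, 0 < Z (XX Bf m i c) ss.tail ss.headI C then (1 : ℝ) else 0) with hG
  have h1 : 𝔼 S ∈ BLL (m + 1) (t + 1),
      (if ∀ ch ∈ S, ch.headI = ip ch.tail c then G (S.map List.tail) else 0) ≤
      𝔼 S ∈ BLL (m + 1) (t + 1), 𝔼 C ∈ BLL a (2 ^ t),
      (if decS Bf m S C = (List.range m).map (fun i => c.getD i false) then (1 : ℝ) else 0) := by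
    refine expect_le_expect fun S hS => ?_
    have hS' := mem_BLL.1 hS
    split_ifs with hg
    · rw [hG]
      refine expect_le_expect fun C hC => ?_
      split_ifs with hZ hd
      · exact le_rfl
      · exfalso
        apply hd
        cases S with
        | nil => simp at hS'
        | cons s0 S =>
          have hC' := (mem_BLL.1 hC).1
          have hs0 : s0.length = m + 1 := hS'.2 s0 (by simp)
          have hlen : (S.map List.tail).length = t := by simpa using hS'.1
          have hss : ∀ s ∈ S.map List.tail, s.length = m := by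
            intro s hs
            obtain ⟨ch, hch, rfl⟩ := List.mem_map.1 hs
            rw [List.length_tail, hS'.2 ch (by simp [hch])]
            rfl
          have hu : s0.tail.length = m := by rw [List.length_tail, hs0]; rfl
          have hZ' : ∀ i < m, 0 < Z (XX Bf m i c) (S.map List.tail) s0.tail C := by
            simpa using hZ
          have h2 := decv_eq hss hu (by rw [hlen]; exact hC') hZ'
          rw [← h2]
          unfold decS
          have h3 : ∀ q ∈ S.map (fun ch => (ch.tail, ch.headI)),
              q.1.length = m ∧ q.2 = ip q.1 c := by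
            intro q hq
            obtain ⟨ch, hch, rfl⟩ := List.mem_map.1 hq
            refine ⟨?_, hg ch (by simp [hch])⟩
            simp [hS'.2 ch (by simp [hch])]
          simp only [List.headI_cons, List.tail_cons]
          rw [ptsF_eq, hg s0 (by simp), ptsR_eq h3 hu]
          congr 2
          rw [List.map_map]
          rfl
      · norm_num
      · exact le_rfl
    · exact expect_nonneg fun C _ => by split_ifs <;> norm_num
  refine le_trans ?_ h1
  rw [expect_guess c (t + 1) G, expect_BLL_succ]
  have hμ1 : μ ≤ 1 := by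
    refine hμ.trans (expect_le (BL_nonempty m) fun u _ => expect_le (BL_nonempty a) fun d _ => ?_)
    cases (Bf u d ^^ ip u c) <;> simp
  have h4 : (1 : ℝ) / 2 ≤ 𝔼 u ∈ BL m, 𝔼 ss ∈ BLL m t, G (u :: ss) := by
    have h5 : ∀ u ∈ BL m, ∀ ss ∈ BLL m t, G (u :: ss) ≥ 1 - ∑ i ∈ range m,
        𝔼 C ∈ BLL a (2 ^ t), (if Z (XX Bf m i c) ss u C ≤ 0 then (1 : ℝ) else 0) := by
      intro u _ ss _
      have e0 : 1 - ∑ i ∈ range m,
          𝔼 C ∈ BLL a (2 ^ t), (if Z (XX Bf m i c) ss u C ≤ 0 then (1 : ℝ) else 0) =
          𝔼 C ∈ BLL a (2 ^ t), (1 - ∑ i ∈ range m,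
            (if Z (XX Bf m i c) ss u C ≤ 0 then (1 : ℝ) else 0)) := by
        rw [expect_sub_distrib, expect_sum_comm, expect_const (BLL_nonempty a _)]
      rw [ge_iff_le, e0]
      refine expect_le_expect fun C _ => ?_
      change _ ≤ (if ∀ i < m, 0 < Z (XX Bf m i c) ss u C then (1 : ℝ) else 0)
      by_cases h : ∀ i < m, 0 < Z (XX Bf m i c) ss u C
      · rw [if_pos h]
        have : 0 ≤ ∑ i ∈ range m, (if Z (XX Bf m i c) ss u C ≤ 0 then (1 : ℝ) else 0) :=
          sum_nonneg fun i _ => by split_ifs <;> norm_num
        linarith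
      · rw [if_neg h]
        push Not at h
        obtain ⟨i, hi, hZi⟩ := h
        have h6 : (1 : ℝ) ≤ ∑ i ∈ range m, (if Z (XX Bf m i c) ss u C ≤ 0 then (1 : ℝ) else 0) := by
          have h7 := single_le_sum (f := fun i => if Z (XX Bf m i c) ss u C ≤ 0 then (1 : ℝ) else 0)
            (s := range m) (fun i _ => by split_ifs <;> norm_num) (mem_range.2 hi)
          simpa [hZi] using h7
        linarith
    have h8 : 𝔼 u ∈ BL m, 𝔼 ss ∈ BLL m t, G (u :: ss) ≥ 𝔼 u ∈ BL m, 𝔼 ss ∈ BLL m t,
        (1 - ∑ i ∈ range m,
        𝔼 C ∈ BLL a (2 ^ t), (if Z (XX Bf m i c) ss u C ≤ 0 then (1 : ℝ) else 0)) :=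
      expect_le_expect fun u hu => expect_le_expect fun ss hss => h5 u hu ss hss
    refine le_trans ?_ h8
    have h9 : 𝔼 u ∈ BL m, 𝔼 ss ∈ BLL m t, (1 - ∑ i ∈ range m,
        𝔼 C ∈ BLL a (2 ^ t), (if Z (XX Bf m i c) ss u C ≤ 0 then (1 : ℝ) else 0)) =
        1 - ∑ i ∈ range m, 𝔼 ss ∈ BLL m t, 𝔼 u ∈ BL m,
          𝔼 C ∈ BLL a (2 ^ t), (if Z (XX Bf m i c) ss u C ≤ 0 then (1 : ℝ) else 0) := by
      rw [expect_comm]
      simp only [expect_sub_distrib, expect_sum_comm]
      rw [expect_congr rfl fun i _ => expect_const (BL_nonempty m) (1 : ℝ),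
        expect_const (BLL_nonempty m t)]
    rw [h9]
    have h10 : ∀ i ∈ range m, 𝔼 ss ∈ BLL m t, 𝔼 u ∈ BL m,
        𝔼 C ∈ BLL a (2 ^ t), (if Z (XX Bf m i c) ss u C ≤ 0 then (1 : ℝ) else 0) ≤
        1 / (2 ^ t * μ ^ 2) := by
      intro i hi
      have h11 : 𝔼 u ∈ BL m, 𝔼 d ∈ BL a, XX Bf m i c u d =
          𝔼 u ∈ BL m, 𝔼 d ∈ BL a, sg (Bf u d ^^ ip u c) :=
        expect_shift (unitv_length m i) fun u => 𝔼 d ∈ BL a, sg (Bf u d ^^ ip u c)
      have h12 := expect_Z_nonpos (m := m) (a := a) (XX Bf m i c) (XX_sq Bf m i c) t
        (by rw [h11]; linarith)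
      rw [h11] at h12
      refine h12.trans ?_
      have h13 : μ ^ 2 ≤ (𝔼 u ∈ BL m, 𝔼 d ∈ BL a, sg (Bf u d ^^ ip u c)) ^ 2 :=
        pow_le_pow_left₀ hμ0.le hμ 2
      exact one_div_le_one_div_of_le (by positivity)
        (mul_le_mul_of_nonneg_left h13 (by positivity))
    have h14 := sum_le_sum h10
    rw [sum_const, card_range, nsmul_eq_mul] at h14
    have h15 : (m : ℝ) * (1 / (2 ^ t * μ ^ 2)) ≤ 1 / 2 := by
      have hpos : (0 : ℝ) < 2 ^ t * μ ^ 2 := by positivity
      rw [mul_one_div, div_le_div_iff₀ hpos (by norm_num)]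
      linarith
    linarith
  calc (1 / 2 : ℝ) ^ (t + 2) = (1 / 2) ^ (t + 1) * (1 / 2) := by rw [pow_succ]
    _ ≤ _ := mul_le_mul_of_nonneg_left h4 (by positivity)

end

end Pool.Agent.Helper6K1.BN
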