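import Pool.Agent.Helper6K1.BN.PolyAlg
import Pool.Agent.Helper6K1.BN.Defs

/-!
# From predictions of inner products with a unique certificate to a randomised algorithm
-/

set_option autoImplicit false

namespace Pool.Agent.Helper6K1.BN

open Finset BigOperators Pool.Agent.NPC
open Pool.Agent.H579R2.Spt (BL mem_BL ip rowsL rowsL_succ cd ip_poly rowsL_poly take_poly'
  drop_poly' two_pow_size_poly bits_poly ver ver_poly ver_iff Iso surv iso_count exists_scale
  card_short ind)

/-! ### Probabilities -/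

open Classical in
theorem prob_eq (n : ℕ) (P : List Bool → Prop) :
    prob n P = 𝔼 r ∈ BL n, (if P r then (1 : ℝ) else 0) := by
  have h1 : {r : List Bool | r.length = n ∧ P r} = ↑((BL n).filter P) := by
    ext r; simp
  rw [prob, h1, Set.ncard_coe_finset, expect_eq_sum_div_card, card_BL', Finset.card_filter]
  push_cast
  rfl

theorem prob_nonneg (n : ℕ) (P : List Bool → Prop) : 0 ≤ prob n P := by
  unfold prob; positivity

theorem prob_le_one (n : ℕ) (P : List Bool → Prop) : prob n P ≤ 1 := by
  classical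
  rw [prob_eq]
  exact expect_le (BL_nonempty n) fun r _ => by split_ifs <;> norm_num

theorem prob_mono {n : ℕ} {P R : List Bool → Prop} (h : ∀ r, r.length = n → P r → R r) :
    prob n P ≤ prob n R := by
  classical
  rw [prob_eq, prob_eq]
  refine expect_le_expect fun r hr => ?_
  by_cases hP : P r
  · rw [if_pos hP, if_pos (h r (mem_BL.1 hr) hP)]
  · rw [if_neg hP]; split_ifs <;> norm_num

/-- some block of a random string is accepted -/
theorem expect_any (n i : ℕ) (G : List Bool → Bool) :
    𝔼 l ∈ BLL n i, (if l.any G then (0 : ℝ) else 1) =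
      (𝔼 u ∈ BL n, (if G u then (0 : ℝ) else 1)) ^ i := by
  induction i with
  | zero => rw [expect_BLL_zero]; simp
  | succ i ih =>
    rw [expect_BLL_succ, pow_succ, ← ih]
    have h1 : ∀ u ∈ BL n, 𝔼 l ∈ BLL n i, (if (u :: l).any G then (0 : ℝ) else 1) =
        (𝔼 l ∈ BLL n i, (if l.any G then (0 : ℝ) else 1)) * (if G u then (0 : ℝ) else 1) := by
      intro u _
      rw [expect_mul]
      refine expect_congr rfl fun l _ => ?_
      rw [List.any_cons]
      cases G u <;> cases l.any G <;> simp
    rw [expect_congr rfl h1, ← mul_expect]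

/-! ### One trial -/

/-- the type of predictors: input, rows, hint, vector, coins -/
abbrev Pred : Type := List Bool × List (List Bool) × List Bool × List Bool × List Bool → Bool

section

variable (V0 : List Bool → List Bool) (p : Polynomial ℕ) (B : Pred) (A Q : Polynomial ℕ)

/-- the length of the vectors -/
def mm (x : List Bool) : ℕ := p.eval x.length + 1

/-- the number of seeds minus one -/
def tt (x : List Bool) : ℕ :=
  Nat.size (2 * mm p x * (Q.eval x.length * Q.eval x.length))

/-- the trial with `k` rows -/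
def trialk (x : List Bool) (k : ℕ) (r : List Bool) : Bool :=
  ver V0 p x (uncd (decS (fun u d => B (x, rowsL (mm p x) k r,
      ((r.drop (k * mm p x)).drop ((tt p Q x + 1) * (mm p x + 1))).take (A.eval x.length), u, d))
    (mm p x) (rowsL (mm p x + 1) (tt p Q x + 1) (r.drop (k * mm p x)))
    (rowsL (A.eval x.length) (2 ^ tt p Q x)
      (((r.drop (k * mm p x)).drop ((tt p Q x + 1) * (mm p x + 1))).drop (A.eval x.length)))))

/-- the trial -/
def trialA (x r : List Bool) : Bool :=
  (List.range (mm p x + 2)).any fun k => trialk V0 p B A Q x (min k (mm p x + 2)) r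

variable {V0 p B A Q}

theorem trialk_poly (hV0 : PolyTime V0) (hB : Poly B) :
    Poly (fun q : (List Bool × List Bool) × ℕ =>
      trialk V0 p B A Q q.1.1 (min q.2 (mm p q.1.1 + 2)) q.1.2) := by
  have e0 : Poly (fun q : (List Bool × List Bool) × ℕ => q.1) := NPC.Poly.fst NPC.Poly.id
  have ex : Poly (fun q : (List Bool × List Bool) × ℕ => q.1.1) := NPC.Poly.fst e0
  have er : Poly (fun q : (List Bool × List Bool) × ℕ => q.1.2) := NPC.Poly.snd e0
  have ek : Poly (fun q : (List Bool × List Bool) × ℕ => q.2) := NPC.Poly.snd NPC.Poly.id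
  have um : UPoly (fun q : (List Bool × List Bool) × ℕ => mm p q.1.1) :=
    ((UPoly.length ex).eval p).add (UPoly.const 1)
  have uA : UPoly (fun q : (List Bool × List Bool) × ℕ => A.eval q.1.1.length) :=
    (UPoly.length ex).eval A
  have uQ : UPoly (fun q : (List Bool × List Bool) × ℕ => Q.eval q.1.1.length) :=
    (UPoly.length ex).eval Q
  have uX : UPoly (fun q : (List Bool × List Bool) × ℕ =>
      2 * mm p q.1.1 * (Q.eval q.1.1.length * Q.eval q.1.1.length)) :=
    ((UPoly.const 2).mul um).mul (uQ.mul uQ)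
  have uN : UPoly (fun q : (List Bool × List Bool) × ℕ => 2 ^ tt p Q q.1.1) :=
    two_pow_size_poly uX
  have ut : UPoly (fun q : (List Bool × List Bool) × ℕ => tt p Q q.1.1) := by
    have h1 : Poly (fun q : (List Bool × List Bool) × ℕ =>
      (2 * mm p q.1.1 * (Q.eval q.1.1.length * Q.eval q.1.1.length)).bits) :=
      NPC.Poly.natBits uX.toPoly
    have h2 := UPoly.length h1
    have h3 : (fun q : (List Bool × List Bool) × ℕ => tt p Q q.1.1) = fun q =>
        (2 * mm p q.1.1 * (Q.eval q.1.1.length * Q.eval q.1.1.length)).bits.length := by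
      funext q
      exact (Nat.size_eq_bits_len _).symm
    rw [h3]
    exact h2
  have uk : UPoly (fun q : (List Bool × List Bool) × ℕ => min q.2 (mm p q.1.1 + 2)) :=
    UPoly.of_le (NPC.Poly.min ek (um.add (UPoly.const 2)).toPoly) (um.add (UPoly.const 2))
      fun _ => min_le_right _ _
  have erows : Poly (fun q : (List Bool × List Bool) × ℕ =>
      rowsL (mm p q.1.1) (min q.2 (mm p q.1.1 + 2)) q.1.2) := rowsL_poly um.toPoly uk er
  have er1 : Poly (fun q : (List Bool × List Bool) × ℕ =>
      q.1.2.drop (min q.2 (mm p q.1.1 + 2) * mm p q.1.1)) :=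
    drop_poly' er (uk.mul um).toPoly
  have eS : Poly (fun q : (List Bool × List Bool) × ℕ =>
      rowsL (mm p q.1.1 + 1) (tt p Q q.1.1 + 1)
        (q.1.2.drop (min q.2 (mm p q.1.1 + 2) * mm p q.1.1))) :=
    rowsL_poly (um.add (UPoly.const 1)).toPoly (ut.add (UPoly.const 1)) er1
  have er2 : Poly (fun q : (List Bool × List Bool) × ℕ =>
      (q.1.2.drop (min q.2 (mm p q.1.1 + 2) * mm p q.1.1)).drop
        ((tt p Q q.1.1 + 1) * (mm p q.1.1 + 1))) :=
    drop_poly' er1 ((ut.add (UPoly.const 1)).mul (um.add (UPoly.const 1))).toPoly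
  have eh := take_poly' er2 uA.toPoly
  have er3 := drop_poly' er2 uA.toPoly
  have eC : Poly (fun q : (List Bool × List Bool) × ℕ =>
      rowsL (A.eval q.1.1.length) (2 ^ tt p Q q.1.1)
        (((q.1.2.drop (min q.2 (mm p q.1.1 + 2) * mm p q.1.1)).drop
        ((tt p Q q.1.1 + 1) * (mm p q.1.1 + 1))).drop (A.eval q.1.1.length))) :=
    rowsL_poly uA.toPoly uN er3
  unfold trialk
  refine (ver_poly hV0 p).comp (NPC.Poly.pair ex (uncd_poly ?_))
  refine decS_poly (Bf := fun (q : (List Bool × List Bool) × ℕ) u d =>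
    B (q.1.1, rowsL (mm p q.1.1) (min q.2 (mm p q.1.1 + 2)) q.1.2,
      ((q.1.2.drop (min q.2 (mm p q.1.1 + 2) * mm p q.1.1)).drop
        ((tt p Q q.1.1 + 1) * (mm p q.1.1 + 1))).take (A.eval q.1.1.length), u, d))
    ?_ um eS eC uN (fun q => ?_)
  · have g0 : Poly (fun z : ((List Bool × List Bool) × ℕ) × (List Bool × List Bool) => z.1) :=
      NPC.Poly.fst NPC.Poly.id
    exact hB.comp (NPC.Poly.pair (ex.comp g0) (NPC.Poly.pair (erows.comp g0)
      (NPC.Poly.pair (eh.comp g0) (NPC.Poly.snd NPC.Poly.id))))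
  · rw [List.length_tail, rowsL_length]
    exact le_rfl

theorem trialA_poly (hV0 : PolyTime V0) (hB : Poly B) :
    Poly (fun q : List Bool × List Bool => trialA V0 p B A Q q.1 q.2) := by
  unfold trialA
  have um : UPoly (fun q : List Bool × List Bool => mm p q.1) :=
    ((UPoly.length (NPC.Poly.fst NPC.Poly.id)).eval p).add (UPoly.const 1)
  exact NPC.Poly.any (l := fun q : List Bool × List Bool => List.range (mm p q.1 + 2))
    (p := fun q k => trialk V0 p B A Q q.1 (min k (mm p q.1 + 2)) q.2)
    (um.add (UPoly.const 2)).range (trialk_poly hV0 hB)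

/-! ### The probability of success of one trial -/

/-- `w` is the only certificate that is orthogonal to the rows. -/
def Unq (V0 : List Bool → List Bool) (p : Polynomial ℕ) (x : List Bool) (rows : List (List Bool))
    (w : List Bool) : Prop :=
  ver V0 p x w = true ∧ rows.all (fun u => !ip u (cd w)) = true ∧
    ∀ w', ver V0 p x w' = true → rows.all (fun u => !ip u (cd w')) = true → w' = w

/-- The hypothesis: the predictor has an advantage. -/
def Good (V0 : List Bool → List Bool) (p : Polynomial ℕ) (B : Pred) (A Q : Polynomial ℕ) : Prop :=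
  ∀ (x : List Bool) (rows : List (List Bool)) (w : List Bool), rows.length ≤ mm p x + 1 →
    (∀ u ∈ rows, u.length = mm p x) → Unq V0 p x rows w →
    1 / ((Q.eval x.length : ℕ) : ℝ) ≤ 𝔼 h ∈ BL (A.eval x.length),
      (if 1 / ((Q.eval x.length : ℕ) : ℝ) ≤ 𝔼 u ∈ BL (mm p x), 𝔼 d ∈ BL (A.eval x.length),
        sg (B (x, rows, h, u, d) ^^ ip u (cd w)) then (1 : ℝ) else 0)

open Classical in
theorem trial_rows (hgood : Good V0 p B A Q) (hQ : ∀ n, 1 ≤ Q.eval n) {x : List Bool}
    {rows : List (List Bool)} {w : List Bool} (h1 : rows.length ≤ mm p x + 1)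
    (h2 : ∀ u ∈ rows, u.length = mm p x) (h3 : Unq V0 p x rows w) :
    1 / ((Q.eval x.length : ℕ) : ℝ) * (1 / 2) ^ (tt p Q x + 2) ≤
      𝔼 S ∈ BLL (mm p x + 1) (tt p Q x + 1), 𝔼 h ∈ BL (A.eval x.length),
        𝔼 C ∈ BLL (A.eval x.length) (2 ^ tt p Q x),
        (if ver V0 p x (uncd (decS (fun u d => B (x, rows, h, u, d)) (mm p x) S C)) = true
          then (1 : ℝ) else 0) := by
  set m := mm p x with hm
  set a := A.eval x.length with ha
  set t := tt p Q x with ht
  set q : ℝ := ((Q.eval x.length : ℕ) : ℝ) with hq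
  have hq1 : (1 : ℝ) ≤ q := by rw [hq]; exact_mod_cast hQ x.length
  have hwl : w.length + 1 ≤ m := by
    have := (ver_iff.1 h3.1).1
    rw [hm, mm]; omega
  rw [expect_comm]
  have h4 : ∀ h ∈ BL a, (1 / 2 : ℝ) ^ (t + 2) *
      (if 1 / q ≤ 𝔼 u ∈ BL m, 𝔼 d ∈ BL a, sg (B (x, rows, h, u, d) ^^ ip u (cd w))
        then (1 : ℝ) else 0) ≤
      𝔼 S ∈ BLL (m + 1) (t + 1), 𝔼 C ∈ BLL a (2 ^ t),
        (if ver V0 p x (uncd (decS (fun u d => B (x, rows, h, u, d)) m S C)) = true
          then (1 : ℝ) else 0) := by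
    intro h _
    split_ifs with hh
    · rw [mul_one]
      refine (expect_decS (fun u d => B (x, rows, h, u, d)) (cd w) t hh (by positivity) ?_).trans ?_
      · have h5 : 2 * m * (Q.eval x.length * Q.eval x.length) < 2 ^ t := by
          rw [ht, tt, ← hm]
          exact Nat.lt_size_self _
        have h6 : (2 * (m : ℝ) * (q * q)) ≤ 2 ^ t := by
          rw [hq]; exact_mod_cast h5.le
        rw [div_pow, one_pow, mul_one_div, le_div_iff₀ (by positivity)]
        calc 2 * (m : ℝ) * q ^ 2 = 2 * (m : ℝ) * (q * q) := by ring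
          _ ≤ 2 ^ t := h6
      · refine expect_le_expect fun S _ => expect_le_expect fun C _ => ?_
        by_cases hd : decS (fun u d => B (x, rows, h, u, d)) m S C =
            (List.range m).map (fun i => (cd w).getD i false)
        · rw [if_pos hd, if_pos]
          rw [hd, uncd_pad w m hwl]
          exact h3.1
        · rw [if_neg hd]; split_ifs <;> norm_num
    · rw [mul_zero]
      exact expect_nonneg fun S _ => expect_nonneg fun C _ => by split_ifs <;> norm_num
  refine le_trans ?_ (expect_le_expect h4)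
  rw [← mul_expect, mul_comm]
  exact mul_le_mul_of_nonneg_left (hgood x rows w h1 h2 h3) (by positivity)

open Classical in
theorem trial_prob (hgood : Good V0 p B A Q) (hQ : ∀ n, 1 ≤ Q.eval n) {x w0 : List Bool}
    (hw0 : ver V0 p x w0 = true) {L : ℕ}
    (hL : (mm p x + 1) * mm p x + ((tt p Q x + 1) * (mm p x + 1) +
      (A.eval x.length + 2 ^ tt p Q x * A.eval x.length)) ≤ L) :
    1 / (32 * ((Q.eval x.length : ℕ) : ℝ) * 2 ^ tt p Q x) ≤
      𝔼 r ∈ BL L, (if trialA V0 p B A Q x r = true then (1 : ℝ) else 0) := by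
  set m := mm p x with hm
  set a := A.eval x.length with ha
  set t := tt p Q x with ht
  set q : ℝ := ((Q.eval x.length : ℕ) : ℝ) with hq
  have hq1 : (1 : ℝ) ≤ q := by rw [hq]; exact_mod_cast hQ x.length
  -- the finite set of certificates
  have hfin : {w | ver V0 p x w = true}.Finite := by
    refine (List.finite_length_le Bool (p.eval x.length)).subset fun w hw => ?_
    exact (ver_iff.1 hw).1
  set W : Finset (List Bool) := hfin.toFinset with hW
  have hWm : ∀ w, w ∈ W ↔ ver V0 p x w = true := fun w => by rw [hW]; simp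
  have hWs : ∀ w ∈ W, w.length + 1 ≤ m := fun w hw => by
    have := (ver_iff.1 ((hWm w).1 hw)).1
    rw [hm, mm]; omega
  have hW1 : 1 ≤ W.card := Finset.card_pos.2 ⟨w0, (hWm w0).2 hw0⟩
  obtain ⟨k, hkm, hk1, hk2⟩ := exists_scale W.card m hW1 (card_short m W hWs)
  -- isolation
  have hiso := iso_count m 0 W hWs k hk1 hk2 (fun r => decide (∃ w, Iso m k W r w))
    (fun r hr => by simpa using hr)
  have hiso2 : (3 : ℝ) / 16 ≤ 𝔼 rows ∈ BLL m k,
      (if ∃ w, Unq V0 p x rows w then (1 : ℝ) else 0) := by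
    have h5 := expect_rows m k 0
      (fun rows _ => if ∃ w, Unq V0 p x rows w then (1 : ℝ) else 0)
    have h6 : ∀ rows ∈ BLL m k, 𝔼 v ∈ BL 0, (if ∃ w, Unq V0 p x rows w then (1 : ℝ) else 0) =
        if ∃ w, Unq V0 p x rows w then (1 : ℝ) else 0 := fun rows _ => by
      rw [expect_BL_zero]
    rw [expect_congr rfl h6] at h5
    rw [← h5, expect_eq_sum_div_card, card_BL', le_div_iff₀ (by positivity)]
    have h7 : ∑ r ∈ BL (k * m + 0), (if ∃ w, Unq V0 p x (rowsL m k r) w then (1 : ℝ) else 0) =
        ((∑ r ∈ BL (k * m + 0), ind (decide (∃ w, Iso m k W r w)) : ℤ) : ℝ) := by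
      push_cast
      refine sum_congr rfl fun r _ => ?_
      have h8 : (∃ w, Unq V0 p x (rowsL m k r) w) ↔ ∃ w, Iso m k W r w := by
        refine exists_congr fun w => ?_
        unfold Unq Iso surv
        rw [hWm]
        refine and_congr_right fun _ => and_congr_right fun _ => ?_
        exact forall_congr' fun w' => by rw [hWm]
      by_cases h9 : ∃ w, Iso m k W r w
      · rw [if_pos (h8.2 h9)]; simp [ind, h9]
      · rw [if_neg fun h => h9 (h8.1 h)]; simp [ind, h9]
    rw [h7]
    have h10 : ((3 * 2 ^ (k * m + 0) : ℤ) : ℝ) ≤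
        ((16 * ∑ r ∈ BL (k * m + 0), ind (decide (∃ w, Iso m k W r w)) : ℤ) : ℝ) := by
      exact_mod_cast hiso
    push_cast at h10 ⊢
    linarith
  -- lengths
  have hkm' : k * m ≤ (m + 1) * m := Nat.mul_le_mul_right m hkm
  obtain ⟨s, hs⟩ : ∃ s, L = k * m + ((t + 1) * (m + 1) + (a + (2 ^ t * a + s))) :=
    ⟨L - (k * m + ((t + 1) * (m + 1) + (a + 2 ^ t * a))), by omega⟩
  -- reduction to the trial with `k` rows
  have hred : 𝔼 r ∈ BL L, (if trialk V0 p B A Q x k r = true then (1 : ℝ) else 0) ≤
      𝔼 r ∈ BL L, (if trialA V0 p B A Q x r = true then (1 : ℝ) else 0) := by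
    refine expect_le_expect fun r _ => ?_
    by_cases hk : trialk V0 p B A Q x k r = true
    · rw [if_pos hk, if_pos]
      unfold trialA
      rw [List.any_eq_true]
      refine ⟨k, List.mem_range.2 (by omega), ?_⟩
      rw [← hm, min_eq_left (by omega)]
      exact hk
    · rw [if_neg hk]; split_ifs <;> norm_num
  refine le_trans ?_ hred
  -- the expectation
  have hexp : 𝔼 r ∈ BL L, (if trialk V0 p B A Q x k r = true then (1 : ℝ) else 0) =
      𝔼 rows ∈ BLL m k, 𝔼 S ∈ BLL (m + 1) (t + 1), 𝔼 h ∈ BL a,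
        𝔼 C ∈ BLL a (2 ^ t),
        (if ver V0 p x (uncd (decS (fun u d => B (x, rows, h, u, d)) m S C)) = true
          then (1 : ℝ) else 0) := by
    rw [hs]
    refine (expect_rows m k _ (fun rows r1 => if ver V0 p x (uncd (decS (fun u d => B (x, rows,
      (r1.drop ((t + 1) * (m + 1))).take a, u, d)) m (rowsL (m + 1) (t + 1) r1)
      (rowsL a (2 ^ t) ((r1.drop ((t + 1) * (m + 1))).drop a)))) = true
      then (1 : ℝ) else 0)).trans ?_
    refine expect_congr rfl fun rows _ => ?_
    refine (expect_rows (m + 1) (t + 1) _ (fun S r2 => if ver V0 p x (uncd (decS (fun u d =>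
      B (x, rows, r2.take a, u, d)) m S (rowsL a (2 ^ t) (r2.drop a)))) = true
      then (1 : ℝ) else 0)).trans ?_
    refine expect_congr rfl fun S _ => ?_
    refine (expect_BL_split a _ (fun h r3 => if ver V0 p x (uncd (decS (fun u d =>
      B (x, rows, h, u, d)) m S (rowsL a (2 ^ t) r3))) = true
      then (1 : ℝ) else 0)).trans ?_
    refine expect_congr rfl fun h _ => ?_
    refine (expect_rows a (2 ^ t) s (fun C _ => if ver V0 p x (uncd (decS (fun u d =>
      B (x, rows, h, u, d)) m S C)) = true then (1 : ℝ) else 0)).trans ?_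
    exact expect_congr rfl fun C _ => expect_const (BL_nonempty s) _
  rw [hexp]
  have h11 : ∀ rows ∈ BLL m k, (1 / q * (1 / 2) ^ (t + 2)) *
      (if ∃ w, Unq V0 p x rows w then (1 : ℝ) else 0) ≤
      𝔼 S ∈ BLL (m + 1) (t + 1), 𝔼 h ∈ BL a, 𝔼 C ∈ BLL a (2 ^ t),
        (if ver V0 p x (uncd (decS (fun u d => B (x, rows, h, u, d)) m S C)) = true
          then (1 : ℝ) else 0) := by
    intro rows hrows
    have h12 := mem_BLL.1 hrows
    split_ifs with hU
    · obtain ⟨w, hw⟩ := hU
      rw [mul_one]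
      exact trial_rows hgood hQ (by rw [h12.1]; exact hkm) h12.2 hw
    · rw [mul_zero]
      exact expect_nonneg fun S _ => expect_nonneg fun h _ => expect_nonneg fun C _ => by
        split_ifs <;> norm_num
  refine le_trans ?_ (expect_le_expect h11)
  rw [← mul_expect]
  have h13 : (1 / q * (1 / 2) ^ (t + 2)) * (3 / 16) ≤ (1 / q * (1 / 2) ^ (t + 2)) *
      𝔼 rows ∈ BLL m k, (if ∃ w, Unq V0 p x rows w then (1 : ℝ) else 0) :=
    mul_le_mul_of_nonneg_left hiso2 (by positivity)
  refine le_trans ?_ h13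
  have h14 : (1 / q * (1 / 2) ^ (t + 2)) * (3 / 16) = 3 / (64 * q * 2 ^ t) := by
    rw [pow_add, div_pow, one_pow]
    field_simp
    norm_num
  rw [h14, div_le_div_iff₀ (by positivity) (by positivity)]
  have : (0 : ℝ) < q * 2 ^ t := by positivity
  nlinarith

end

end Pool.Agent.Helper6K1.BN
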