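import Pool.Agent.H579R2.Spt.VV3

/-!
# Averages over bit strings and over lists of blocks
-/

set_option autoImplicit false

namespace Pool.Agent.Helper6K1.BN

open Finset BigOperators Pool.Agent.NPC
open Pool.Agent.H579R2.Spt (BL mem_BL BL_zero BL_succ ip rowsL rowsL_succ ip_cons ip_nil_right ip_nil_left)

theorem BL_nonempty (n : ℕ) : (BL n).Nonempty := ⟨List.replicate n false, by simp⟩

theorem expect_BL_zero (f : List Bool → ℝ) : 𝔼 r ∈ BL 0, f r = f [] := by
  rw [BL_zero, expect_singleton]

theorem expect_BL_add (a b : ℕ) (f : List Bool → ℝ) :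
    𝔼 r ∈ BL (a + b), f r = 𝔼 u ∈ BL a, 𝔼 v ∈ BL b, f (u ++ v) := by
  rw [← expect_product' (BL a) (BL b) fun u v => f (u ++ v)]
  refine expect_nbij' (fun r => (r.take a, r.drop a)) (fun q => q.1 ++ q.2) ?_ ?_ ?_ ?_ ?_
  · intro r hr
    rw [mem_BL] at hr
    simp [hr]
  · rintro ⟨u, v⟩ h
    simp only [mem_product, mem_BL] at h
    simp [h.1, h.2]
  · intro r _
    simp
  · rintro ⟨u, v⟩ h
    simp only [mem_product, mem_BL] at h
    simp [← h.1]
  · intro r _
    simp

theorem expect_BL_split (a b : ℕ) (f : List Bool → List Bool → ℝ) :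
    𝔼 r ∈ BL (a + b), f (r.take a) (r.drop a) = 𝔼 u ∈ BL a, 𝔼 v ∈ BL b, f u v := by
  rw [expect_BL_add]
  refine expect_congr rfl fun u hu => expect_congr rfl fun v _ => ?_
  rw [mem_BL] at hu
  rw [← hu]
  simp

theorem expect_BL_one (f : List Bool → ℝ) : 𝔼 r ∈ BL 1, f r = (f [true] + f [false]) / 2 := by
  have h : BL 1 = {[true], [false]} := by
    rw [show (1 : ℕ) = 0 + 1 from rfl, BL_succ, BL_zero]
    ext r; simp
  rw [h, expect_eq_sum_div_card, sum_pair (by simp), card_pair (by simp)]
  norm_num

theorem expect_BL_succ (n : ℕ) (f : List Bool → ℝ) :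
    𝔼 r ∈ BL (n + 1), f r = (𝔼 r ∈ BL n, f (true :: r) + 𝔼 r ∈ BL n, f (false :: r)) / 2 := by
  rw [add_comm n 1, expect_BL_add, expect_BL_one]
  simp

/-- the unused part of the random string -/
theorem expect_BL_take (a b : ℕ) (f : List Bool → ℝ) :
    𝔼 r ∈ BL (a + b), f (r.take a) = 𝔼 u ∈ BL a, f u := by
  rw [expect_BL_split a b fun u _ => f u]
  exact expect_congr rfl fun u _ => expect_const (BL_nonempty b) _

theorem card_BL' (n : ℕ) : ((BL n).card : ℝ) = 2 ^ n := by
  have := Pool.Agent.H579R2.Spt.card_BL n
  have h : (((BL n).card : ℤ) : ℝ) = ((2 ^ n : ℤ) : ℝ) := by rw [this]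
  simpa using h

/-! ### Lists of blocks -/

/-- the lists of `n` blocks of length `a` -/
noncomputable def BLL (a : ℕ) : ℕ → Finset (List (List Bool))
  | 0 => {[]}
  | n + 1 => (BL a ×ˢ BLL a n).image fun q => q.1 :: q.2

theorem mem_BLL {a n : ℕ} {l : List (List Bool)} :
    l ∈ BLL a n ↔ l.length = n ∧ ∀ u ∈ l, u.length = a := by
  induction n generalizing l with
  | zero =>
    simp only [BLL, Finset.mem_singleton, List.length_eq_zero_iff]
    constructor
    · rintro rfl; simp
    · exact fun h => h.1
  | succ n ih =>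
    simp only [BLL, mem_image, mem_product, mem_BL, Prod.exists]
    constructor
    · rintro ⟨u, t, ⟨hu, ht⟩, rfl⟩
      have := ih.1 ht
      refine ⟨by simp [this.1], fun v hv => ?_⟩
      rcases List.mem_cons.1 hv with h | h
      · rw [h, hu]
      · exact this.2 v h
    · rintro ⟨h1, h2⟩
      cases l with
      | nil => simp at h1
      | cons u t =>
        refine ⟨u, t, ⟨h2 u (by simp), ih.2 ⟨by simpa using h1, fun v hv => h2 v (by simp [hv])⟩⟩,
          rfl⟩

theorem BLL_nonempty (a n : ℕ) : (BLL a n).Nonempty :=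
  ⟨List.replicate n (List.replicate a false), mem_BLL.2 ⟨by simp, fun u hu => by
    rw [List.eq_of_mem_replicate hu]; simp⟩⟩

theorem expect_BLL_zero (a : ℕ) (f : List (List Bool) → ℝ) : 𝔼 l ∈ BLL a 0, f l = f [] := by
  rw [BLL, expect_singleton]

theorem expect_BLL_succ (a n : ℕ) (f : List (List Bool) → ℝ) :
    𝔼 l ∈ BLL a (n + 1), f l = 𝔼 u ∈ BL a, 𝔼 l ∈ BLL a n, f (u :: l) := by
  rw [BLL, expect_image, expect_product' (BL a) (BLL a n) fun u l => f (u :: l)]
  intro x _ y _ h
  simp only [List.cons.injEq] at h
  exact Prod.ext h.1 h.2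

theorem expect_BLL_add (a n m : ℕ) (f : List (List Bool) → ℝ) :
    𝔼 l ∈ BLL a (n + m), f l = 𝔼 l ∈ BLL a n, 𝔼 l' ∈ BLL a m, f (l ++ l') := by
  induction n generalizing f with
  | zero => rw [Nat.zero_add, expect_BLL_zero]; simp
  | succ n ih =>
    rw [show n + 1 + m = (n + m) + 1 from by omega, expect_BLL_succ, expect_BLL_succ]
    refine expect_congr rfl fun u _ => ?_
    rw [ih]
    simp

/-- A random string of length `n a + b` as `n` blocks and a rest. -/
theorem expect_rows (a n b : ℕ) (f : List (List Bool) → List Bool → ℝ) :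
    𝔼 r ∈ BL (n * a + b), f (rowsL a n r) (r.drop (n * a)) =
      𝔼 l ∈ BLL a n, 𝔼 v ∈ BL b, f l v := by
  induction n generalizing f with
  | zero =>
    rw [expect_BLL_zero, Nat.zero_mul, Nat.zero_add]
    simp [rowsL]
  | succ n ih =>
    rw [show (n + 1) * a + b = a + (n * a + b) from by ring, expect_BLL_succ]
    have h1 : ∀ r ∈ BL (a + (n * a + b)), f (rowsL a (n + 1) r) (r.drop ((n + 1) * a)) =
        (fun u v => f (u :: rowsL a n v) (v.drop (n * a))) (r.take a) (r.drop a) := by
      intro r _
      simp only [rowsL_succ, List.drop_drop]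
      congr 2
      ring
    rw [expect_congr rfl h1, expect_BL_split a (n * a + b)
      fun u v => f (u :: rowsL a n v) (v.drop (n * a))]
    exact expect_congr rfl fun u _ => ih fun l v => f (u :: l) v

theorem rowsL_length (m k : ℕ) (r : List Bool) : (rowsL m k r).length = k := by simp [rowsL]

/-! ### The vector space -/

/-- the sign of a bit -/
def sg (b : Bool) : ℝ := if b then -1 else 1

@[simp] theorem sg_true : sg true = -1 := rfl
@[simp] theorem sg_false : sg false = 1 := rfl

theorem sg_xor (a b : Bool) : sg (a ^^ b) = sg a * sg b := by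
  cases a <;> cases b <;> simp [sg]

theorem sg_sq (a : Bool) : sg a * sg a = 1 := by cases a <;> simp [sg]

theorem abs_sg (a : Bool) : |sg a| = 1 := by cases a <;> simp [sg]

/-- sum of two vectors -/
def xv (u v : List Bool) : List Bool := List.zipWith (fun a b => a ^^ b) u v

theorem xv_cons (a b : Bool) (u v : List Bool) : xv (a :: u) (b :: v) = (a ^^ b) :: xv u v := rfl

theorem xv_length {u v : List Bool} {m : ℕ} (hu : u.length = m) (hv : v.length = m) :
    (xv u v).length = m := by
  simp [xv, hu, hv]

theorem xv_comm (u v : List Bool) : xv u v = xv v u := by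
  induction u generalizing v with
  | nil => cases v <;> simp [xv]
  | cons a u ih =>
    cases v with
    | nil => simp [xv]
    | cons b v => rw [xv_cons, xv_cons, ih, Bool.xor_comm]

theorem xv_assoc (u v w : List Bool) : xv (xv u v) w = xv u (xv v w) := by
  induction u generalizing v w with
  | nil => simp [xv]
  | cons a u ih =>
    cases v with
    | nil => simp [xv]
    | cons b v =>
      cases w with
      | nil => simp [xv]
      | cons c w => simp only [xv_cons, ih, Bool.xor_assoc]

theorem xv_xv {u v : List Bool} (h : u.length = v.length) : xv (xv u v) v = u := by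
  induction u generalizing v with
  | nil => cases v <;> simp [xv]
  | cons a u ih =>
    cases v with
    | nil => simp at h
    | cons b v =>
      rw [xv_cons, xv_cons, ih (by simpa using h)]
      simp

theorem ip_xv {u v c : List Bool} (h : u.length = v.length) : ip (xv u v) c = (ip u c ^^ ip v c) := by
  induction u generalizing v c with
  | nil =>
    cases v with
    | nil => simp [xv]
    | cons b v => simp at h
  | cons a u ih =>
    cases v with
    | nil => simp at h
    | cons b v =>
      cases c with
      | nil => simp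
      | cons e c =>
        rw [xv_cons, ip_cons, ip_cons, ip_cons, ih (by simpa using h)]
        cases a <;> cases b <;> cases e <;> simp

/-- Averages are invariant under translations. -/
theorem expect_shift {m : ℕ} {s : List Bool} (hs : s.length = m) (f : List Bool → ℝ) :
    𝔼 u ∈ BL m, f (xv u s) = 𝔼 u ∈ BL m, f u := by
  refine expect_nbij' (fun u => xv u s) (fun u => xv u s) ?_ ?_ ?_ ?_ ?_
  · intro u hu
    rw [mem_BL] at hu ⊢
    exact xv_length hu hs
  · intro u hu
    rw [mem_BL] at hu ⊢
    exact xv_length hu hs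
  · intro u hu
    rw [mem_BL] at hu
    exact xv_xv (by rw [hu, hs])
  · intro u hu
    rw [mem_BL] at hu
    exact xv_xv (by rw [hu, hs])
  · intro u _; rfl

/-- Orthogonality of characters. -/
theorem expect_char {k : ℕ} {v t : List Bool} (hv : v.length = k) (ht : t.length = k) :
    𝔼 c ∈ BL k, sg (ip c v) * sg (ip c t) = if v = t then 1 else 0 := by
  induction k generalizing v t with
  | zero =>
    rw [expect_BL_zero, List.length_eq_zero_iff.1 hv, List.length_eq_zero_iff.1 ht]
    simp
  | succ k ih =>
    cases v with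
    | nil => simp at hv
    | cons a v =>
      cases t with
      | nil => simp at ht
      | cons b t =>
        rw [expect_BL_succ]
        simp only [ip_cons, sg_xor, Bool.true_and, Bool.false_and, sg_false, one_mul]
        have h := ih (v := v) (t := t) (by simpa using hv) (by simpa using ht)
        have h1 : ∀ c : List Bool, sg a * sg (ip c v) * (sg b * sg (ip c t)) =
            sg a * sg b * (sg (ip c v) * sg (ip c t)) := fun c => by ring
        simp only [h1]
        rw [← mul_expect, h]
        by_cases hvt : v = t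
        · subst hvt
          cases a <;> cases b <;> simp
        · have h2 : a :: v ≠ b :: t := by simp [hvt]
          simp [hvt]

end Pool.Agent.Helper6K1.BN
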