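import Pool.Agent.Helper6K1.BN.Ex

/-!
# Pairwise independent sampling on affine subspaces (after Goldreich and Levin)
-/

set_option autoImplicit false

namespace Pool.Agent.Helper6K1.BN

open Finset BigOperators Pool.Agent.NPC
open Pool.Agent.H579R2.Spt (BL mem_BL ip rowsL)

/-- the points `u + (sum of some of the seeds)` -/
def pts : List (List Bool) → List Bool → List (List Bool)
  | [], u => [u]
  | s :: ss, u => pts ss u ++ pts ss (xv u s)

theorem pts_length (ss : List (List Bool)) (u : List Bool) :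
    (pts ss u).length = 2 ^ ss.length := by
  induction ss generalizing u with
  | nil => simp [pts]
  | cons s ss ih =>
    rw [pts, List.length_append, ih, ih, List.length_cons, pow_succ]
    ring

/-- the sum of the values `X` at the points, with fresh coins for each point -/
def Z (X : List Bool → List Bool → ℝ) (ss : List (List Bool)) (u : List Bool)
    (cs : List (List Bool)) : ℝ :=
  (((pts ss u).zip cs).map fun q => X q.1 q.2).sum

theorem Z_cons (X : List Bool → List Bool → ℝ) (s : List Bool) (ss : List (List Bool))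
    (u : List Bool) {c d : List (List Bool)} (hc : c.length = 2 ^ ss.length) :
    Z X (s :: ss) u (c ++ d) = Z X ss u c + Z X ss (xv u s) d := by
  unfold Z
  rw [pts, List.zip_append (by rw [pts_length, hc]), List.map_append, List.sum_append]

section

variable {m a : ℕ} (X : List Bool → List Bool → ℝ)

theorem expect_Z {t : ℕ} : ∀ {ss : List (List Bool)}, ss ∈ BLL m t →
    𝔼 u ∈ BL m, 𝔼 cs ∈ BLL a (2 ^ t), Z X ss u cs =
      2 ^ t * 𝔼 u ∈ BL m, 𝔼 c ∈ BL a, X u c := by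
  induction t with
  | zero =>
    intro ss hss
    have h0 : ss = [] := by
      have := (mem_BLL.1 hss).1
      exact List.length_eq_zero_iff.1 this
    subst h0
    rw [show (2 : ℝ) ^ 0 = 1 from pow_zero _, one_mul]
    refine expect_congr rfl fun u _ => ?_
    rw [show (2 : ℕ) ^ 0 = 0 + 1 from rfl, expect_BLL_succ]
    refine expect_congr rfl fun c _ => ?_
    rw [expect_BLL_zero]
    simp [Z, pts]
  | succ t ih =>
    intro ss hss
    cases ss with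
    | nil => simpa using (mem_BLL.1 hss).1
    | cons s ss =>
      have h1 := mem_BLL.1 hss
      have hs : s.length = m := h1.2 s (by simp)
      have hss' : ss ∈ BLL m t :=
        mem_BLL.2 ⟨by simpa using h1.1, fun v hv => h1.2 v (by simp [hv])⟩
      have ht : ss.length = t := (mem_BLL.1 hss').1
      have h2 : ∀ u, 𝔼 cs ∈ BLL a (2 ^ (t + 1)), Z X (s :: ss) u cs =
          𝔼 c ∈ BLL a (2 ^ t), Z X ss u c + 𝔼 c ∈ BLL a (2 ^ t), Z X ss (xv u s) c := by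
        intro u
        rw [show 2 ^ (t + 1) = 2 ^ t + 2 ^ t from by rw [pow_succ]; ring, expect_BLL_add]
        have h3 : ∀ c ∈ BLL a (2 ^ t), 𝔼 d ∈ BLL a (2 ^ t), Z X (s :: ss) u (c ++ d) =
            Z X ss u c + 𝔼 d ∈ BLL a (2 ^ t), Z X ss (xv u s) d := by
          intro c hc
          have hcl : c.length = 2 ^ ss.length := by rw [ht]; exact (mem_BLL.1 hc).1
          rw [expect_congr rfl fun d _ => Z_cons X s ss u (d := d) hcl, expect_add_distrib,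
            expect_const (BLL_nonempty a _)]
        rw [expect_congr rfl h3, expect_add_distrib, expect_const (BLL_nonempty a _)]
      rw [expect_congr rfl fun u _ => h2 u, expect_add_distrib,
        expect_shift hs (fun u => 𝔼 c ∈ BLL a (2 ^ t), Z X ss u c), ih hss', pow_succ]
      ring

theorem expect_Z_sq (hX : ∀ u c, X u c * X u c ≤ 1) (t : ℕ) :
    𝔼 ss ∈ BLL m t, 𝔼 u ∈ BL m, 𝔼 cs ∈ BLL a (2 ^ t), Z X ss u cs * Z X ss u cs ≤
      2 ^ t + 4 ^ t * (𝔼 u ∈ BL m, 𝔼 c ∈ BL a, X u c) ^ 2 := by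
  induction t with
  | zero =>
    rw [expect_BLL_zero]
    have h1 : 𝔼 u ∈ BL m, 𝔼 cs ∈ BLL a (2 ^ 0), Z X [] u cs * Z X [] u cs ≤ 1 := by
      refine expect_le (BL_nonempty m) fun u _ => ?_
      refine expect_le (BLL_nonempty a _) fun cs hcs => ?_
      have := (mem_BLL.1 hcs).1
      rw [pow_zero] at this
      obtain ⟨c, rfl⟩ := List.length_eq_one_iff.1 this
      simpa [Z, pts] using hX u c
    have h2 : 0 ≤ (𝔼 u ∈ BL m, 𝔼 c ∈ BL a, X u c) ^ 2 := sq_nonneg _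
    simp only [pow_zero, one_mul] at h1 ⊢
    linarith
  | succ t ih =>
    set μ : ℝ := 𝔼 u ∈ BL m, 𝔼 c ∈ BL a, X u c with hμ
    rw [expect_BLL_succ]
    have key : ∀ s ∈ BL m, ∀ ss ∈ BLL m t, ∀ u ∈ BL m,
        𝔼 cs ∈ BLL a (2 ^ (t + 1)), Z X (s :: ss) u cs * Z X (s :: ss) u cs =
        𝔼 c ∈ BLL a (2 ^ t), Z X ss u c * Z X ss u c +
        𝔼 c ∈ BLL a (2 ^ t), Z X ss (xv u s) c * Z X ss (xv u s) c +
        2 * ((𝔼 c ∈ BLL a (2 ^ t), Z X ss u c) * 𝔼 c ∈ BLL a (2 ^ t), Z X ss (xv u s) c) := by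
      intro s _ ss hss u _
      have ht : ss.length = t := (mem_BLL.1 hss).1
      rw [show 2 ^ (t + 1) = 2 ^ t + 2 ^ t from by rw [pow_succ]; ring, expect_BLL_add]
      have h3 : ∀ c ∈ BLL a (2 ^ t), 𝔼 d ∈ BLL a (2 ^ t),
          Z X (s :: ss) u (c ++ d) * Z X (s :: ss) u (c ++ d) =
          Z X ss u c * Z X ss u c + 𝔼 d ∈ BLL a (2 ^ t), Z X ss (xv u s) d * Z X ss (xv u s) d +
          2 * (Z X ss u c * 𝔼 d ∈ BLL a (2 ^ t), Z X ss (xv u s) d) := by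
        intro c hc
        have hcl : c.length = 2 ^ ss.length := by rw [ht]; exact (mem_BLL.1 hc).1
        have h4 : ∀ d ∈ BLL a (2 ^ t), Z X (s :: ss) u (c ++ d) * Z X (s :: ss) u (c ++ d) =
            Z X ss u c * Z X ss u c + Z X ss (xv u s) d * Z X ss (xv u s) d +
            2 * (Z X ss u c * Z X ss (xv u s) d) := by
          intro d _
          rw [Z_cons X s ss u (d := d) hcl]
          ring
        rw [expect_congr rfl h4, expect_add_distrib, expect_add_distrib,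
          expect_const (BLL_nonempty a _), ← mul_expect, ← mul_expect]
      rw [expect_congr rfl h3, expect_add_distrib, expect_add_distrib,
        expect_const (BLL_nonempty a _), ← mul_expect, ← expect_mul]
    have e1 : 𝔼 s ∈ BL m, 𝔼 ss ∈ BLL m t, 𝔼 u ∈ BL m,
        𝔼 cs ∈ BLL a (2 ^ (t + 1)), Z X (s :: ss) u cs * Z X (s :: ss) u cs =
        𝔼 s ∈ BL m, 𝔼 ss ∈ BLL m t, (𝔼 u ∈ BL m, 𝔼 c ∈ BLL a (2 ^ t), Z X ss u c * Z X ss u c +
          𝔼 u ∈ BL m, 𝔼 c ∈ BLL a (2 ^ t), Z X ss (xv u s) c * Z X ss (xv u s) c +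
          2 * 𝔼 u ∈ BL m, ((𝔼 c ∈ BLL a (2 ^ t), Z X ss u c) *
            𝔼 c ∈ BLL a (2 ^ t), Z X ss (xv u s) c)) := by
      refine expect_congr rfl fun s hs => expect_congr rfl fun ss hss => ?_
      rw [expect_congr rfl fun u hu => key s hs ss hss u hu, expect_add_distrib,
        expect_add_distrib, ← mul_expect]
    have e2 : ∀ s ∈ BL m, ∀ ss ∈ BLL m t,
        𝔼 u ∈ BL m, 𝔼 c ∈ BLL a (2 ^ t), Z X ss (xv u s) c * Z X ss (xv u s) c =
        𝔼 u ∈ BL m, 𝔼 c ∈ BLL a (2 ^ t), Z X ss u c * Z X ss u c := by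
      intro s hs ss _
      exact expect_shift (mem_BL.1 hs) fun u => 𝔼 c ∈ BLL a (2 ^ t), Z X ss u c * Z X ss u c
    have e3 : 𝔼 s ∈ BL m, 𝔼 ss ∈ BLL m t, 𝔼 u ∈ BL m, ((𝔼 c ∈ BLL a (2 ^ t), Z X ss u c) *
            𝔼 c ∈ BLL a (2 ^ t), Z X ss (xv u s) c) = 4 ^ t * μ ^ 2 := by
      rw [expect_comm]
      have h5 : ∀ ss ∈ BLL m t, 𝔼 s ∈ BL m, 𝔼 u ∈ BL m, ((𝔼 c ∈ BLL a (2 ^ t), Z X ss u c) *
            𝔼 c ∈ BLL a (2 ^ t), Z X ss (xv u s) c) = 4 ^ t * μ ^ 2 := by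
        intro ss hss
        rw [expect_comm]
        have h6 : ∀ u ∈ BL m, 𝔼 s ∈ BL m, ((𝔼 c ∈ BLL a (2 ^ t), Z X ss u c) *
            𝔼 c ∈ BLL a (2 ^ t), Z X ss (xv u s) c) =
            (𝔼 c ∈ BLL a (2 ^ t), Z X ss u c) * (2 ^ t * μ) := by
          intro u hu
          rw [← mul_expect]
          congr 1
          have h7 : ∀ s ∈ BL m, 𝔼 c ∈ BLL a (2 ^ t), Z X ss (xv u s) c =
              𝔼 c ∈ BLL a (2 ^ t), Z X ss (xv s u) c := fun s _ => by rw [xv_comm]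
          rw [expect_congr rfl h7,
            expect_shift (mem_BL.1 hu) fun s => 𝔼 c ∈ BLL a (2 ^ t), Z X ss s c, expect_Z X hss]
        rw [expect_congr rfl h6, ← expect_mul, expect_Z X hss, show (4 : ℝ) = 2 * 2 by norm_num,
          mul_pow]
        ring
      rw [expect_congr rfl h5, expect_const (BLL_nonempty m t)]
    rw [e1]
    have e4 : 𝔼 s ∈ BL m, 𝔼 ss ∈ BLL m t, (𝔼 u ∈ BL m, 𝔼 c ∈ BLL a (2 ^ t),
            Z X ss u c * Z X ss u c +
          𝔼 u ∈ BL m, 𝔼 c ∈ BLL a (2 ^ t), Z X ss (xv u s) c * Z X ss (xv u s) c +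
          2 * 𝔼 u ∈ BL m, ((𝔼 c ∈ BLL a (2 ^ t), Z X ss u c) *
            𝔼 c ∈ BLL a (2 ^ t), Z X ss (xv u s) c)) =
        2 * (𝔼 ss ∈ BLL m t, 𝔼 u ∈ BL m, 𝔼 c ∈ BLL a (2 ^ t), Z X ss u c * Z X ss u c) +
          2 * (4 ^ t * μ ^ 2) := by
      have h8 : ∀ s ∈ BL m, 𝔼 ss ∈ BLL m t, (𝔼 u ∈ BL m, 𝔼 c ∈ BLL a (2 ^ t),
            Z X ss u c * Z X ss u c +
          𝔼 u ∈ BL m, 𝔼 c ∈ BLL a (2 ^ t), Z X ss (xv u s) c * Z X ss (xv u s) c +
          2 * 𝔼 u ∈ BL m, ((𝔼 c ∈ BLL a (2 ^ t), Z X ss u c) *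
            𝔼 c ∈ BLL a (2 ^ t), Z X ss (xv u s) c)) =
          2 * (𝔼 ss ∈ BLL m t, 𝔼 u ∈ BL m, 𝔼 c ∈ BLL a (2 ^ t), Z X ss u c * Z X ss u c) +
          2 * 𝔼 ss ∈ BLL m t, 𝔼 u ∈ BL m, ((𝔼 c ∈ BLL a (2 ^ t), Z X ss u c) *
            𝔼 c ∈ BLL a (2 ^ t), Z X ss (xv u s) c) := by
        intro s hs
        rw [expect_add_distrib, expect_add_distrib, expect_congr rfl (e2 s hs), ← mul_expect]
        ring
      rw [expect_congr rfl h8, expect_add_distrib, expect_const (BL_nonempty m), ← mul_expect, e3]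
    rw [e4]
    have h9 : (2 : ℝ) ^ (t + 1) = 2 * 2 ^ t := by rw [pow_succ]; ring
    have h10 : (4 : ℝ) ^ (t + 1) = 4 * 4 ^ t := by rw [pow_succ]; ring
    rw [h9, h10]
    linarith

/-- **Chebyshev**: the sum is rarely nonpositive. -/
theorem expect_Z_nonpos (hX : ∀ u c, X u c * X u c ≤ 1) (t : ℕ)
    (hμ : 0 < 𝔼 u ∈ BL m, 𝔼 c ∈ BL a, X u c) :
    𝔼 ss ∈ BLL m t, 𝔼 u ∈ BL m, 𝔼 cs ∈ BLL a (2 ^ t), (if Z X ss u cs ≤ 0 then (1 : ℝ) else 0) ≤
      1 / (2 ^ t * (𝔼 u ∈ BL m, 𝔼 c ∈ BL a, X u c) ^ 2) := by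
  set μ : ℝ := 𝔼 u ∈ BL m, 𝔼 c ∈ BL a, X u c with hμd
  set M : ℝ := 2 ^ t * μ with hM
  have hMpos : 0 < M := by positivity
  have h1 : ∀ ss ∈ BLL m t, ∀ u ∈ BL m, ∀ cs ∈ BLL a (2 ^ t),
      (if Z X ss u cs ≤ 0 then (1 : ℝ) else 0) ≤
        (Z X ss u cs * Z X ss u cs - 2 * M * Z X ss u cs + M * M) * (1 / (M * M)) := by
    intro ss _ u _ cs _
    have h2 : 0 < M * M := by positivity
    rw [mul_one_div, le_div_iff₀ h2]
    split_ifs with h
    · nlinarith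
    · have : 0 ≤ (Z X ss u cs - M) ^ 2 := sq_nonneg _
      nlinarith
  have h3 : 𝔼 ss ∈ BLL m t, 𝔼 u ∈ BL m, 𝔼 cs ∈ BLL a (2 ^ t),
      (if Z X ss u cs ≤ 0 then (1 : ℝ) else 0) ≤
      𝔼 ss ∈ BLL m t, 𝔼 u ∈ BL m, 𝔼 cs ∈ BLL a (2 ^ t),
        (Z X ss u cs * Z X ss u cs - 2 * M * Z X ss u cs + M * M) * (1 / (M * M)) :=
    expect_le_expect fun ss hss => expect_le_expect fun u hu => expect_le_expect fun cs hcs =>
      h1 ss hss u hu cs hcs
  refine h3.trans ?_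
  have h4 : 𝔼 ss ∈ BLL m t, 𝔼 u ∈ BL m, 𝔼 cs ∈ BLL a (2 ^ t),
        (Z X ss u cs * Z X ss u cs - 2 * M * Z X ss u cs + M * M) * (1 / (M * M)) =
      (𝔼 ss ∈ BLL m t, 𝔼 u ∈ BL m, 𝔼 cs ∈ BLL a (2 ^ t), Z X ss u cs * Z X ss u cs -
        2 * M * M + M * M) * (1 / (M * M)) := by
    have h5 : ∀ ss ∈ BLL m t, 𝔼 u ∈ BL m, 𝔼 cs ∈ BLL a (2 ^ t),
        (Z X ss u cs * Z X ss u cs - 2 * M * Z X ss u cs + M * M) * (1 / (M * M)) =
        (𝔼 u ∈ BL m, 𝔼 cs ∈ BLL a (2 ^ t), Z X ss u cs * Z X ss u cs - 2 * M * M + M * M) *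
          (1 / (M * M)) := by
      intro ss hss
      have h6 : ∀ u ∈ BL m, 𝔼 cs ∈ BLL a (2 ^ t),
        (Z X ss u cs * Z X ss u cs - 2 * M * Z X ss u cs + M * M) * (1 / (M * M)) =
        (𝔼 cs ∈ BLL a (2 ^ t), Z X ss u cs * Z X ss u cs -
          2 * M * 𝔼 cs ∈ BLL a (2 ^ t), Z X ss u cs + M * M) * (1 / (M * M)) := by
        intro u _
        rw [← expect_mul, expect_add_distrib, expect_sub_distrib, ← mul_expect,
          expect_const (BLL_nonempty a _)]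
      rw [expect_congr rfl h6, ← expect_mul, expect_add_distrib, expect_sub_distrib, ← mul_expect,
        expect_const (BL_nonempty m), expect_Z X hss]
    rw [expect_congr rfl h5, ← expect_mul, expect_add_distrib, expect_sub_distrib,
      expect_const (BLL_nonempty m _), expect_const (BLL_nonempty m _)]
  rw [h4]
  have h7 := expect_Z_sq X (m := m) (a := a) hX t
  rw [← hμd] at h7
  have h8 : (4 : ℝ) ^ t * μ ^ 2 = M * M := by
    rw [hM, show (4 : ℝ) = 2 * 2 by norm_num, mul_pow]; ring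
  rw [h8] at h7
  have h9 : (0 : ℝ) < 1 / (M * M) := by positivity
  calc (𝔼 ss ∈ BLL m t, 𝔼 u ∈ BL m, 𝔼 cs ∈ BLL a (2 ^ t), Z X ss u cs * Z X ss u cs -
        2 * M * M + M * M) * (1 / (M * M)) ≤ 2 ^ t * (1 / (M * M)) := by
        refine mul_le_mul_of_nonneg_right ?_ h9.le
        linarith
    _ = 1 / (2 ^ t * μ ^ 2) := by
        rw [hM]
        have : (2 : ℝ) ^ t ≠ 0 := by positivity
        have h0 : μ ≠ 0 := hμ.ne'
        field_simp

end

end Pool.Agent.Helper6K1.BN
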