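import Pool.Agent.Helper6K1.BN.Dec
import Pool.Agent.H579R2.Spt.SPoly2

/-!
# The decoder is computable in polynomial time
-/

set_option autoImplicit false

namespace Pool.Agent.Helper6K1.BN

open Pool.Agent.NPC
open Pool.Agent.H579R2.Spt (ip rowsL cd ip_poly rowsL_poly take_poly' drop_poly' two_pow_size_poly
  bits_poly ver ver_poly ver_iff)

variable {α β γ : Type} [TEnc α] [TEnc β] [TEnc γ]

theorem xv_eq (u v : List Bool) : xv u v = (u.zip v).map fun q => q.1 ^^ q.2 := by
  induction u generalizing v with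
  | nil => simp [xv]
  | cons a u ih =>
    cases v with
    | nil => simp [xv]
    | cons b v => rw [xv_cons, ih]; simp

theorem xv_poly {u v : α → List Bool} (hu : Poly u) (hv : Poly v) :
    Poly (fun a => xv (u a) (v a)) :=
  (NPC.Poly.map (l := fun a => (u a).zip (v a)) (F := fun _ q => q.1 ^^ q.2) (NPC.Poly.zip hu hv)
    (NPC.Poly.xor (NPC.Poly.fst (NPC.Poly.snd NPC.Poly.id))
      (NPC.Poly.snd (NPC.Poly.snd NPC.Poly.id)))).congr fun a => (xv_eq _ _).symm

theorem unitv_poly {m i : α → ℕ} (hm : UPoly m) (hi : Poly i) :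
    Poly (fun a => unitv (m a) (i a)) := by
  unfold unitv
  exact NPC.Poly.map (l := fun a => List.range (m a)) (F := fun a j => decide (j = i a)) hm.range
    (NPC.Poly.dec_eq (NPC.Poly.snd NPC.Poly.id) (hi.comp (NPC.Poly.fst NPC.Poly.id)))

theorem headI_poly {l : α → List Bool} (hl : Poly l) : Poly (fun a => (l a).headI) :=
  (NPC.Poly.optGetD (NPC.Poly.head? hl) (NPC.Poly.const false)).congr fun a => by
    cases l a <;> rfl

theorem headI_poly2 {l : α → List (List Bool)} (hl : Poly l) : Poly (fun a => (l a).headI) :=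
  (NPC.Poly.optGetD (NPC.Poly.head? hl) (NPC.Poly.const [])).congr fun a => by
    cases l a <;> rfl

theorem ptsR_mem (ss : List (List Bool × Bool)) : ∀ (p : List Bool × Bool), ∀ q ∈ ptsR ss p,
    q.1.length ≤ p.1.length := by
  induction ss with
  | nil =>
    intro p q hq
    rw [ptsR, List.mem_singleton] at hq
    rw [hq]
  | cons s ss ih =>
    intro p q hq
    rw [ptsR, List.mem_append] at hq
    rcases hq with hq | hq
    · exact ih p q hq
    · refine (ih _ q hq).trans ?_
      simp [xv]

theorem ptsR_length (ss : List (List Bool × Bool)) : ∀ (p : List Bool × Bool),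
    (ptsR ss p).length = 2 ^ ss.length := by
  induction ss with
  | nil => intro p; simp [ptsR]
  | cons s ss ih =>
    intro p
    rw [ptsR, List.length_append, ih, ih, List.length_cons, pow_succ]
    ring

theorem ptsF_poly {b : α → List Bool × Bool} {l : α → List (List Bool × Bool)} {N : α → ℕ}
    (hb : Poly b) (hl : Poly l) (hN : UPoly N) (h : ∀ a, 2 ^ (l a).length ≤ N a) :
    Poly (fun a => ptsF (b a) (l a)) := by
  unfold ptsF
  obtain ⟨pN, hpN⟩ := NPC.Poly.sz_le hN
  obtain ⟨pb, hpb⟩ := hb.sz_le
  refine NPC.Poly.foldl (l := l) (s := fun a => [b a]) (F := fun _ acc q => dblStep acc q) hl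
    (NPC.Poly.cons hb (NPC.Poly.const [])) ?_ (pN * (4 * pb + 6) + 1) ?_
  · unfold dblStep
    refine NPC.Poly.flatMap (l := fun p : α × List (List Bool × Bool) × (List Bool × Bool) => p.2.1)
      (F := fun p q => [q, (xv q.1 p.2.2.1, q.2 ^^ p.2.2.2)])
      (NPC.Poly.fst (NPC.Poly.snd NPC.Poly.id)) ?_
    have e1 : Poly (fun q : (α × List (List Bool × Bool) × (List Bool × Bool)) ×
        (List Bool × Bool) => q.2) := NPC.Poly.snd NPC.Poly.id
    have e2 : Poly (fun q : (α × List (List Bool × Bool) × (List Bool × Bool)) ×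
        (List Bool × Bool) => q.1.2.2) := NPC.Poly.snd (NPC.Poly.snd (NPC.Poly.fst NPC.Poly.id))
    exact NPC.Poly.cons e1 (NPC.Poly.cons (NPC.Poly.pair
      (xv_poly (NPC.Poly.fst e1) (NPC.Poly.fst e2))
      (NPC.Poly.xor (NPC.Poly.snd e1) (NPC.Poly.snd e2))) (NPC.Poly.const []))
  · intro a k hk
    have e0 : ((l a).take k).foldl (fun acc q => dblStep acc q) [b a] =
        ptsR ((l a).take k) (b a) := ptsF_eq (b a) ((l a).take k)
    rw [e0]
    have h1 := sz_le_length_mul (ptsR ((l a).take k) (b a)) (4 * (b a).1.length + 5) (by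
      intro q hq
      have h2 := ptsR_mem _ _ q hq
      have h3 := sz_listBool_le q.1
      have h4 := sz_bool_le q.2
      have h5 : sz q = sz q.1 + sz q.2 + 1 := sz_pair q.1 q.2
      omega)
    rw [ptsR_length] at h1
    have h6 : 2 ^ ((l a).take k).length ≤ N a := by
      refine le_trans (Nat.pow_le_pow_right (by norm_num) ?_) (h a)
      simp
    have h7 : N a ≤ pN.eval (sz a) := by
      have e1 := hpN a
      have e2 := length_lt_sz (List.replicate (N a) ())
      rw [List.length_replicate] at e2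
      omega
    have h8 : (b a).1.length ≤ pb.eval (sz a) := by
      have e1 := hpb a
      have e2 := length_lt_sz (b a).1
      have e3 : sz (b a) = sz (b a).1 + sz (b a).2 + 1 := sz_pair (b a).1 (b a).2
      omega
    refine h1.trans ?_
    simp only [Polynomial.eval_add, Polynomial.eval_mul, Polynomial.eval_ofNat,
      Polynomial.eval_one]
    have h9 : 2 ^ ((l a).take k).length * (4 * (b a).1.length + 5 + 1) ≤
        pN.eval (sz a) * (4 * pb.eval (sz a) + 6) := Nat.mul_le_mul (h6.trans h7) (by omega)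
    omega

theorem ustp_sz (v : List Bool) : sz (v.foldr ustp none) ≤ sz v + 4 := by
  induction v with
  | nil => simp
  | cons b v ih =>
    rw [List.foldr_cons]
    cases h : v.foldr ustp none with
    | none =>
      rw [h] at ih
      cases b
      · have : ustp false none = none := rfl
        rw [this]; simp
      · have : ustp true none = some [] := rfl
        rw [this]; simp
    | some l =>
      rw [h] at ih
      have : ustp b (some l) = some (b :: l) := rfl
      rw [this, sz_some, sz_list_cons, sz_list_cons]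
      rw [sz_some] at ih
      omega

theorem uncd_poly {v : α → List Bool} (hv : Poly v) : Poly (fun a => uncd (v a)) := by
  unfold uncd
  obtain ⟨pv, hpv⟩ := hv.sz_le
  refine NPC.Poly.optGetD (NPC.Poly.foldr (l := v) (s := fun _ => (none : Option (List Bool)))
    (F := fun _ b s => ustp b s) hv (NPC.Poly.const _) ?_ (pv + 4) ?_) (NPC.Poly.const _)
  · unfold ustp
    have e1 : Poly (fun q : α × Bool × Option (List Bool) => q.2.1) :=
      NPC.Poly.fst (NPC.Poly.snd NPC.Poly.id)
    have e2 : Poly (fun q : α × Bool × Option (List Bool) => q.2.2) :=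
      NPC.Poly.snd (NPC.Poly.snd NPC.Poly.id)
    refine NPC.Poly.optElim (o := fun q : α × Bool × Option (List Bool) => q.2.2)
      (g := fun q => bif q.2.1 then some [] else none) (h := fun q l => some (q.2.1 :: l)) e2
      (NPC.Poly.cond e1 (NPC.Poly.const _) (NPC.Poly.const _)) ?_
    exact NPC.Poly.some (NPC.Poly.cons (e1.comp (NPC.Poly.fst NPC.Poly.id))
      (NPC.Poly.snd NPC.Poly.id))
  · intro a k _
    refine (ustp_sz _).trans ?_
    have h1 := NPC.Poly.sz_drop_le (v a) k
    have h2 := hpv a
    simp only [Polynomial.eval_add, Polynomial.eval_ofNat]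
    omega

/-- The decoder is computable in polynomial time. -/
theorem decS_poly {Bf : α → List Bool → List Bool → Bool}
    (hB : Poly (fun q : α × (List Bool × List Bool) => Bf q.1 q.2.1 q.2.2)) {m N : α → ℕ}
    {S C : α → List (List Bool)} (hm : UPoly m) (hS : Poly S) (hC : Poly C) (hN : UPoly N)
    (h : ∀ a, 2 ^ (S a).tail.length ≤ N a) :
    Poly (fun a => decS (Bf a) (m a) (S a) (C a)) := by
  unfold decS decv
  have hp : Poly (fun a => ptsF ((S a).headI.tail, (S a).headI.headI)
      ((S a).tail.map fun ch => (ch.tail, ch.headI))) := by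
    refine ptsF_poly (NPC.Poly.pair (NPC.Poly.tail (headI_poly2 hS)) (headI_poly (headI_poly2 hS)))
      (NPC.Poly.map (F := fun _ (ch : List Bool) => (ch.tail, ch.headI)) (NPC.Poly.tail hS) ?_)
      hN (fun a => by simpa using h a)
    exact NPC.Poly.pair (NPC.Poly.tail (NPC.Poly.snd NPC.Poly.id))
      (headI_poly (NPC.Poly.snd NPC.Poly.id))
  refine NPC.Poly.map (l := fun a => List.range (m a)) (F := fun a i =>
    decide ((ptsF ((S a).headI.tail, (S a).headI.headI)
      ((S a).tail.map fun ch => (ch.tail, ch.headI))).length < 2 * score (Bf a) (m a) i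
      (ptsF ((S a).headI.tail, (S a).headI.headI)
      ((S a).tail.map fun ch => (ch.tail, ch.headI))) (C a))) hm.range ?_
  have e0 : Poly (fun q : α × ℕ => q.1) := NPC.Poly.fst NPC.Poly.id
  have hp' := hp.comp e0
  refine NPC.Poly.decide_lt (NPC.Poly.length hp') (NPC.Poly.mul (NPC.Poly.const 2) ?_)
  unfold score
  refine NPC.Poly.length (NPC.Poly.filter (p := fun (q : α × ℕ) (z : (List Bool × Bool) × List Bool) =>
    Bf q.1 (xv z.1.1 (unitv (m q.1) q.2)) z.2 ^^ z.1.2) (NPC.Poly.zip hp' (hC.comp e0)) ?_)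
  have f0 : Poly (fun y : (α × ℕ) × ((List Bool × Bool) × List Bool) => y.1.1) :=
    NPC.Poly.fst (NPC.Poly.fst NPC.Poly.id)
  have f1 : Poly (fun y : (α × ℕ) × ((List Bool × Bool) × List Bool) => y.1.2) :=
    NPC.Poly.snd (NPC.Poly.fst NPC.Poly.id)
  have f2 : Poly (fun y : (α × ℕ) × ((List Bool × Bool) × List Bool) => y.2.1) :=
    NPC.Poly.fst (NPC.Poly.snd NPC.Poly.id)
  have f3 : Poly (fun y : (α × ℕ) × ((List Bool × Bool) × List Bool) => y.2.2) :=
    NPC.Poly.snd (NPC.Poly.snd NPC.Poly.id)
  exact NPC.Poly.xor (hB.comp (NPC.Poly.pair f0 (NPC.Poly.pair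
    (xv_poly (NPC.Poly.fst f2) (unitv_poly (hm.comp f0) f1)) f3))) (NPC.Poly.snd f2)

end Pool.Agent.Helper6K1.BN
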