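import Pool.Agent.Helper6K1.BN.Aux1

/-!
# Linear combinations of random vectors with a prescribed value
-/

set_option autoImplicit false

namespace Pool.Agent.Helper6K1.BN

open Finset BigOperators Pool.Agent.NPC
open Pool.Agent.H579R2.Spt (BL mem_BL ip rowsL rowsL_succ cd ip_poly rowsL_poly take_poly'
  drop_poly' two_pow_size_poly bits_poly ver ver_poly ver_iff ip_cons)

/-- the sum of the vectors selected by `cv` -/
def comb (m : ℕ) (cv : List Bool) (rr : List (List Bool)) : List Bool :=
  (cv.zip rr).foldr (fun q s => bif q.1 then xv q.2 s else s) (List.replicate m false)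

theorem comb_cons (m : ℕ) (c : Bool) (cv : List Bool) (r : List Bool) (rr : List (List Bool)) :
    comb m (c :: cv) (r :: rr) = bif c then xv r (comb m cv rr) else comb m cv rr := rfl

theorem comb_length {m : ℕ} : ∀ {cv : List Bool} {rr : List (List Bool)},
    (∀ r ∈ rr, r.length = m) → (comb m cv rr).length = m := by
  intro cv
  induction cv with
  | nil => intro rr _; simp [comb]
  | cons c cv ih =>
    intro rr h
    cases rr with
    | nil => simp [comb]
    | cons r rr =>
      rw [comb_cons]
      have h1 := ih (rr := rr) fun r' hr' => h r' (by simp [hr'])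
      cases c
      · exact h1
      · exact xv_length (h r (by simp)) h1

theorem ip_comb {m : ℕ} (c0 : List Bool) : ∀ {cv : List Bool} {rr : List (List Bool)},
    (∀ r ∈ rr, r.length = m) → ip (comb m cv rr) c0 = ip cv (rr.map fun r => ip r c0) := by
  intro cv
  induction cv with
  | nil => intro rr _; simp [comb, ip_replicate]
  | cons c cv ih =>
    intro rr h
    cases rr with
    | nil => simp [comb, ip_replicate]
    | cons r rr =>
      have h1 : ∀ r' ∈ rr, r'.length = m := fun r' hr' => h r' (by simp [hr'])
      rw [comb_cons, List.map_cons, ip_cons]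
      cases c
      · simp [ih h1]
      · rw [cond_true, ip_xv (by rw [h r (by simp), comb_length h1]), ih h1]
        simp

/-- one step of the embedding -/
def embStep (s : List Bool) (q : Bool × List Bool) (z : List (List Bool) × List (List Bool)) :
    List (List Bool) × List (List Bool) :=
  (q.2 :: z.1, bif q.1 then xv q.2 s :: z.1 else q.2 :: z.2)

/-- add `s` to the first vector selected by `cv` -/
def emb (cv : List Bool) (rr : List (List Bool)) (s : List Bool) : List (List Bool) :=
  ((cv.zip rr).foldr (embStep s) ([], [])).2

theorem emb_fst (s : List Bool) : ∀ {cv : List Bool} {rr : List (List Bool)},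
    cv.length = rr.length → ((cv.zip rr).foldr (embStep s) ([], [])).1 = rr := by
  intro cv
  induction cv with
  | nil => intro rr h; cases rr with
    | nil => rfl
    | cons r rr => simp at h
  | cons c cv ih =>
    intro rr h
    cases rr with
    | nil => simp at h
    | cons r rr =>
      rw [List.zip_cons_cons, List.foldr_cons, embStep]
      simp only
      rw [ih (by simpa using h)]

theorem emb_true (cv : List Bool) (r : List Bool) (rr : List (List Bool)) (s : List Bool)
    (h : cv.length = rr.length) : emb (true :: cv) (r :: rr) s = xv r s :: rr := by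
  rw [emb, List.zip_cons_cons, List.foldr_cons, embStep]
  simp only [cond_true]
  rw [emb_fst s h]

theorem emb_false (cv : List Bool) (r : List Bool) (rr : List (List Bool)) (s : List Bool) :
    emb (false :: cv) (r :: rr) s = r :: emb cv rr s := rfl

theorem emb_nil (s : List Bool) : emb [] [] s = [] := rfl

/-- The map `rr ↦ emb cv rr s` preserves the uniform distribution. -/
theorem expect_emb {m k : ℕ} {s : List Bool} (hs : s.length = m) :
    ∀ {cv : List Bool}, cv.length = k → ∀ (F : List (List Bool) → ℝ),
    𝔼 rr ∈ BLL m k, F (emb cv rr s) = 𝔼 rr ∈ BLL m k, F rr := by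
  induction k with
  | zero =>
    intro cv hcv F
    rw [List.length_eq_zero_iff.1 hcv, expect_BLL_zero, expect_BLL_zero, emb_nil]
  | succ k ih =>
    intro cv hcv F
    cases cv with
    | nil => simp at hcv
    | cons c cv =>
      have hcv' : cv.length = k := by simpa using hcv
      rw [expect_BLL_succ, expect_BLL_succ]
      cases c
      · refine expect_congr rfl fun r _ => ?_
        rw [← ih hcv' fun rr => F (r :: rr)]
        refine expect_congr rfl fun rr _ => ?_
        rw [emb_false]
      · have h1 : ∀ r ∈ BL m, 𝔼 rr ∈ BLL m k, F (emb (true :: cv) (r :: rr) s) =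
            𝔼 rr ∈ BLL m k, F (xv r s :: rr) := by
          intro r _
          refine expect_congr rfl fun rr hrr => ?_
          rw [emb_true cv r rr s (by rw [hcv', (mem_BLL.1 hrr).1])]
        rw [expect_congr rfl h1]
        exact expect_shift hs fun r => 𝔼 rr ∈ BLL m k, F (r :: rr)

theorem comb_emb {m : ℕ} {s : List Bool} (hs : s.length = m) :
    ∀ {cv : List Bool} {rr : List (List Bool)}, cv.length = rr.length →
    (∀ r ∈ rr, r.length = m) → cv.any id = true →
    comb m cv (emb cv rr s) = xv (comb m cv rr) s := by
  intro cv
  induction cv with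
  | nil => intro rr _ _ h; simp at h
  | cons c cv ih =>
    intro rr h1 h2 h3
    cases rr with
    | nil => simp at h1
    | cons r rr =>
      have h1' : cv.length = rr.length := by simpa using h1
      have h2' : ∀ r' ∈ rr, r'.length = m := fun r' hr' => h2 r' (by simp [hr'])
      cases c
      · rw [emb_false, comb_cons, comb_cons, cond_false, cond_false]
        exact ih h1' h2' (by simpa using h3)
      · rw [emb_true cv r rr s h1', comb_cons, comb_cons, cond_true, cond_true, xv_assoc, xv_assoc,
          xv_comm s]

/-- **Embedding**: a uniformly random vector `u` is written as the combination of uniformly random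
vectors. -/
theorem expect_embed {m k : ℕ} {cv : List Bool} (hcv : cv.length = k) (hany : cv.any id = true)
    (F : List (List Bool) → List Bool → ℝ) :
    𝔼 u ∈ BL m, 𝔼 rr ∈ BLL m k, F (emb cv rr (xv (comb m cv rr) u)) u =
      𝔼 rr ∈ BLL m k, F rr (comb m cv rr) := by
  rw [expect_comm]
  have h1 : ∀ rr ∈ BLL m k, 𝔼 u ∈ BL m, F (emb cv rr (xv (comb m cv rr) u)) u =
      𝔼 s ∈ BL m, F (emb cv rr s) (comb m cv (emb cv rr s)) := by
    intro rr hrr
    have hrr' := mem_BLL.1 hrr
    have hcl : (comb m cv rr).length = m := comb_length hrr'.2
    rw [← expect_shift hcl fun s => F (emb cv rr s) (comb m cv (emb cv rr s))]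
    refine expect_congr rfl fun u hu => ?_
    have hu' := mem_BL.1 hu
    have h2 : (xv u (comb m cv rr)).length = m := xv_length hu' hcl
    rw [comb_emb h2 (by rw [hcv, hrr'.1]) hrr'.2 hany, xv_comm (comb m cv rr) u]
    congr 1
    rw [xv_comm (comb m cv rr) (xv u (comb m cv rr)), xv_xv (by rw [hu', hcl])]
  rw [expect_congr rfl h1, expect_comm]
  have h3 : ∀ s ∈ BL m, 𝔼 rr ∈ BLL m k, F (emb cv rr s) (comb m cv (emb cv rr s)) =
      𝔼 rr ∈ BLL m k, F rr (comb m cv rr) := fun s hs =>
    expect_emb (mem_BL.1 hs) hcv fun rr => F rr (comb m cv rr)
  rw [expect_congr rfl h3, expect_const (BL_nonempty m)]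

theorem any_iff {k : ℕ} {cv : List Bool} (h : cv.length = k) :
    cv.any id = true ↔ cv ≠ List.replicate k false := by
  induction k generalizing cv with
  | zero => rw [List.length_eq_zero_iff.1 h]; simp
  | succ k ih =>
    cases cv with
    | nil => simp at h
    | cons c cv =>
      rw [List.any_cons, List.replicate_succ]
      cases c
      · simp only [id, Bool.false_or, ne_eq, List.cons.injEq, true_and]
        exact ih (by simpa using h)
      · simp

theorem expect_single {k : ℕ} {t : List Bool} (ht : t.length = k) (f : List Bool → ℝ) :
    𝔼 v ∈ BL k, f v * (if v = t then (1 : ℝ) else 0) = f t / 2 ^ k := by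
  rw [expect_eq_sum_div_card, card_BL']
  congr 1
  rw [Finset.sum_eq_single t]
  · simp
  · intro b _ hb; simp [hb]
  · intro h; exact absurd (mem_BL.2 ht) h

/-! ### Polynomial time -/

variable {α : Type} [TEnc α]

theorem comb_poly {m : α → ℕ} {cv : α → List Bool} {rr : α → List (List Bool)} (hm : UPoly m)
    (hcv : Poly cv) (hrr : Poly rr) : Poly (fun a => comb (m a) (cv a) (rr a)) := by
  unfold comb
  have hrep : Poly (fun a => List.replicate (m a) false) :=
    (NPC.Poly.map (l := fun a => List.range (m a)) (F := fun _ _ => false) hm.range
      (NPC.Poly.const false)).congr fun a => by simp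
  obtain ⟨pm, hpm⟩ := hrep.sz_le
  refine NPC.Poly.foldr (l := fun a => (cv a).zip (rr a)) (s := fun a => List.replicate (m a) false)
    (F := fun _ q s => bif q.1 then xv q.2 s else s) (NPC.Poly.zip hcv hrr) hrep ?_ (4 * pm + 1) ?_
  · have e1 : Poly (fun p : α × (Bool × List Bool) × List Bool => p.2.1) :=
      NPC.Poly.fst (NPC.Poly.snd NPC.Poly.id)
    have e2 : Poly (fun p : α × (Bool × List Bool) × List Bool => p.2.2) :=
      NPC.Poly.snd (NPC.Poly.snd NPC.Poly.id)
    exact NPC.Poly.cond (NPC.Poly.fst e1) (xv_poly (NPC.Poly.snd e1) e2) e2
  · intro a k _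
    have key : ∀ l : List (Bool × List Bool),
        (l.foldr (fun q s => bif q.1 then xv q.2 s else s)
          (List.replicate (m a) false)).length ≤ m a := by
      intro l
      induction l with
      | nil => simp
      | cons q l ih =>
        rw [List.foldr_cons]
        cases q.1
        · simpa using ih
        · rw [cond_true]
          unfold xv
          rw [List.length_zipWith]
          exact (min_le_right _ _).trans ih
    have h1 := key (((cv a).zip (rr a)).drop k)
    have h2 := sz_listBool_le ((((cv a).zip (rr a)).drop k).foldr
      (fun q s => bif q.1 then xv q.2 s else s) (List.replicate (m a) false))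
    have h3 := hpm a
    have h4 := length_lt_sz (List.replicate (m a) false)
    rw [List.length_replicate] at h4
    simp only [Polynomial.eval_add, Polynomial.eval_mul, Polynomial.eval_ofNat,
      Polynomial.eval_one]
    omega

theorem emb_poly {cv s : α → List Bool} {rr : α → List (List Bool)}
    (hcv : Poly cv) (hrr : Poly rr) (hs : Poly s) : Poly (fun a => emb (cv a) (rr a) (s a)) := by
  unfold emb
  obtain ⟨pr, hpr⟩ := hrr.sz_le
  refine NPC.Poly.snd (NPC.Poly.foldr (l := fun a => (cv a).zip (rr a))
    (s := fun _ => (([], []) : List (List Bool) × List (List Bool)))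
    (F := fun a q z => embStep (s a) q z) (NPC.Poly.zip hcv hrr) (NPC.Poly.const _) ?_
    (2 * (pr * (4 * pr + 2) + 1) + 1) ?_)
  · unfold embStep
    have e1 : Poly (fun p : α × (Bool × List Bool) × (List (List Bool) × List (List Bool)) =>
      p.2.1) := NPC.Poly.fst (NPC.Poly.snd NPC.Poly.id)
    have e2 : Poly (fun p : α × (Bool × List Bool) × (List (List Bool) × List (List Bool)) =>
      p.2.2) := NPC.Poly.snd (NPC.Poly.snd NPC.Poly.id)
    have e3 : Poly (fun p : α × (Bool × List Bool) × (List (List Bool) × List (List Bool)) =>
      s p.1) := hs.comp (NPC.Poly.fst NPC.Poly.id)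
    exact NPC.Poly.pair (NPC.Poly.cons (NPC.Poly.snd e1) (NPC.Poly.fst e2))
      (NPC.Poly.cond (NPC.Poly.fst e1)
        (NPC.Poly.cons (xv_poly (NPC.Poly.snd e1) e3) (NPC.Poly.fst e2))
        (NPC.Poly.cons (NPC.Poly.snd e1) (NPC.Poly.snd e2)))
  · intro a k _
    -- every vector in the state is at most as long as some vector of the list
    have key : ∀ l : List (Bool × List Bool), ∀ M : ℕ, (∀ q ∈ l, q.2.length ≤ M) →
        ((l.foldr (fun q z => embStep (s a) q z) ([], [])).1.length = l.length ∧
        (l.foldr (fun q z => embStep (s a) q z) ([], [])).2.length = l.length) ∧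
        (∀ u ∈ (l.foldr (fun q z => embStep (s a) q z) ([], [])).1, u.length ≤ M) ∧
        (∀ u ∈ (l.foldr (fun q z => embStep (s a) q z) ([], [])).2, u.length ≤ M) := by
      intro l M
      induction l with
      | nil => intro _; simp
      | cons q l ih =>
        intro hM
        obtain ⟨⟨h1, h2⟩, h3, h4⟩ := ih fun q' hq' => hM q' (by simp [hq'])
        rw [List.foldr_cons]
        have hq := hM q (by simp)
        cases hb : q.1
        · simp only [embStep, hb, cond_false]
          simp only [embStep] at h1 h2
          refine ⟨⟨by rw [List.length_cons, List.length_cons, h1],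
            by rw [List.length_cons, List.length_cons, h2]⟩, ?_, ?_⟩
          · intro u hu
            rcases List.mem_cons.1 hu with hu | hu
            · rw [hu]; exact hq
            · exact h3 u hu
          · intro u hu
            rcases List.mem_cons.1 hu with hu | hu
            · rw [hu]; exact hq
            · exact h4 u hu
        · simp only [embStep, hb, cond_true]
          simp only [embStep] at h1 h2
          refine ⟨⟨by rw [List.length_cons, List.length_cons, h1],
            by rw [List.length_cons, List.length_cons, h1]⟩, ?_, ?_⟩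
          · intro u hu
            rcases List.mem_cons.1 hu with hu | hu
            · rw [hu]; exact hq
            · exact h3 u hu
          · intro u hu
            rcases List.mem_cons.1 hu with hu | hu
            · rw [hu]
              unfold xv
              rw [List.length_zipWith]
              exact (min_le_left _ _).trans hq
            · exact h3 u hu
    have hM : ∀ q ∈ ((cv a).zip (rr a)).drop k, q.2.length ≤ sz (rr a) := by
      intro q hq
      have h1 := (List.of_mem_zip (List.mem_of_mem_drop hq)).2
      have h2 := sz_le_of_mem h1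
      have h3 := length_lt_sz q.2
      omega
    obtain ⟨⟨h1, h2⟩, h3, h4⟩ := key _ _ hM
    set z := (((cv a).zip (rr a)).drop k).foldr (fun q z => embStep (s a) q z) ([], []) with hz
    have hlen : (((cv a).zip (rr a)).drop k).length ≤ sz (rr a) := by
      have h5 : (((cv a).zip (rr a)).drop k).length ≤ (rr a).length := by
        simp only [List.length_drop, List.length_zip]
        omega
      have := length_lt_sz (rr a)
      omega
    have hb : ∀ l : List (List Bool), l.length ≤ sz (rr a) → (∀ u ∈ l, u.length ≤ sz (rr a)) →
        sz l ≤ sz (rr a) * (4 * sz (rr a) + 2) + 1 := by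
      intro l hl hu
      have h6 := sz_le_length_mul l (4 * sz (rr a) + 1) (fun u hu' => by
        have := sz_listBool_le u
        have := hu u hu'
        omega)
      have h7 : l.length * (4 * sz (rr a) + 1 + 1) ≤ sz (rr a) * (4 * sz (rr a) + 2) :=
        Nat.mul_le_mul hl (by omega)
      omega
    have h8 := hb z.1 (by omega) h3
    have h9 := hb z.2 (by omega) h4
    have h10 : sz z = sz z.1 + sz z.2 + 1 := sz_pair z.1 z.2
    have h11 := hpr a
    have h12 : sz (rr a) * (4 * sz (rr a) + 2) ≤ pr.eval (sz a) * (4 * pr.eval (sz a) + 2) :=
      Nat.mul_le_mul h11 (by omega)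
    simp only [Polynomial.eval_add, Polynomial.eval_mul, Polynomial.eval_ofNat,
      Polynomial.eval_one]
    omega

end Pool.Agent.Helper6K1.BN
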