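import Pool.Agent.Helper6K1.BN.T1c

/-!
# Truth tables and sparse sets: the expansion
-/

set_option autoImplicit false

namespace Pool.Agent.Helper6K1.BN

open Finset BigOperators Pool.Agent.NPC
open Pool.Agent.H579R2.Spt (BL mem_BL ip rowsL rowsL_succ cd ip_poly rowsL_poly take_poly'
  drop_poly' two_pow_size_poly bits_poly ver ver_poly ver_iff ip_cons)

/-- the vector `P` is at most the vector `T` -/
def leB (P T : List Bool) : Bool := (P.zip T).all fun z => !z.1 || z.2

@[simp] theorem leB_nil : leB [] [] = true := rfl

theorem leB_cons (p t : Bool) (P T : List Bool) :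
    leB (p :: P) (t :: T) = ((!p || t) && leB P T) := rfl

/-- the coefficient of the monomial `T` in the indicator of the vector `P` -/
noncomputable def mob (P T : List Bool) : ℝ := if leB P T = true then sg (ip T (P.map not)) else 0

theorem mob_nil : mob [] [] = 1 := by
  rw [mob, leB_nil, if_pos rfl]
  rfl

theorem mob_cons (p t : Bool) (P T : List Bool) :
    mob (p :: P) (t :: T) = (if (!p || t) = true then sg (t && !p) else 0) * mob P T := by
  unfold mob
  rw [leB_cons, List.map_cons, ip_cons, sg_xor]
  cases p <;> cases t <;> cases leB P T <;> simp [sg]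

theorem abs_mob_le (P T : List Bool) : |mob P T| ≤ 1 := by
  unfold mob
  split_ifs
  · rw [abs_sg]
  · simp

/-- Möbius inversion -/
theorem expect_mob {k : ℕ} : ∀ {a P : List Bool}, a.length = k → P.length = k →
    𝔼 T ∈ BL k, (if leB T a = true then (1 : ℝ) else 0) * mob P T =
      (if a = P then (1 : ℝ) else 0) / 2 ^ k := by
  induction k with
  | zero =>
    intro a P ha hP
    rw [List.length_eq_zero_iff.1 ha, List.length_eq_zero_iff.1 hP, expect_BL_zero, mob_nil]
    simp
  | succ k ih =>
    intro a P ha hP
    cases a with
    | nil => simp at ha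
    | cons a0 a =>
      cases P with
      | nil => simp at hP
      | cons p0 P =>
        have hih := ih (a := a) (P := P) (by simpa using ha) (by simpa using hP)
        rw [expect_BL_succ]
        have h1 : ∀ t : Bool, 𝔼 T ∈ BL k,
            (if leB (t :: T) (a0 :: a) = true then (1 : ℝ) else 0) * mob (p0 :: P) (t :: T) =
            ((if (!t || a0) = true then (1 : ℝ) else 0) *
              (if (!p0 || t) = true then sg (t && !p0) else 0)) *
              ((if a = P then (1 : ℝ) else 0) / 2 ^ k) := by
          intro t
          rw [← hih, mul_expect]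
          refine expect_congr rfl fun T _ => ?_
          rw [leB_cons, mob_cons]
          cases t <;> cases a0 <;> cases leB T a <;> simp
        rw [h1, h1, pow_succ]
        by_cases haP : a = P
        · subst haP
          cases a0 <;> cases p0 <;> simp [sg] <;> ring
        · have h2 : ¬ (a0 :: a = p0 :: P) := fun h => haP (by simpa using (List.cons.inj h).2)
          rw [if_neg haP, if_neg h2]
          simp

/-- the queries selected by `T` -/
def mask (T : List Bool) (qs : List (List Bool)) : List (List Bool) :=
  (T.zip qs).map fun z => bif z.1 then z.2 else []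

theorem mask_cons (t : Bool) (T : List Bool) (q : List Bool) (qs : List (List Bool)) :
    mask (t :: T) (q :: qs) = (bif t then q else []) :: mask T qs := rfl

/-- lists of length `k` over a finite set -/
def LL (W : Finset (List Bool)) : ℕ → Finset (List (List Bool))
  | 0 => {[]}
  | k + 1 => (W ×ˢ LL W k).image fun z => z.1 :: z.2

theorem mem_LL {W : Finset (List Bool)} {k : ℕ} {l : List (List Bool)} :
    l ∈ LL W k ↔ l.length = k ∧ ∀ u ∈ l, u ∈ W := by
  induction k generalizing l with
  | zero =>
    rw [LL, mem_singleton, List.length_eq_zero_iff]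
    constructor
    · intro h; subst h; simp
    · intro h; exact h.1
  | succ k ih =>
    rw [LL, mem_image]
    constructor
    · rintro ⟨⟨u, l'⟩, h1, rfl⟩
      rw [mem_product] at h1
      have h2 := ih.1 h1.2
      refine ⟨by simp [h2.1], fun v hv => ?_⟩
      rcases List.mem_cons.1 hv with hv | hv
      · rw [hv]; exact h1.1
      · exact h2.2 v hv
    · rintro ⟨h1, h2⟩
      cases l with
      | nil => simp at h1
      | cons u l =>
        refine ⟨(u, l), mem_product.2 ⟨h2 u (by simp), ih.2 ⟨by simpa using h1, fun v hv =>
          h2 v (by simp [hv])⟩⟩, rfl⟩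

theorem card_LL_le (W : Finset (List Bool)) (k : ℕ) : (LL W k).card ≤ W.card ^ k := by
  induction k with
  | zero => simp [LL]
  | succ k ih =>
    rw [LL, pow_succ, mul_comm]
    refine card_image_le.trans ?_
    rw [card_product]
    exact Nat.mul_le_mul_left _ ih

/-- all the selected queries have the answer yes -/
noncomputable def allq (S : Set (List Bool)) (T : List Bool) (qs : List (List Bool)) : ℝ :=
  if leB T (answers S qs) = true then 1 else 0

theorem answers_cons (S : Set (List Bool)) (q : List Bool) (qs : List (List Bool)) [Decidable (q ∈ S)] :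
    answers S (q :: qs) = decide (q ∈ S) :: answers S qs := by
  unfold answers
  rw [List.map_cons]
  congr

theorem answers_length (S : Set (List Bool)) (qs : List (List Bool)) :
    (answers S qs).length = qs.length := by simp [answers]

theorem allq_mask (S : Set (List Bool)) : ∀ {T : List Bool} {qs : List (List Bool)},
    T.length = qs.length → allq S T (mask T qs) = allq S T qs := by
  classical
  intro T
  unfold allq
  induction T with
  | nil =>
    intro qs h
    cases qs with
    | nil => rfl
    | cons q qs => simp at h
  | cons t T ih =>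
    intro qs h
    cases qs with
    | nil => simp at h
    | cons q qs =>
      have := ih (qs := qs) (by simpa using h)
      rw [mask_cons, answers_cons, answers_cons, leB_cons, leB_cons]
      cases t
      · simpa using this
      · simp only [Bool.not_true, Bool.false_or, cond_true]
        by_cases hq : q ∈ S
        · simpa [hq] using this
        · simp [hq]

theorem mask_mem_LL {S : Set (List Bool)} {W : Finset (List Bool)} (h0 : [] ∈ W) :
    ∀ {T : List Bool} {qs : List (List Bool)}, T.length = qs.length →
    (∀ q ∈ qs, q ∈ S → q ∈ W) → allq S T qs = 1 → mask T qs ∈ LL W T.length := by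
  classical
  intro T
  unfold allq
  induction T with
  | nil =>
    intro qs h _ _
    rw [mem_LL]
    simp [mask]
  | cons t T ih =>
    intro qs h h1 h2
    cases qs with
    | nil => simp at h
    | cons q qs =>
      rw [answers_cons, leB_cons] at h2
      have h3 : ((!t || decide (q ∈ S)) && leB T (answers S qs)) = true := by
        by_contra hcon
        rw [if_neg hcon] at h2
        norm_num at h2
      rw [Bool.and_eq_true] at h3
      have h4 := mem_LL.1 (ih (qs := qs) (by simpa using h) (fun q' hq' => h1 q' (by simp [hq']))
        (by rw [if_pos h3.2]))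
      rw [mask_cons, mem_LL]
      refine ⟨by simp [h4.1], fun u hu => ?_⟩
      rcases List.mem_cons.1 hu with hu | hu
      · rw [hu]
        cases t
        · exact h0
        · exact h1 q (by simp) (by simpa using h3.1)
      · exact h4.2 u hu

theorem allq_zero_or_one (S : Set (List Bool)) (T : List Bool) (qs : List (List Bool)) :
    allq S T qs = 0 ∨ allq S T qs = 1 := by
  unfold allq
  split_ifs
  · right; rfl
  · left; rfl

/-- The event that all selected queries are in the sparse set, as a sum over their values. -/
theorem sum_mask {S : Set (List Bool)} {W : Finset (List Bool)} (h0 : [] ∈ W) {k : ℕ}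
    {T : List Bool} {qs : List (List Bool)} (hT : T.length = k) (hqs : qs.length = k)
    (h1 : ∀ q ∈ qs, q ∈ S → q ∈ W) :
    ∑ σ ∈ LL W k, allq S T σ * (if mask T qs = σ then (1 : ℝ) else 0) = allq S T qs := by
  have h2 : ∑ σ ∈ LL W k, allq S T σ * (if mask T qs = σ then (1 : ℝ) else 0) =
      ∑ σ ∈ LL W k, (if mask T qs = σ then allq S T qs else 0) := by
    refine sum_congr rfl fun σ _ => ?_
    split_ifs with h
    · rw [← h, allq_mask S (by rw [hT, hqs]), mul_one]
    · rw [mul_zero]
  rw [h2, Finset.sum_ite_eq]
  split_ifs with h3
  · rfl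
  · rcases allq_zero_or_one S T qs with h4 | h4
    · exact h4.symm
    · exact absurd (hT ▸ mask_mem_LL h0 (by rw [hT, hqs]) h1 h4) h3

/-- The expansion of a truth-table condition. -/
theorem expect_tt {S : Set (List Bool)} {k : ℕ} {qs : List (List Bool)} {G : List (List Bool)}
    (hqs : qs.length = k) :
    𝔼 T ∈ BL k, allq S T qs * 𝔼 P ∈ BL k, (if P ∈ G then (1 : ℝ) else 0) * mob P T =
      (if answers S qs ∈ G then (1 : ℝ) else 0) / 2 ^ k / 2 ^ k := by
  have ha : (answers S qs).length = k := by rw [answers_length, hqs]
  have h1 : ∀ T ∈ BL k, allq S T qs * 𝔼 P ∈ BL k, (if P ∈ G then (1 : ℝ) else 0) * mob P T =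
      𝔼 P ∈ BL k, (if P ∈ G then (1 : ℝ) else 0) *
        ((if leB T (answers S qs) = true then (1 : ℝ) else 0) * mob P T) := by
    intro T _
    rw [mul_expect]
    refine expect_congr rfl fun P _ => ?_
    unfold allq
    ring
  rw [expect_congr rfl h1, expect_comm]
  have h2 : ∀ P ∈ BL k, 𝔼 T ∈ BL k, (if P ∈ G then (1 : ℝ) else 0) *
        ((if leB T (answers S qs) = true then (1 : ℝ) else 0) * mob P T) =
      ((if P ∈ G then (1 : ℝ) else 0) / 2 ^ k) * (if P = answers S qs then (1 : ℝ) else 0) := by
    intro P hP
    rw [← mul_expect, expect_mob ha (mem_BL.1 hP)]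
    by_cases h : answers S qs = P
    · rw [if_pos h, if_pos h.symm]; ring
    · rw [if_neg h, if_neg (show ¬ (P = answers S qs) from fun h' => h h'.symm)]; ring
  rw [expect_congr rfl h2, expect_single ha]

/-! ### Polynomial time -/

variable {α : Type} [TEnc α]

theorem leB_poly {P T : α → List Bool} (hP : Poly P) (hT : Poly T) :
    Poly (fun a => leB (P a) (T a)) := by
  unfold leB
  have e1 : Poly (fun q : α × (Bool × Bool) => q.2) := NPC.Poly.snd NPC.Poly.id
  exact NPC.Poly.all (l := fun a => (P a).zip (T a)) (p := fun _ z => !z.1 || z.2)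
    (NPC.Poly.zip hP hT) (NPC.Poly.or (NPC.Poly.not (NPC.Poly.fst e1)) (NPC.Poly.snd e1))

theorem mask_poly {T : α → List Bool} {qs : α → List (List Bool)} (hT : Poly T) (hq : Poly qs) :
    Poly (fun a => mask (T a) (qs a)) := by
  unfold mask
  have e1 : Poly (fun q : α × (Bool × List Bool) => q.2) := NPC.Poly.snd NPC.Poly.id
  exact NPC.Poly.map (l := fun a => (T a).zip (qs a)) (F := fun _ z => bif z.1 then z.2 else [])
    (NPC.Poly.zip hT hq) (NPC.Poly.cond (NPC.Poly.fst e1) (NPC.Poly.snd e1) (NPC.Poly.const []))

end Pool.Agent.Helper6K1.BN
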