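import Pool.Agent.Helper6K1.BN.T2b

/-!
# Randomised truth-table reductions to sparse sets
-/

set_option autoImplicit false

namespace Pool.Agent.Helper6K1.BN

open Finset BigOperators Pool.Agent.NPC
open Pool.Agent.H579R2.Spt (BL mem_BL ip rowsL rowsL_succ cd ip_poly rowsL_poly take_poly'
  drop_poly' two_pow_size_poly bits_poly ver ver_poly ver_iff ip_cons)

theorem pairBits_length (x w : List Bool) : (pairBits x w).length = 2 * x.length + 1 + w.length := by
  have h : (x.flatMap fun b => [true, b]).length = 2 * x.length := by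
    induction x with
    | nil => rfl
    | cons b x ih => rw [List.flatMap_cons, List.length_append, ih]; simp; ring
  unfold pairBits
  rw [List.length_append, h, List.length_cons]
  ring

open Classical in
/-- the elements of the sparse set that are not longer than `ℓ`, and the empty string -/
noncomputable def WS (S : Set (List Bool)) (ℓ : ℕ) : Finset (List Bool) :=
  insert [] ((Finset.range (ℓ + 1)).biUnion fun j => (BL j).filter fun y => y ∈ S)

theorem mem_WS {S : Set (List Bool)} {ℓ : ℕ} {y : List Bool} (h1 : y.length ≤ ℓ) (h2 : y ∈ S) :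
    y ∈ WS S ℓ := by
  classical
  unfold WS
  rw [mem_insert, mem_biUnion]
  right
  exact ⟨y.length, mem_range.2 (by omega), mem_filter.2 ⟨mem_BL.2 rfl, h2⟩⟩

theorem nil_mem_WS (S : Set (List Bool)) (ℓ : ℕ) : [] ∈ WS S ℓ := by
  classical
  unfold WS
  exact mem_insert_self _ _

theorem card_WS {S : Set (List Bool)} {pS : Polynomial ℕ}
    (h : ∀ n : ℕ, {y | y ∈ S ∧ y.length = n}.ncard ≤ pS.eval n) (ℓ : ℕ) :
    (WS S ℓ).card ≤ (ℓ + 1) * pS.eval ℓ + 1 := by
  classical
  unfold WS
  refine (card_insert_le _ _).trans (Nat.add_le_add_right ?_ 1)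
  refine card_biUnion_le.trans ?_
  have h1 : ∀ j ∈ Finset.range (ℓ + 1), ((BL j).filter fun y => y ∈ S).card ≤ pS.eval ℓ := by
    intro j hj
    have h2 : {y | y ∈ S ∧ y.length = j} = ↑((BL j).filter fun y => y ∈ S) := by
      ext y
      simp [and_comm]
    have h3 := h j
    rw [h2, Set.ncard_coe_finset] at h3
    exact h3.trans (eval_mono pS (by have := mem_range.1 hj; omega))
  refine (sum_le_sum h1).trans ?_
  rw [sum_const, card_range, smul_eq_mul]

theorem red_good {V0 : List Bool → List Bool} {p : Polynomial ℕ} {k : ℕ}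
    {f : List Bool → List (List Bool) × List (List Bool)} {ρ q : Polynomial ℕ} {θ : ℕ → ℝ}
    {S : Set (List Bool)} (hS : Sparse S) (hf : Poly f) (hk : ∀ y, (f y).1.length = k)
    (hgap : ∀ x : List Bool,
      (x ∈ lang (Ax V0 p) → θ x.length + 1 / (((q.eval x.length : ℕ) : ℝ) + 1) ≤
        prob (ρ.eval x.length) fun r => answers S (f (pairBits x r)).1 ∈ (f (pairBits x r)).2) ∧
      (x ∉ lang (Ax V0 p) → prob (ρ.eval x.length)
        (fun r => answers S (f (pairBits x r)).1 ∈ (f (pairBits x r)).2) ≤ θ x.length)) :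
    ∃ A Q : Polynomial ℕ, (∀ n, 1 ≤ Q.eval n) ∧ Good V0 p (B2 f k ρ) A Q := by
  obtain ⟨pS, hpS⟩ := hS
  obtain ⟨r, hr⟩ := hf.sz_le
  set lP : Polynomial ℕ := r.comp (4 * (2 * NP1 p + 1 + ρ.comp (NP1 p)) + 1) with hlP
  set WP : Polynomial ℕ := (lP + 1) * pS.comp lP + 1 with hWP
  refine ⟨Polynomial.C k + (1 + ((p + 1) + ρ.comp (NP1 p))),
    Polynomial.C (2 * 8 ^ k) * WP ^ k * (q.comp (NP1 p) + 1), fun n => ?_, ?_⟩
  · simp only [Polynomial.eval_mul, Polynomial.eval_C, Polynomial.eval_pow, Polynomial.eval_add,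
      Polynomial.eval_one, Polynomial.eval_comp, hWP]
    exact Nat.one_le_iff_ne_zero.2 (by positivity)
  intro x rows w h1 h2 h3
  set m := mm p x with hm
  set n := nI x rows m with hn
  set N1 := (NP1 p).eval x.length with hN1
  set R := ρ.eval n with hR
  have hnle : n ≤ N1 := nI_le h1 h2
  have hRle : R ≤ ρ.eval N1 := eval_mono ρ hnle
  have hAe : (Polynomial.C k + (1 + ((p + 1) + ρ.comp (NP1 p)))).eval x.length =
      k + (1 + (m + ρ.eval N1)) := by
    simp [hm, mm, hN1]
  set a := (Polynomial.C k + (1 + ((p + 1) + ρ.comp (NP1 p)))).eval x.length with ha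
  set ℓ := lP.eval x.length with hℓ
  have hℓe : ℓ = r.eval (4 * (2 * N1 + 1 + ρ.eval N1) + 1) := by
    simp [hℓ, hlP, hN1]
  set W := WS S ℓ with hW
  have hWcard : W.card ≤ WP.eval x.length := by
    refine (card_WS hpS ℓ).trans (le_of_eq ?_)
    simp [hWP, hℓ]
  have hLLcard : (LL W k).card ≤ (WP.eval x.length) ^ k :=
    (card_LL_le W k).trans (Nat.pow_le_pow_left hWcard k)
  have hLLpos : 0 < (LL W k).card := LL_card_pos (nil_mem_WS S ℓ) k
  have hm1 : 1 ≤ m := by rw [hm, mm]; omega
  -- the queries are short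
  have hshort : ∀ u ∈ BL m, ∀ b : Bool, ∀ cs ∈ BL R, ∀ q ∈ (red f x rows u b cs).1, q ∈ S →
      q ∈ W := by
    intro u hu b cs hcs q' hq' hqS
    refine mem_WS ?_ hqS
    have g1 := length_lt_sz q'
    have g2 := sz_le_of_mem hq'
    have g3 : sz (red f x rows u b cs) = sz (red f x rows u b cs).1 +
      sz (red f x rows u b cs).2 + 1 := sz_pair _ _
    have g4 := hr (pairBits (instS x rows u b) cs)
    have g5 := sz_listBool_le (pairBits (instS x rows u b) cs)
    have g6 : (pairBits (instS x rows u b) cs).length ≤ 2 * N1 + 1 + ρ.eval N1 := by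
      rw [pairBits_length, instS_length (mem_BL.1 hu), mem_BL.1 hcs]
      omega
    have g7 := eval_mono r (show sz (pairBits (instS x rows u b) cs) ≤
      4 * (2 * N1 + 1 + ρ.eval N1) + 1 by omega)
    have g8 : sz (red f x rows u b cs) ≤ ℓ := by
      rw [hℓe]
      exact g4.trans g7
    omega
  -- the gap
  set ε : ℝ := 1 / (((q.eval n : ℕ) : ℝ) + 1) with hε
  have hεpos : 0 < ε := by positivity
  have hgap' : ∀ u ∈ BL m, accR f x rows R S u (!(ip u (cd w))) + ε ≤
      accR f x rows R S u (ip u (cd w)) := by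
    intro u hu
    have g1 : ∀ b, (instS x rows u b).length = n := fun b => instS_length (mem_BL.1 hu)
    have g2 : ∀ b, prob R (fun r => answers S (f (pairBits (instS x rows u b) r)).1 ∈
        (f (pairBits (instS x rows u b) r)).2) = accR f x rows R S u b := fun b => by
      rw [prob_eq', accR]
      rfl
    have g3 := (hgap (instS x rows u (ip u (cd w)))).1 ((instS_mem h3 u _).2 rfl)
    have g4 := (hgap (instS x rows u (!(ip u (cd w))))).2 (fun hcon => by
      have := (instS_mem h3 u _).1 hcon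
      cases ip u (cd w) <;> simp at this)
    rw [g1, ← hR, g2, ← hε] at g3
    rw [g1, ← hR, g2] at g4
    linarith
  obtain ⟨T, hT, σ, hTσ⟩ := exists_Adv (f := f) (x := x) (rows := rows) (w := cd w) (m := m)
    (R := R) (nil_mem_WS S ℓ) hk hshort hεpos hgap'
  -- the bound
  have hb0 : ((2 * 8 ^ k * (WP.eval x.length) ^ k * (q.eval N1 + 1) : ℕ) : ℝ) =
      (((Polynomial.C (2 * 8 ^ k) * WP ^ k * (q.comp (NP1 p) + 1)).eval x.length : ℕ) : ℝ) := by
    congr 1
    simp [hN1]
  have hcard : (0 : ℝ) < (LL W k).card := by exact_mod_cast hLLpos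
  have hb1 : 1 / (((Polynomial.C (2 * 8 ^ k) * WP ^ k * (q.comp (NP1 p) + 1)).eval x.length : ℕ) : ℝ)
      ≤ ε / 2 / 2 ^ k / 2 ^ k / (LL W k).card / 2 ^ k := by
    rw [← hb0]
    have g1 : ε / 2 / 2 ^ k / 2 ^ k / (LL W k).card / 2 ^ k =
        1 / ((2 * 8 ^ k) * (LL W k).card * (((q.eval n : ℕ) : ℝ) + 1)) := by
      have g2 : (8 : ℝ) ^ k = 2 ^ k * 2 ^ k * 2 ^ k := by
        rw [← mul_pow, ← mul_pow]; norm_num
      rw [hε, g2]
      field_simp
    rw [g1]
    refine one_div_le_one_div_of_le (by positivity) ?_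
    have g3 : 2 * 8 ^ k * (LL W k).card * (q.eval n + 1) ≤
        2 * 8 ^ k * (WP.eval x.length) ^ k * (q.eval N1 + 1) := by
      refine Nat.mul_le_mul (Nat.mul_le_mul_left _ hLLcard) ?_
      have := eval_mono q hnle
      omega
    exact_mod_cast g3
  set Qv : ℝ := (((Polynomial.C (2 * 8 ^ k) * WP ^ k * (q.comp (NP1 p) + 1)).eval x.length : ℕ) : ℝ)
    with hQv
  have hδ : 0 < ε / 2 / 2 ^ k / 2 ^ k / (LL W k).card := by positivity
  have h2k : (1 : ℝ) ≤ 2 ^ k := one_le_pow₀ (by norm_num)
  have hb2 : 1 / Qv ≤ Adv f x rows (cd w) k m R T σ := by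
    refine hb1.trans (le_trans ?_ hTσ)
    exact div_le_self hδ.le h2k
  have hb3 : 1 / Qv ≤ Hit f x rows m R T σ / 2 ^ k := by
    refine hb1.trans (div_le_div_of_nonneg_right ?_ (by positivity))
    exact hTσ.trans (Adv_le_Hit T σ)
  -- hints
  refine hb3.trans ?_
  obtain ⟨s, hs⟩ : ∃ s, a = k + (1 + (m + (R + s))) := ⟨ρ.eval N1 - R, by rw [hAe]; omega⟩
  rw [← expect_hint (f := f) (x := x) (rows := rows) (m := m) (R := R) hT hs]
  refine expect_le_expect fun h hh => ?_
  by_cases hgood : h.take k = T ∧ mask (h.take k) (red f x rows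
        (((h.drop k).drop 1).take m) ((h.drop k).take 1).headI
        ((((h.drop k).drop 1).drop m).take R)).1 = σ
  · rw [if_pos hgood, if_pos]
    refine hb2.trans (le_of_eq ?_)
    unfold Adv
    refine expect_congr rfl fun u hu => ?_
    have hu' := mem_BL.1 hu
    obtain ⟨s', hs'⟩ : ∃ s', a = k + (1 + (1 + (R + s'))) := ⟨m + ρ.eval N1 - 1 - R, by
      rw [hAe]; omega⟩
    unfold B2 B2s
    simp only [instS_length hu', ← hn, ← hR, hu']
    rw [hgood.2, hgood.1]
    exact (expect_B2aux (f := f) (x := x) (rows := rows) (w := cd w) (R := R) T σ u hs').symm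
  · rw [if_neg hgood]
    split_ifs <;> norm_num

theorem poly_of_bits {β : Type} [TEnc β] [TDec β] [Inhabited β] {r : List Bool → β}
    (h : PolyTime (fun x => bits (r x))) : Poly r := by
  have h1 : Poly (fun x => bits (r x)) := PIso.poly_iff.2 h
  have h2 : Poly (fun x => unbits β (bits (r x))) := poly_unbits.comp h1
  exact (NPC.Poly.optGetD h2 (NPC.Poly.const default)).congr fun x => by
    simp only [unbits_bits, Option.getD_some]

theorem red_BPP (h : ∀ L : Set (List Bool), InNP L → ∃ (k : ℕ) (S : Set (List Bool)),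
    Sparse S ∧ GapRed k L S) {L : Set (List Bool)} (hL : InNP L) : InBPP L ∧ InRP L := by
  obtain ⟨V0, p, hV0, hL'⟩ := hL
  obtain ⟨k, S, hS, f, ρ, q, θ, hf, hk, hgap⟩ := h _ (Ax_inNP hV0 p)
  have hfp : Poly f := poly_of_bits hf
  obtain ⟨A, Q, hQ, hgood⟩ := red_good hS hfp hk hgap
  have hB : Poly (B2 f k ρ) := B2_poly hfp
  have hLv : ∀ x, x ∈ L ↔ ∃ w, ver V0 p x w = true := fun x => by
    rw [hL' x]
    exact exists_congr fun w => ver_iff.symm
  exact ⟨engine_BPP hV0 hB hgood hQ hLv, engine_RP hV0 hB hgood hQ hLv⟩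

/-! ### The converse -/

/-- the reduction to the set that contains only the empty string -/
def F0 (V0 : List Bool → List Bool) (y : List Bool) : List (List Bool) × List (List Bool) :=
  ([if V0 y = [true] then [] else [true]], [[true]])

theorem F0_poly {V0 : List Bool → List Bool} (hV0 : PolyTime V0) : Poly (F0 V0) := by
  have hV : Poly V0 := PIso.poly_iff.2 hV0
  unfold F0
  exact NPC.Poly.pair (NPC.Poly.cons (NPC.Poly.ite (NPC.Poly.decide_eq hV (NPC.Poly.const [true]))
    (NPC.Poly.const []) (NPC.Poly.const [true])) (NPC.Poly.const [])) (NPC.Poly.const [[true]])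

theorem BPP_red {L : Set (List Bool)} (h : InBPP L) :
    Sparse ({[]} : Set (List Bool)) ∧ GapRed 1 L ({[]} : Set (List Bool)) := by
  classical
  obtain ⟨V0, ρ, hV0, hL⟩ := h
  refine ⟨⟨1, fun n => ?_⟩, F0 V0, ρ, 2, fun _ => 1 / 3, polyTime_bits (F0_poly hV0),
    fun y => rfl, fun x => ?_⟩
  · have h1 : {y | y ∈ ({[]} : Set (List Bool)) ∧ y.length = n} ⊆ {[]} := fun y hy => hy.1
    have h2 := Set.ncard_le_ncard h1 (Set.finite_singleton _)
    rw [Set.ncard_singleton] at h2
    simpa using h2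
  · have key : ∀ r, (answers ({[]} : Set (List Bool)) (F0 V0 (pairBits x r)).1 ∈
        (F0 V0 (pairBits x r)).2) ↔ V0 (pairBits x r) = [true] := by
      intro r
      unfold F0
      by_cases hV : V0 (pairBits x r) = [true]
      · simp [answers, hV]
      · simp [answers, hV]
    rw [prob_congr fun r _ => key r]
    have h3 := hL x
    constructor
    · intro hx
      have h4 : (2 : ℝ) / 3 ≤ prob (ρ.eval x.length) fun r => V0 (pairBits x r) = [true] :=
        h3.trans (prob_mono fun r _ hr => hr.2 hx)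
      have h5 : (((2 : Polynomial ℕ).eval x.length : ℕ) : ℝ) = 2 := by simp
      rw [h5]
      linarith
    · intro hx
      have h4 : (2 : ℝ) / 3 ≤ prob (ρ.eval x.length) fun r => ¬ V0 (pairBits x r) = [true] :=
        h3.trans (prob_mono fun r _ hr hV => hx (hr.1 hV))
      have h5 : prob (ρ.eval x.length) (fun r => V0 (pairBits x r) = [true]) +
          prob (ρ.eval x.length) (fun r => ¬ V0 (pairBits x r) = [true]) = 1 := by
        rw [prob_eq', prob_eq', ← expect_add_distrib,
          ← expect_const (BL_nonempty (ρ.eval x.length)) (1 : ℝ)]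
        refine expect_congr rfl fun r _ => ?_
        rw [expect_const (BL_nonempty _)]
        by_cases hV : V0 (pairBits x r) = [true] <;> simp [hV]
      linarith

end Pool.Agent.Helper6K1.BN
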